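import Pool.Agent.KS6_80.LD.Dim

/-!
# Sections of a simplex by a hyperplane

Helper file for MP_ff4a33_gt.
-/

set_option autoImplicit false

open Finset

namespace Pool.Agent.KS6_80.LD

open Pool.Agent.X156.SR

/-- Indices of the vertices of the section. -/
noncomputable def JJ {N : ℕ} (lam : Fin N → ℝ) : Finset ((Fin N × Fin N) ⊕ Fin N) := by
  classical
  exact ((univ.filter fun i => 0 < lam i) ×ˢ (univ.filter fun i => lam i < 0)).disjSum
    (univ.filter fun i => lam i = 0)

/-- The vertices of the section. -/
noncomputable def circ {N : ℕ} (lam : Fin N → ℝ) : (Fin N × Fin N) ⊕ Fin N → Fin N → ℝ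
  | Sum.inl (i, j), k => ((if k = i then -lam j else 0) + if k = j then lam i else 0) /
      (lam i - lam j)
  | Sum.inr z, k => if k = z then 1 else 0

theorem mem_JJ_inl {N : ℕ} {lam : Fin N → ℝ} {i j : Fin N} :
    Sum.inl (i, j) ∈ JJ lam ↔ 0 < lam i ∧ lam j < 0 := by
  classical
  simp [JJ]

theorem mem_JJ_inr {N : ℕ} {lam : Fin N → ℝ} {i : Fin N} :
    Sum.inr i ∈ JJ lam ↔ lam i = 0 := by
  classical
  simp [JJ]

theorem circ_spec {N : ℕ} {lam : Fin N → ℝ} {l : (Fin N × Fin N) ⊕ Fin N} (hl : l ∈ JJ lam) :
    (∀ k, 0 ≤ circ lam l k) ∧ ∑ k, circ lam l k = 1 ∧ ∑ k, lam k * circ lam l k = 0 := by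
  classical
  rcases l with ⟨i, j⟩ | z
  · obtain ⟨h1, h2⟩ := mem_JJ_inl.1 hl
    have h3 : 0 < lam i - lam j := by linarith
    refine ⟨fun k => ?_, ?_, ?_⟩
    · simp only [circ]
      apply div_nonneg _ h3.le
      split_ifs <;> linarith
    · simp only [circ]
      rw [← Finset.sum_div, Finset.sum_add_distrib, Finset.sum_ite_eq', Finset.sum_ite_eq',
        if_pos (Finset.mem_univ _), if_pos (Finset.mem_univ _), div_eq_one_iff_eq h3.ne']
      ring
    · simp only [circ]
      have e : ∀ k ∈ (Finset.univ : Finset (Fin N)), lam k *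
          (((if k = i then -lam j else 0) + if k = j then lam i else 0) / (lam i - lam j)) =
          ((if k = i then lam i * -lam j else 0) + if k = j then lam j * lam i else 0) /
            (lam i - lam j) := by
        intro k _
        rw [mul_div_assoc']
        congr 1
        rcases eq_or_ne k i with rfl | hi
        · have hkj : k ≠ j := by rintro rfl; linarith
          rw [if_pos rfl, if_neg hkj, if_pos rfl, if_neg hkj]; ring
        · rw [if_neg hi, if_neg hi]
          rcases eq_or_ne k j with rfl | hj
          · rw [if_pos rfl, if_pos rfl]; ring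
          · rw [if_neg hj, if_neg hj]; ring
      rw [Finset.sum_congr rfl e, ← Finset.sum_div, Finset.sum_add_distrib, Finset.sum_ite_eq',
        Finset.sum_ite_eq', if_pos (Finset.mem_univ _), if_pos (Finset.mem_univ _)]
      have : lam i * -lam j + lam j * lam i = 0 := by ring
      rw [this, zero_div]
  · have h1 := mem_JJ_inr.1 hl
    refine ⟨fun k => ?_, ?_, ?_⟩
    · simp only [circ]
      split_ifs <;> norm_num
    · simp only [circ, Finset.sum_ite_eq', Finset.mem_univ, if_true]
    · simp only [circ, mul_ite, mul_one, mul_zero, Finset.sum_ite_eq', Finset.mem_univ, if_true]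
      exact h1

theorem circuits {N : ℕ} (lam p : Fin N → ℝ) (hp : ∀ i, 0 ≤ p i) (hs : ∑ i, p i = 1)
    (hl : ∑ i, lam i * p i = 0) :
    ∃ θ : (Fin N × Fin N) ⊕ Fin N → ℝ, (∀ l ∈ JJ lam, 0 ≤ θ l) ∧ ∑ l ∈ JJ lam, θ l = 1 ∧
      ∀ k, ∑ l ∈ JJ lam, θ l * circ lam l k = p k := by
  classical
  obtain ⟨S, hS⟩ : ∃ S, S = ∑ i ∈ univ.filter (fun i => 0 < lam i), lam i * p i := ⟨_, rfl⟩
  have hS' : S = ∑ i ∈ univ.filter (fun i => lam i < 0), -lam i * p i := by
    have h1 : ∑ i, lam i * p i = ∑ i ∈ univ.filter (fun i => 0 < lam i), lam i * p i -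
        ∑ i ∈ univ.filter (fun i => lam i < 0), -lam i * p i := by
      rw [Finset.sum_filter, Finset.sum_filter, ← Finset.sum_sub_distrib]
      refine Finset.sum_congr rfl fun i _ => ?_
      rcases lt_trichotomy (lam i) 0 with h | h | h
      · rw [if_neg (not_lt.2 h.le), if_pos h]; ring
      · rw [if_neg (by rw [h]; exact lt_irrefl _), if_neg (by rw [h]; exact lt_irrefl _), h]; ring
      · rw [if_pos h, if_neg (not_lt.2 h.le)]; ring
    rw [hl, ← hS] at h1
    linarith
  have hSnn : 0 ≤ S := by
    rw [hS]
    refine Finset.sum_nonneg fun i hi => mul_nonneg ?_ (hp i)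
    exact (Finset.mem_filter.1 hi).2.le
  let θ : (Fin N × Fin N) ⊕ Fin N → ℝ := fun l => match l with
    | Sum.inl (i, j) => p i * p j * (lam i - lam j) / S
    | Sum.inr z => p z
  have hcoord : ∀ k, ∑ l ∈ JJ lam, θ l * circ lam l k = p k := by
    intro k
    rw [JJ, Finset.sum_disjSum, Finset.sum_product]
    simp only [θ, circ]
    rcases lt_trichotomy (lam k) 0 with h | h | h
    · -- k in B
      have e2 : ∑ z ∈ univ.filter (fun i => lam i = 0), p z * (if k = z then (1 : ℝ) else 0) = 0 := by
        refine Finset.sum_eq_zero fun z hz => ?_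
        rw [if_neg, mul_zero]
        rintro rfl
        have := (Finset.mem_filter.1 hz).2
        linarith
      rw [e2, add_zero]
      have e3 : ∀ i ∈ univ.filter (fun i => 0 < lam i), ∑ j ∈ univ.filter (fun i => lam i < 0),
          p i * p j * (lam i - lam j) / S * (((if k = i then -lam j else 0) +
            if k = j then lam i else 0) / (lam i - lam j)) = lam i * p i * (p k / S) := by
        intro i hi
        have hi' := (Finset.mem_filter.1 hi).2
        have hki : k ≠ i := by rintro rfl; linarith
        rw [Finset.sum_eq_single k]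
        · rw [if_neg hki, if_pos rfl, zero_add]
          have : lam i - lam k ≠ 0 := by linarith
          field_simp
        · intro j _ hj
          rw [if_neg hki, if_neg (Ne.symm hj)]
          simp
        · intro hk
          exact (hk (Finset.mem_filter.2 ⟨Finset.mem_univ _, h⟩)).elim
      rw [Finset.sum_congr rfl e3, ← Finset.sum_mul, ← hS]
      by_cases hS0 : S = 0
      · rw [hS0, zero_mul]
        rw [hS0] at hS'
        have := (Finset.sum_eq_zero_iff_of_nonneg (fun i hi => by
          have := (Finset.mem_filter.1 hi).2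
          exact mul_nonneg (by linarith) (hp i))).1 hS'.symm k
          (Finset.mem_filter.2 ⟨Finset.mem_univ _, h⟩)
        rcases mul_eq_zero.1 this with h4 | h4
        · linarith
        · exact h4.symm
      · field_simp
    · -- k in Z
      have e1 : ∑ i ∈ univ.filter (fun i => 0 < lam i), ∑ j ∈ univ.filter (fun i => lam i < 0),
          p i * p j * (lam i - lam j) / S * (((if k = i then -lam j else 0) +
            if k = j then lam i else 0) / (lam i - lam j)) = 0 := by
        refine Finset.sum_eq_zero fun i hi => Finset.sum_eq_zero fun j hj => ?_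
        have hi' := (Finset.mem_filter.1 hi).2
        have hj' := (Finset.mem_filter.1 hj).2
        rw [if_neg (by rintro rfl; linarith), if_neg (by rintro rfl; linarith)]
        simp
      rw [e1, zero_add, Finset.sum_eq_single k]
      · rw [if_pos rfl, mul_one]
      · intro z _ hz
        rw [if_neg (Ne.symm hz), mul_zero]
      · intro hk
        exact (hk (Finset.mem_filter.2 ⟨Finset.mem_univ _, h⟩)).elim
    · -- k in A
      have e2 : ∑ z ∈ univ.filter (fun i => lam i = 0), p z * (if k = z then (1 : ℝ) else 0) = 0 := by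
        refine Finset.sum_eq_zero fun z hz => ?_
        rw [if_neg, mul_zero]
        rintro rfl
        have := (Finset.mem_filter.1 hz).2
        linarith
      rw [e2, add_zero, Finset.sum_comm]
      have e3 : ∀ j ∈ univ.filter (fun i => lam i < 0), ∑ i ∈ univ.filter (fun i => 0 < lam i),
          p i * p j * (lam i - lam j) / S * (((if k = i then -lam j else 0) +
            if k = j then lam i else 0) / (lam i - lam j)) = -lam j * p j * (p k / S) := by
        intro j hj
        have hj' := (Finset.mem_filter.1 hj).2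
        have hkj : k ≠ j := by rintro rfl; linarith
        rw [Finset.sum_eq_single k]
        · rw [if_neg hkj, if_pos rfl, add_zero]
          have : lam k - lam j ≠ 0 := by linarith
          field_simp
        · intro i _ hi
          rw [if_neg hkj, if_neg (Ne.symm hi)]
          simp
        · intro hk
          exact (hk (Finset.mem_filter.2 ⟨Finset.mem_univ _, h⟩)).elim
      rw [Finset.sum_congr rfl e3, ← Finset.sum_mul, ← hS']
      by_cases hS0 : S = 0
      · rw [hS0, zero_mul]
        rw [hS0] at hS
        have := (Finset.sum_eq_zero_iff_of_nonneg (fun i hi => by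
          have := (Finset.mem_filter.1 hi).2
          exact mul_nonneg this.le (hp i))).1 hS.symm k
          (Finset.mem_filter.2 ⟨Finset.mem_univ _, h⟩)
        rcases mul_eq_zero.1 this with h4 | h4
        · linarith
        · exact h4.symm
      · field_simp
  refine ⟨θ, ?_, ?_, hcoord⟩
  · rintro (⟨i, j⟩ | z) hl
    · obtain ⟨h1, h2⟩ := mem_JJ_inl.1 hl
      exact div_nonneg (mul_nonneg (mul_nonneg (hp i) (hp j)) (by linarith)) hSnn
    · exact hp z
  · rw [← hs]
    have e : ∑ i, p i = ∑ k, ∑ l ∈ JJ lam, θ l * circ lam l k :=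
      Finset.sum_congr rfl fun k _ => (hcoord k).symm
    rw [e, Finset.sum_comm]
    refine Finset.sum_congr rfl fun l hl => ?_
    rw [← Finset.mul_sum, (circ_spec hl).2.1, mul_one]

theorem card_JJ {N : ℕ} (lam : Fin N → ℝ)
    (h3 : ∀ i j k : Fin N, i ≠ j → i ≠ k → j ≠ k → 0 < lam i * lam j → 0 < lam i * lam k →
      0 < lam j * lam k → False) : (JJ lam).card ≤ N := by
  classical
  rw [JJ, Finset.card_disjSum, Finset.card_product]
  obtain ⟨a, ha⟩ : ∃ a, a = (univ.filter fun i => 0 < lam i).card := ⟨_, rfl⟩
  obtain ⟨b, hb⟩ : ∃ b, b = (univ.filter fun i => lam i < 0).card := ⟨_, rfl⟩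
  obtain ⟨z, hz⟩ : ∃ z, z = (univ.filter fun i => lam i = 0).card := ⟨_, rfl⟩
  rw [← ha, ← hb, ← hz]
  have hN : a + b + z = N := by
    have h1 : (univ.filter fun i => 0 < lam i).card + (univ.filter fun i => ¬ 0 < lam i).card =
        (univ : Finset (Fin N)).card := Finset.card_filter_add_card_filter_not _
    have h2 : ((univ.filter fun i => ¬ 0 < lam i).filter fun i => lam i < 0).card +
        ((univ.filter fun i => ¬ 0 < lam i).filter fun i => ¬ lam i < 0).card =
        (univ.filter fun i => ¬ 0 < lam i).card := Finset.card_filter_add_card_filter_not _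
    have e1 : ((univ.filter fun i => ¬ 0 < lam i).filter fun i => lam i < 0) =
        univ.filter fun i => lam i < 0 := by
      ext i
      simp only [Finset.mem_filter, Finset.mem_univ, true_and]
      constructor
      · exact fun h => h.2
      · exact fun h => ⟨not_lt.2 h.le, h⟩
    have e2 : ((univ.filter fun i => ¬ 0 < lam i).filter fun i => ¬ lam i < 0) =
        univ.filter fun i => lam i = 0 := by
      ext i
      simp only [Finset.mem_filter, Finset.mem_univ, true_and]
      constructor
      · exact fun h => le_antisymm (not_lt.1 h.1) (not_lt.1 h.2)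
      · exact fun h => ⟨by rw [h]; exact lt_irrefl _, by rw [h]; exact lt_irrefl _⟩
    rw [e1, e2] at h2
    rw [Finset.card_univ, Fintype.card_fin] at h1
    omega
  have ha2 : a ≤ 2 := by
    by_contra h
    rw [ha, not_le, Finset.two_lt_card] at h
    obtain ⟨i, hi, j, hj, k, hk, hij, hik, hjk⟩ := h
    have hi' := (Finset.mem_filter.1 hi).2
    have hj' := (Finset.mem_filter.1 hj).2
    have hk' := (Finset.mem_filter.1 hk).2
    exact h3 i j k hij hik hjk (mul_pos hi' hj') (mul_pos hi' hk') (mul_pos hj' hk')
  have hb2 : b ≤ 2 := by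
    by_contra h
    rw [hb, not_le, Finset.two_lt_card] at h
    obtain ⟨i, hi, j, hj, k, hk, hij, hik, hjk⟩ := h
    have hi' := (Finset.mem_filter.1 hi).2
    have hj' := (Finset.mem_filter.1 hj).2
    have hk' := (Finset.mem_filter.1 hk).2
    exact h3 i j k hij hik hjk (mul_pos_of_neg_of_neg hi' hj') (mul_pos_of_neg_of_neg hi' hk')
      (mul_pos_of_neg_of_neg hj' hk')
  have hab : a * b ≤ a + b := by
    interval_cases a <;> interval_cases b <;> norm_num
  omega

end Pool.Agent.KS6_80.LD
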