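import Pool.Agent.KS6_80.LD.Circ

/-!
# Refinements for which the probability vectors span a hyperplane

Helper file for MP_ff4a33_gt.
-/

set_option autoImplicit false

open Finset

namespace Pool.Agent.KS6_80.LD

open Pool.Agent.X156.SR

theorem sorted_triple {x y z R : ℝ} (h1 : |z| + R ≤ |x - y|) (h3 : |x| + R ≤ |y - z|)
    (hxy : y ≤ x) (hyz : z ≤ y) (hs : |x + y + z| ≤ R) : R = 0 ∧ y = 0 ∧ x + z = 0 := by
  rw [abs_of_nonneg (by linarith : 0 ≤ x - y)] at h1
  rw [abs_of_nonneg (by linarith : 0 ≤ y - z)] at h3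
  have h4 := neg_le_abs z
  have h5 := le_abs_self x
  have h6 := abs_nonneg (x + y + z)
  have hR : R = 0 := by linarith
  rw [hR] at hs
  have h7 : x + y + z = 0 := abs_eq_zero.1 (le_antisymm hs h6)
  have hy : y = 0 := by linarith
  exact ⟨hR, hy, by linarith⟩

theorem triple {x y z R : ℝ} (h1 : |z| + R ≤ |x - y|) (h2 : |y| + R ≤ |x - z|)
    (h3 : |x| + R ≤ |y - z|) (hs : |x + y + z| ≤ R) :
    R = 0 ∧ ((x = 0 ∧ y + z = 0) ∨ (y = 0 ∧ x + z = 0) ∨ (z = 0 ∧ x + y = 0)) := by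
  rcases le_total x y with hxy | hxy
  · rcases le_total y z with hyz | hyz
    · -- z ≥ y ≥ x
      obtain ⟨a, b, c⟩ := sorted_triple (x := z) (y := y) (z := x) (R := R)
        (by rwa [abs_sub_comm z y]) (by rwa [abs_sub_comm y x]) hyz hxy
        (by rwa [show z + y + x = x + y + z by ring])
      exact ⟨a, Or.inr (Or.inl ⟨b, by linarith⟩)⟩
    · rcases le_total x z with hxz | hxz
      · -- y ≥ z ≥ x
        obtain ⟨a, b, c⟩ := sorted_triple (x := y) (y := z) (z := x) (R := R)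
          h3 (by rwa [abs_sub_comm z x]) hyz hxz
          (by rwa [show y + z + x = x + y + z by ring])
        exact ⟨a, Or.inr (Or.inr ⟨b, by linarith⟩)⟩
      · -- y ≥ x ≥ z
        obtain ⟨a, b, c⟩ := sorted_triple (x := y) (y := x) (z := z) (R := R)
          (by rwa [abs_sub_comm y x]) h2 hxy hxz
          (by rwa [show y + x + z = x + y + z by ring])
        exact ⟨a, Or.inl ⟨b, by linarith⟩⟩
  · rcases le_total y z with hyz | hyz
    · rcases le_total x z with hxz | hxz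
      · -- z ≥ x ≥ y
        obtain ⟨a, b, c⟩ := sorted_triple (x := z) (y := x) (z := y) (R := R)
          (by rwa [abs_sub_comm z x]) h1 hxz hxy
          (by rwa [show z + x + y = x + y + z by ring])
        exact ⟨a, Or.inl ⟨b, by linarith⟩⟩
      · -- x ≥ z ≥ y
        obtain ⟨a, b, c⟩ := sorted_triple (x := x) (y := z) (z := y) (R := R)
          h2 (by rwa [abs_sub_comm z y]) hxz hyz
          (by rwa [show x + z + y = x + y + z by ring])
        exact ⟨a, Or.inr (Or.inr ⟨b, by linarith⟩)⟩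
    · -- x ≥ y ≥ z
      obtain ⟨a, b, c⟩ := sorted_triple h1 h3 hxy hyz hs
      exact ⟨a, Or.inr (Or.inl ⟨b, by linarith⟩)⟩

/-- Three coordinates determine the vector. -/
theorem pair_of_triple {N : ℕ} {κ : Fin N → ℝ} (hκ : κ ≠ 0) (hsum : ∑ k, κ k = 0)
    {i j k : Fin N} (hij : i ≠ j) (hik : i ≠ k) (hjk : j ≠ k)
    (h1 : ∑ l, |κ l| ≤ |κ i| + |κ j| + |κ i - κ j|)
    (h2 : ∑ l, |κ l| ≤ |κ i| + |κ k| + |κ i - κ k|)
    (h3 : ∑ l, |κ l| ≤ |κ j| + |κ k| + |κ j - κ k|) :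
    ∃ p q : Fin N, p ≠ q ∧ κ p ≠ 0 ∧ κ p + κ q = 0 ∧ ∀ l, l ≠ p → l ≠ q → κ l = 0 := by
  classical
  have e1 := Finset.sum_add_sum_compl ({i, j, k} : Finset (Fin N)) (fun l => |κ l|)
  have e2 := Finset.sum_add_sum_compl ({i, j, k} : Finset (Fin N)) (fun l => κ l)
  have hi : i ∉ ({j, k} : Finset (Fin N)) := by simp [hij, hik]
  have hj : j ∉ ({k} : Finset (Fin N)) := by simp [hjk]
  rw [Finset.sum_insert hi, Finset.sum_insert hj, Finset.sum_singleton] at e1 e2
  obtain ⟨R, hR⟩ : ∃ R, R = ∑ l ∈ ({i, j, k} : Finset (Fin N))ᶜ, |κ l| := ⟨_, rfl⟩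
  have h4 : |κ i + κ j + κ k| ≤ R := by
    have : κ i + κ j + κ k = -∑ l ∈ ({i, j, k} : Finset (Fin N))ᶜ, κ l := by
      rw [hsum] at e2
      linarith
    rw [this, abs_neg, hR]
    exact Finset.abs_sum_le_sum_abs _ _
  rw [← hR] at e1
  obtain ⟨hR0, hc⟩ := triple (x := κ i) (y := κ j) (z := κ k) (R := R) (by linarith)
    (by linarith) (by linarith) h4
  have hrest : ∀ l, l ≠ i → l ≠ j → l ≠ k → κ l = 0 := by
    intro l hli hlj hlk
    rw [hR0] at hR
    have := (Finset.sum_eq_zero_iff_of_nonneg fun l _ => abs_nonneg _).1 hR.symm l (by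
      simp [hli, hlj, hlk])
    exact abs_eq_zero.1 this
  have hne : ∀ p q r : Fin N, (∀ l, l ≠ p → l ≠ q → l ≠ r → κ l = 0) → κ r = 0 →
      κ p + κ q = 0 → κ p ≠ 0 := by
    intro p q r hl hr hpq hp
    apply hκ
    funext l
    by_cases h5 : l = p
    · rw [h5, hp]; rfl
    · by_cases h6 : l = q
      · rw [h6]
        have : κ q = 0 := by linarith
        exact this
      · by_cases h7 : l = r
        · rw [h7, hr]; rfl
        · exact hl l h5 h6 h7
  rcases hc with ⟨h5, h6⟩ | ⟨h5, h6⟩ | ⟨h5, h6⟩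
  · refine ⟨j, k, hjk, hne j k i (fun l a b c => hrest l c a b) h5 h6, h6, fun l hl hl' => ?_⟩
    by_cases h : l = i
    · rw [h, h5]
    · exact hrest l h hl hl'
  · refine ⟨i, k, hik, hne i k j (fun l a b c => hrest l a c b) h5 h6, h6, fun l hl hl' => ?_⟩
    by_cases h : l = j
    · rw [h, h5]
    · exact hrest l hl h hl'
  · refine ⟨i, j, hij, hne i j k (fun l a b c => hrest l a b c) h5 h6, h6, fun l hl hl' => ?_⟩
    by_cases h : l = k
    · rw [h, h5]
    · exact hrest l hl hl' h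

variable {E : Type*} [NormedAddCommGroup E] [NormedSpace ℝ E]

theorem form_rel {C : Set E} (hconv : Convex ℝ C) {η : C → ℝ} (hη : η ∈ Omega C) {m : ℕ}
    {c : Fin m → E} (hc : ∀ j, c j ∈ C) {g : Fin m → ℝ} (h0 : ∑ j, g j = 0)
    (h1 : ∑ j, g j • c j = 0) : ∑ j, g j * η ⟨c j, hc j⟩ = 0 := by
  have hsplit : ∀ j, g j = max (g j) 0 - max (-g j) 0 := by
    intro j
    rcases le_total 0 (g j) with h | h
    · rw [max_eq_left h, max_eq_right (by linarith)]; ring
    · rw [max_eq_right h, max_eq_left (by linarith)]; ring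
  obtain ⟨G, hG⟩ : ∃ G, G = ∑ j, max (g j) 0 := ⟨_, rfl⟩
  have hG' : G = ∑ j, max (-g j) 0 := by
    have h2 : ∑ j, g j = ∑ j, max (g j) 0 - ∑ j, max (-g j) 0 := by
      rw [← Finset.sum_sub_distrib]
      exact Finset.sum_congr rfl fun j _ => hsplit j
    linarith
  have hGnn : 0 ≤ G := by rw [hG]; exact Finset.sum_nonneg fun _ _ => le_max_right _ _
  rcases hGnn.eq_or_lt with h | h
  · rw [← h] at hG hG'
    refine Finset.sum_eq_zero fun j _ => ?_
    have a1 := (Finset.sum_eq_zero_iff_of_nonneg fun j _ => le_max_right _ _).1 hG.symm j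
      (Finset.mem_univ j)
    have a2 := (Finset.sum_eq_zero_iff_of_nonneg fun j _ => le_max_right _ _).1 hG'.symm j
      (Finset.mem_univ j)
    rw [hsplit j, a1, a2]
    ring
  · have ht : (fun j => max (g j) 0 / G) ∈ stdSimplex ℝ (Fin m) := by
      refine ⟨fun j => div_nonneg (le_max_right _ _) h.le, ?_⟩
      rw [← Finset.sum_div, ← hG, div_self h.ne']
    have hs : (fun j => max (-g j) 0 / G) ∈ stdSimplex ℝ (Fin m) := by
      refine ⟨fun j => div_nonneg (le_max_right _ _) h.le, ?_⟩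
      rw [← Finset.sum_div, ← hG', div_self h.ne']
    have hmem : ∑ j, (max (g j) 0 / G) • c j ∈ C :=
      hconv.sum_mem (fun j _ => ht.1 j) ht.2 fun j _ => hc j
    have heq : ∑ j, (max (g j) 0 / G) • c j = ∑ j, (max (-g j) 0 / G) • c j := by
      rw [← sub_eq_zero, ← Finset.sum_sub_distrib]
      have e : ∀ j ∈ (Finset.univ : Finset (Fin m)), (max (g j) 0 / G) • c j -
          (max (-g j) 0 / G) • c j = (1 / G) • (g j • c j) := by
        intro j _
        rw [← sub_smul, smul_smul, ← sub_div, ← hsplit j]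
        congr 1
        ring
      rw [Finset.sum_congr rfl e, ← Finset.smul_sum, h1, smul_zero]
    have f1 := form_sum hconv hη hc ht ⟨_, hmem⟩ rfl
    have f2 := form_sum hconv hη hc hs ⟨_, hmem⟩ heq
    have f3 : ∑ j, max (g j) 0 / G * η ⟨c j, hc j⟩ = ∑ j, max (-g j) 0 / G * η ⟨c j, hc j⟩ :=
      f1.symm.trans f2
    have f4 : ∑ j, g j * η ⟨c j, hc j⟩ = G * (∑ j, max (g j) 0 / G * η ⟨c j, hc j⟩ -
        ∑ j, max (-g j) 0 / G * η ⟨c j, hc j⟩) := by
      rw [← Finset.sum_sub_distrib, Finset.mul_sum]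
      refine Finset.sum_congr rfl fun j _ => ?_
      conv_lhs => rw [hsplit j]
      field_simp
    rw [f4, f3, sub_self, mul_zero]

/-- Merging two columns. -/
theorem merge {C : Set E} {n : ℕ} {P : E → Fin (n + 1) → ℝ} {W : (C → ℝ) → Fin (n + 1) → ℝ}
    (hP : ∀ x ∈ C, (∀ i, 0 ≤ P x i) ∧ ∑ i, P x i = 1)
    (hW : ∀ η ∈ Omega C, ∀ i, 0 ≤ W η i ∧ W η i ≤ 1)
    (hPW : ∀ x : C, ∀ η ∈ Omega C, η x = ∑ i, P x i * W η i) {p q : Fin (n + 1)} (hpq : p ≠ q)
    (hm : ∀ η ∈ Omega C, W η p = W η q) :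
    ∃ (P' : E → Fin n → ℝ) (W' : (C → ℝ) → Fin n → ℝ),
      (∀ x ∈ C, (∀ i, 0 ≤ P' x i) ∧ ∑ i, P' x i = 1) ∧
      (∀ η ∈ Omega C, ∀ i, 0 ≤ W' η i ∧ W' η i ≤ 1) ∧
      ∀ x : C, ∀ η ∈ Omega C, η x = ∑ i, P' x i * W' η i := by
  classical
  obtain ⟨p', hp'⟩ := Fin.exists_succAbove_eq hpq
  have hiff : ∀ i, q.succAbove i = p ↔ i = p' := by
    intro i
    rw [← hp']
    exact q.succAbove_right_inj
  refine ⟨fun x i => P x (q.succAbove i) + if i = p' then P x q else 0,
    fun η i => W η (q.succAbove i), fun x hx => ⟨fun i => ?_, ?_⟩, fun η hη i => hW η hη _,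
    fun x η hη => ?_⟩
  · have h1 := (hP x hx).1 (q.succAbove i)
    have h2 := (hP x hx).1 q
    change 0 ≤ P x (q.succAbove i) + if i = p' then P x q else 0
    split_ifs <;> linarith
  · rw [Finset.sum_add_distrib, Finset.sum_ite_eq', if_pos (Finset.mem_univ _), add_comm,
      ← Fin.sum_univ_succAbove (P x) q]
    exact (hP x hx).2
  · rw [hPW x η hη, Fin.sum_univ_succAbove _ q]
    simp only [add_mul, ite_mul, zero_mul, Finset.sum_add_distrib, Finset.sum_ite_eq',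
      Finset.mem_univ, if_true]
    rw [hp', hm η hη]
    ring

end Pool.Agent.KS6_80.LD
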