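import Pool.Agent.KS6_80.LD.Str

/-!
# The dimension count

Helper file for MP_ff4a33_gt.
-/

set_option autoImplicit false

open Finset

namespace Pool.Agent.KS6_80.LD

open Pool.Agent.X156.SR

variable {E : Type*} [NormedAddCommGroup E] [NormedSpace ℝ E]
variable {C : Set E} {N : ℕ} {P : E → Fin N → ℝ} {W : (C → ℝ) → Fin N → ℝ} {m : ℕ} {c : Fin m → E}

/-- The barycenter map together with the total mass. -/
noncomputable def Phi (c : Fin m → E) : (Fin m → ℝ) →ₗ[ℝ] E × ℝ :=
  Fintype.linearCombination ℝ (fun j => (c j, (1 : ℝ)))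

/-- The combination of the probability vectors. -/
noncomputable def Psi (P : E → Fin N → ℝ) (c : Fin m → E) : (Fin m → ℝ) →ₗ[ℝ] (Fin N → ℝ) :=
  Fintype.linearCombination ℝ (fun j => P (c j))

theorem Phi_eq_zero {g : Fin m → ℝ} :
    Phi c g = 0 ↔ ∑ j, g j = 0 ∧ ∑ j, g j • c j = 0 := by
  rw [Phi, Fintype.linearCombination_apply, Prod.ext_iff, Prod.fst_sum, Prod.snd_sum]
  simp only [Prod.smul_mk, smul_eq_mul, mul_one, Prod.fst_zero, Prod.snd_zero]
  exact and_comm

omit [NormedAddCommGroup E] [NormedSpace ℝ E] in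
theorem Psi_apply {g : Fin m → ℝ} (i : Fin N) : Psi P c g i = ∑ j, g j * P (c j) i := by
  rw [Psi, Fintype.linearCombination_apply, Finset.sum_apply]
  rfl

theorem card_le_of_surj (hC : IsPolytope C)
    (hP : ∀ x ∈ C, (∀ i, 0 ≤ P x i) ∧ ∑ i, P x i = 1)
    (hW : ∀ η ∈ Omega C, ∀ i, 0 ≤ W η i ∧ W η i ≤ 1)
    (hPW : ∀ x : C, ∀ η ∈ Omega C, η x = ∑ i, P x i * W η i)
    (hcC : ∀ j, c j ∈ C) (hc : Set.range c = C.extremePoints ℝ)
    (hs : LinearMap.range (Psi P c) = ⊤) : (C.extremePoints ℝ).ncard ≤ N := by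
  classical
  have hcomp := hC.2.1
  have hconv := hC.2.2.1
  have hex : ∀ i : Fin N, ∃ g : Fin m → ℝ, Psi P c g = Pi.single i (1 : ℝ) := by
    intro i
    have : Pi.single i (1 : ℝ) ∈ LinearMap.range (Psi P c) := by rw [hs]; exact Submodule.mem_top
    exact this
  choose g hg using hex
  let q : Fin N → E := fun i => ∑ j, g i j • c j
  have hφq : ∀ (φ : E →L[ℝ] ℝ) (w : Fin N → ℝ), (∀ x ∈ C, φ x = ∑ i, P x i * w i) →
      ∀ i, φ (q i) = w i := by
    intro φ w hw i
    have h1 := push_functional hcC hw (g i)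
    change φ (q i) = _ at h1
    rw [h1]
    have h2 : ∀ k, ∑ j, g i j * P (c j) k = (Pi.single i (1 : ℝ) : Fin N → ℝ) k := by
      intro k
      rw [← hg i, Psi_apply]
    simp only [h2, Pi.single_apply, ite_mul, one_mul, zero_mul, Finset.sum_ite_eq',
      Finset.mem_univ, if_true]
  have hqC : ∀ i, q i ∈ C := by
    intro i
    by_contra hnot
    obtain ⟨φ, u, h1, h2⟩ := geometric_hahn_banach_point_closed hconv hcomp.isClosed hnot
    obtain ⟨w, u', l, hu, hl, hwl, hw⟩ := lift_two hcomp hC.1 hP hW hPW φ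
    have h3 := hφq φ w hw i
    have h4 := h2 l hl
    have h5 := (hwl i).1
    linarith
  have hcq : ∀ j, ∑ i, P (c j) i • q i = c j := by
    intro j
    apply eq_of_functionals
    intro φ
    obtain ⟨w, u', l, hu, hl, hwl, hw⟩ := lift_two hcomp hC.1 hP hW hPW φ
    rw [map_sum, hw _ (hcC j)]
    refine Finset.sum_congr rfl fun i _ => ?_
    rw [map_smul, smul_eq_mul, hφq φ w hw i]
  have hCeq : C = convexHull ℝ (Set.range q) := by
    apply Set.Subset.antisymm
    · rw [eq_convexHull hC, ← hc]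
      apply convexHull_min _ (convex_convexHull ℝ _)
      rintro _ ⟨j, rfl⟩
      rw [← hcq j]
      exact (convex_convexHull ℝ _).sum_mem (fun i _ => (hP _ (hcC j)).1 i) (hP _ (hcC j)).2
        fun i _ => subset_convexHull ℝ _ ⟨i, rfl⟩
    · apply convexHull_min _ hconv
      rintro _ ⟨i, rfl⟩
      exact hqC i
  have hsub : C.extremePoints ℝ ⊆ Set.range q := by
    have h1 := extremePoints_convexHull_subset (𝕜 := ℝ) (A := Set.range q)
    rwa [← hCeq] at h1
  calc (C.extremePoints ℝ).ncard ≤ (Set.range q).ncard :=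
        Set.ncard_le_ncard hsub (Set.finite_range q)
    _ ≤ N := by
        rw [← Set.image_univ]
        refine (Set.ncard_image_le Set.finite_univ).trans ?_
        rw [Set.ncard_univ, Nat.card_eq_fintype_card, Fintype.card_fin]

theorem rank_Phi [FiniteDimensional ℝ E] (hC : IsPolytope C)
    (hc : Set.range c = C.extremePoints ℝ) :
    Module.finrank ℝ (vectorSpan ℝ C) + 1 ≤ Module.finrank ℝ (LinearMap.range (Phi c)) := by
  classical
  obtain ⟨t, htc, hspan, hind⟩ := exists_affineIndependent ℝ E (Set.range c)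
  have hfin : t.Finite := finite_set_of_fin_dim_affineIndependent ℝ hind
  have : Fintype t := hfin.fintype
  have hXne : (Set.range c).Nonempty := by
    rw [hc]; exact hC.2.1.extremePoints_nonempty hC.1
  have htne : t.Nonempty := by
    rw [← affineSpan_nonempty (k := ℝ), hspan, affineSpan_nonempty]
    exact hXne
  have : Nonempty t := htne.to_subtype
  have haff : affineSpan ℝ C = affineSpan ℝ (Set.range c) := by
    conv_lhs => rw [eq_convexHull hC, ← hc]
    exact affineSpan_convexHull _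
  have hcard : Module.finrank ℝ (vectorSpan ℝ C) + 1 = Fintype.card t := by
    rw [← hind.finrank_vectorSpan_add_one, Subtype.range_coe, ← direction_affineSpan,
      ← direction_affineSpan, hspan, haff]
  have hmem : ∀ x : t, ((x : E), (1 : ℝ)) ∈ LinearMap.range (Phi c) := by
    intro x
    obtain ⟨j, hj⟩ := htc x.2
    refine ⟨Pi.single j 1, ?_⟩
    rw [Phi, Fintype.linearCombination_apply_single, one_smul, hj]
  have hli : LinearIndependent ℝ (fun x : t => (⟨((x : E), (1 : ℝ)), hmem x⟩ :
      LinearMap.range (Phi c))) := by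
    apply LinearIndependent.of_comp (LinearMap.range (Phi c)).subtype
    rw [Fintype.linearIndependent_iff]
    intro g hg
    have h1 := (Prod.ext_iff.1 hg)
    rw [Prod.fst_sum, Prod.snd_sum] at h1
    simp only [Function.comp_apply, Submodule.subtype_apply, Prod.smul_mk, smul_eq_mul, mul_one,
      Prod.fst_zero, Prod.snd_zero] at h1
    intro x
    exact affineIndependent_iff.1 hind Finset.univ g h1.2 h1.1 x (Finset.mem_univ x)
  rw [hcard]
  exact hli.fintype_card_le_finrank

theorem card_le_of_small [FiniteDimensional ℝ E] (hC : IsPolytope C)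
    (hP : ∀ x ∈ C, (∀ i, 0 ≤ P x i) ∧ ∑ i, P x i = 1)
    (hW : ∀ η ∈ Omega C, ∀ i, 0 ≤ W η i ∧ W η i ≤ 1)
    (hPW : ∀ x : C, ∀ η ∈ Omega C, η x = ∑ i, P x i * W η i)
    (hN : N ≤ Module.finrank ℝ (vectorSpan ℝ C) + 2) : (C.extremePoints ℝ).ncard ≤ N := by
  obtain ⟨m, c, hcinj, hc, hm⟩ : ∃ (m : ℕ) (c : Fin m → E), Function.Injective c ∧
      Set.range c = C.extremePoints ℝ ∧ m = (C.extremePoints ℝ).ncard := by
    obtain ⟨c, h1, hc, _⟩ := exists_enum hC
    exact ⟨_, c, h1, hc, rfl⟩
  have hcC : ∀ j, c j ∈ C := fun j => by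
    have : c j ∈ C.extremePoints ℝ := by rw [← hc]; exact ⟨j, rfl⟩
    exact this.1
  by_cases hs : LinearMap.range (Psi P c) = ⊤
  · exact card_le_of_surj hC hP hW hPW hcC hc hs
  · rw [← hm]
    have h1 : Module.finrank ℝ (LinearMap.range (Psi P c)) < N := by
      have := Submodule.finrank_lt (s := LinearMap.range (Psi P c)) hs
      rwa [Module.finrank_fin_fun] at this
    have h2 := rank_Phi hC hc
    have h3 := LinearMap.finrank_range_add_finrank_ker (Phi c)
    have h4 := LinearMap.finrank_range_add_finrank_ker (Psi P c)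
    have hle : LinearMap.ker (Psi P c) ≤ LinearMap.ker (Phi c) := by
      intro g hg
      rw [LinearMap.mem_ker] at hg ⊢
      rw [Phi_eq_zero]
      apply rel_down hC hP hW hPW hcC
      intro i
      rw [← Psi_apply, hg]
      rfl
    have heq := Submodule.eq_of_le_of_finrank_le hle (by omega)
    refine card_le_of_inj hC hP hW hPW hcinj hc fun g hg1 hg2 i => ?_
    have h5 : g ∈ LinearMap.ker (Phi c) := by
      rw [LinearMap.mem_ker, Phi_eq_zero]
      exact ⟨hg1, hg2⟩
    rw [← heq, LinearMap.mem_ker] at h5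
    rw [← Psi_apply, h5]
    rfl

theorem factorRank_dichotomy [FiniteDimensional ℝ E] (hC : IsPolytope C) :
    factorRank C = (C.extremePoints ℝ).ncard ∨
      Module.finrank ℝ (vectorSpan ℝ C) + 3 ≤ factorRank C := by
  by_cases h : factorRank C ≤ Module.finrank ℝ (vectorSpan ℝ C) + 2
  · left
    obtain ⟨P, W, hP, hW, hPW⟩ := full_factor hC
    exact le_antisymm (factorRank_le hC) (card_le_of_small hC hP hW hPW h)
  · right
    omega

theorem factorRank_eq_of_ncard_le [FiniteDimensional ℝ E] (hC : IsPolytope C)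
    (h : (C.extremePoints ℝ).ncard ≤ Module.finrank ℝ (vectorSpan ℝ C) + 3) :
    factorRank C = (C.extremePoints ℝ).ncard := by
  rcases factorRank_dichotomy hC with h1 | h1
  · exact h1
  · exact le_antisymm (factorRank_le hC) (h.trans h1)

end Pool.Agent.KS6_80.LD
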