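import Pool.Agent.KS6_80.LD.Main

/-!
# The dual form of the criterion

Helper file for MP_ff4a33_gt.
-/

set_option autoImplicit false

open Finset

namespace Pool.Agent.KS6_80.LD

open Pool.Agent.X156.SR

/-- The extreme points `x` of `C` can be assigned probability vectors `P x` with `N` entries such
that no signed measure on the extreme points is better detected by a form on `C` than by a test on
the `N` outcomes: `∑ t x * η x ≤ ∑ i, max (∑ x, t x * P x i) 0`. -/
def Dominated {E : Type*} [AddCommGroup E] [Module ℝ E] (C : Set E) (N : ℕ) : Prop :=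
  ∃ P : E → Fin N → ℝ,
    (∀ x ∈ C.extremePoints ℝ, (∀ i, 0 ≤ P x i) ∧ ∑ i, P x i = 1) ∧
    ∀ (A : Finset C) (t : C → ℝ), (∀ x ∈ A, (x : E) ∈ C.extremePoints ℝ) → ∀ η ∈ Omega C,
      ∑ x ∈ A, t x * η x ≤ ∑ i, max (∑ x ∈ A, t x * P x i) 0

theorem dominated_of_factors {E : Type*} [AddCommGroup E] [Module ℝ E] {C : Set E} {N : ℕ}
    (h : Factors C N) : Dominated C N := by
  obtain ⟨P, W, hP, hW, hPW⟩ := h
  refine ⟨P, hP, fun A t hA η hη => ?_⟩
  obtain ⟨w, hw, hx⟩ := all_of_extreme hW hPW η hη
  calc ∑ x ∈ A, t x * η x = ∑ x ∈ A, ∑ i, t x * P x i * w i := by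
        refine Finset.sum_congr rfl fun x hxA => ?_
        rw [hx x (hA x hxA), Finset.mul_sum]
        exact Finset.sum_congr rfl fun i _ => by ring
    _ = ∑ i, (∑ x ∈ A, t x * P x i) * w i := by
        rw [Finset.sum_comm]
        exact Finset.sum_congr rfl fun i _ => by rw [Finset.sum_mul]
    _ ≤ ∑ i, max (∑ x ∈ A, t x * P x i) 0 := by
        refine Finset.sum_le_sum fun i _ => ?_
        rcases le_total 0 (∑ x ∈ A, t x * P x i) with h | h
        · rw [max_eq_left h]
          exact mul_le_of_le_one_right h (hw i).2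
        · rw [max_eq_right h]
          exact mul_nonpos_of_nonpos_of_nonneg h (hw i).1

theorem factors_of_dominated {E : Type*} [NormedAddCommGroup E] [NormedSpace ℝ E] {C : Set E}
    (hC : IsPolytope C) {N : ℕ} (h : Dominated C N) : Factors C N := by
  classical
  obtain ⟨P, hP, hD⟩ := h
  have hfin : {x : C | (x : E) ∈ C.extremePoints ℝ}.Finite :=
    hC.2.2.2.preimage Subtype.val_injective.injOn
  let A : Finset C := hfin.toFinset
  have hA : ∀ x, x ∈ A ↔ (x : E) ∈ C.extremePoints ℝ := fun x => by
    simp only [A, Set.Finite.mem_toFinset, Set.mem_ofPred_eq]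
  let L : (Fin N → ℝ) → (A → ℝ) := fun w x => ∑ i, P x.1 i * w i
  have hL : Continuous L := by
    refine continuous_pi fun x => ?_
    exact continuous_finsetSum _ fun i _ => continuous_const.mul (continuous_apply i)
  let K : Set (Fin N → ℝ) := Set.pi Set.univ (fun _ => Set.Icc (0 : ℝ) 1)
  have hK : IsCompact K := isCompact_univ_pi fun _ => isCompact_Icc
  have hKc : Convex ℝ K := convex_pi fun _ _ => convex_Icc 0 1
  have hLKc : Convex ℝ (L '' K) := by
    rintro _ ⟨w, hw, rfl⟩ _ ⟨w', hw', rfl⟩ a b ha hb hab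
    refine ⟨a • w + b • w', hKc hw hw' ha hb hab, ?_⟩
    funext x
    simp only [L, Pi.add_apply, Pi.smul_apply, smul_eq_mul]
    rw [Finset.mul_sum, Finset.mul_sum, ← Finset.sum_add_distrib]
    exact Finset.sum_congr rfl fun i _ => by ring
  have key : ∀ η ∈ Omega C, ∃ w : Fin N → ℝ, (∀ i, 0 ≤ w i ∧ w i ≤ 1) ∧
      ∀ x : C, (x : E) ∈ C.extremePoints ℝ → η x = ∑ i, P x i * w i := by
    intro η hη
    have hmem : (fun x : A => η x.1) ∈ L '' K := by
      by_contra hnot
      obtain ⟨f, u, hf1, hf2⟩ := geometric_hahn_banach_closed_point hLKc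
        (hK.image hL).isClosed hnot
      let τ : A → ℝ := fun x => f (fun y => if x = y then 1 else 0)
      have hfτ : ∀ y : A → ℝ, f y = ∑ x, τ x * y x := by
        intro y
        have h1 := LinearMap.pi_apply_eq_sum_univ (f : (A → ℝ) →ₗ[ℝ] ℝ) y
        change f y = _ at h1
        rw [h1]
        refine Finset.sum_congr rfl fun x _ => ?_
        rw [smul_eq_mul, mul_comm]
        rfl
      let t : C → ℝ := fun x => if h : x ∈ A then τ ⟨x, h⟩ else 0
      have ht : ∀ g : C → ℝ, ∑ x ∈ A, t x * g x = ∑ x : A, τ x * g x.1 := by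
        intro g
        rw [← Finset.sum_coe_sort A (fun x => t x * g x)]
        refine Finset.sum_congr rfl fun x _ => ?_
        simp only [t]
        rw [dif_pos x.2]
      let w : Fin N → ℝ := fun i => if 0 ≤ ∑ x ∈ A, t x * P x i then 1 else 0
      have hwK : w ∈ K := by
        intro i _
        simp only [w]
        split_ifs
        · exact ⟨zero_le_one, le_refl _⟩
        · exact ⟨le_refl _, zero_le_one⟩
      have h1 := hf1 (L w) ⟨w, hwK, rfl⟩
      have h2 := hD A t (fun x hx => (hA x).1 hx) η hη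
      have h3 : f (L w) = ∑ i, max (∑ x ∈ A, t x * P x i) 0 := by
        rw [hfτ]
        calc ∑ x : A, τ x * L w x = ∑ x : A, ∑ i, τ x * P x.1 i * w i := by
              refine Finset.sum_congr rfl fun x _ => ?_
              simp only [L]
              rw [Finset.mul_sum]
              exact Finset.sum_congr rfl fun i _ => by ring
          _ = ∑ i, (∑ x ∈ A, t x * P x i) * w i := by
              rw [Finset.sum_comm]
              refine Finset.sum_congr rfl fun i _ => ?_
              rw [ht (fun x => P x i), Finset.sum_mul]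
          _ = _ := by
              refine Finset.sum_congr rfl fun i _ => ?_
              simp only [w]
              split_ifs with h
              · rw [mul_one, max_eq_left h]
              · rw [mul_zero, max_eq_right (le_of_not_ge h)]
      have h4 : f (fun x : A => η x.1) = ∑ x ∈ A, t x * η x := by
        rw [hfτ, ht η]
      linarith
    obtain ⟨w, hw, hwe⟩ := hmem
    refine ⟨w, fun i => hw i (Set.mem_univ i), fun x hx => ?_⟩
    exact (congrFun hwe ⟨x, (hA x).2 hx⟩).symm
  have hex : ∀ η : C → ℝ, ∃ w : Fin N → ℝ, η ∈ Omega C → (∀ i, 0 ≤ w i ∧ w i ≤ 1) ∧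
      ∀ x : C, (x : E) ∈ C.extremePoints ℝ → η x = ∑ i, P x i * w i := by
    intro η
    by_cases hη : η ∈ Omega C
    · obtain ⟨w, hw⟩ := key η hη
      exact ⟨w, fun _ => hw⟩
    · exact ⟨0, fun h => absurd h hη⟩
  choose W hW using hex
  exact ⟨P, W, hP, fun η hη => (hW η hη.1).1, fun x hx η hη => (hW η hη.1).2 x hx⟩

end Pool.Agent.KS6_80.LD
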