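import Pool.Graph.R_pool_sql_team_seeded_64922ed1.X156.SR.Proj

/-!
# Simplicial refinements and matrix factorizations

Helper file for MP_ff4a33_gt.  A simplicial refinement by a simplex with `N` vertices exists exactly
when the matrix of the values of the extreme forms at the extreme points is the product of a
row-stochastic matrix with `N` columns and a matrix with entries in `[0,1]`.
-/

set_option autoImplicit false

open Finset

namespace Pool.Agent.KS6_80.LD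

open Pool.Agent.X156.SR

/-- The matrix of the values `η x` of the extreme points `η` of the convex-form space of `C` at the
extreme points `x` of `C` is the product of a row-stochastic matrix with `N` columns and a matrix
with `N` rows and entries in `[0,1]`. -/
def Factors {E : Type*} [AddCommGroup E] [Module ℝ E] (C : Set E) (N : ℕ) : Prop :=
  ∃ (P : E → Fin N → ℝ) (W : (C → ℝ) → Fin N → ℝ),
    (∀ x ∈ C.extremePoints ℝ, (∀ i, 0 ≤ P x i) ∧ ∑ i, P x i = 1) ∧
    (∀ η ∈ (Omega C).extremePoints ℝ, ∀ i, 0 ≤ W η i ∧ W η i ≤ 1) ∧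
    ∀ x : C, (x : E) ∈ C.extremePoints ℝ → ∀ η ∈ (Omega C).extremePoints ℝ,
      η x = ∑ i, P x i * W η i

section Forward

variable {E : Type*} [AddCommGroup E] [Module ℝ E]
variable {F : Type*} [AddCommGroup F] [Module ℝ F]

/-- A refinement gives a factorization, at all points and for all forms. -/
theorem factor_of_refinement {C : Set E} {T : Set F} {n : ℕ} {v : Fin (n + 1) → F}
    (hT : T = convexHull ℝ (Set.range v)) {f : F →. E} {g : (T → ℝ) →. (C → ℝ)}
    (h : IsRefinement C T f g) :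
    ∃ (P : E → Fin (n + 1) → ℝ) (W : (C → ℝ) → Fin (n + 1) → ℝ),
      (∀ x ∈ C, (∀ i, 0 ≤ P x i) ∧ ∑ i, P x i = 1) ∧
      (∀ η ∈ Omega C, ∀ i, 0 ≤ W η i ∧ W η i ≤ 1) ∧
      ∀ x : C, ∀ η ∈ Omega C, η x = ∑ i, P x i * W η i := by
  classical
  have hTc : Convex ℝ T := by rw [hT]; exact convex_convexHull ℝ _
  have hvT : ∀ i, v i ∈ T := fun i => by rw [hT]; exact subset_convexHull ℝ _ ⟨i, rfl⟩
  have hex : ∀ x : E, ∃ (a : F) (w : Fin (n + 1) → ℝ), x ∈ C → (x ∈ f a ∧ (∀ i, 0 ≤ w i) ∧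
      ∑ i, w i = 1 ∧ ∑ i, w i • v i = a) := by
    intro x
    by_cases hx : x ∈ C
    · obtain ⟨a, ha⟩ := h.f_map.2.2 x hx
      have haT := (h.f_map.1 a x ha).1
      rw [hT] at haT
      obtain ⟨w, hw⟩ := mem_convexHull_range haT
      exact ⟨a, w, fun _ => ⟨ha, hw⟩⟩
    · exact ⟨0, 0, fun h => absurd h hx⟩
  choose a w hw using hex
  have hex2 : ∀ η : C → ℝ, ∃ ω : T → ℝ, η ∈ Omega C → η ∈ g ω := by
    intro η
    by_cases hη : η ∈ Omega C
    · obtain ⟨ω, hω⟩ := h.g_map.2.2 η hη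
      exact ⟨ω, fun _ => hω⟩
    · exact ⟨0, fun h => absurd h hη⟩
  choose ω hω using hex2
  refine ⟨w, fun η i => ext0 (ω η) (v i), fun x hx => ⟨(hw x hx).2.1, (hw x hx).2.2.1⟩, ?_, ?_⟩
  · intro η hη i
    have hωT := (h.g_map.1 _ η (hω η hη)).1
    have := hωT.1 ⟨v i, hvT i⟩
    rw [← ext0_eq (ω η)] at this
    exact this
  · intro x η hη
    have hωT := (h.g_map.1 _ η (hω η hη)).1
    obtain ⟨h1, h2, h3, h4⟩ := hw x x.2
    have haT := (h.f_map.1 _ _ h1).1
    have h5 := h.dual ⟨a x, haT⟩ x (ω η) η h1 (hω η hη)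
    rw [h5, ← ext0_eq (ω η)]
    change ext0 (ω η) (a x) = _
    rw [← ext0_sum hTc hωT (w x) v h2 h3 hvT, h4]

theorem factors_of_refinement {C : Set E} {T : Set F} {f : F →. E}
    {g : (T → ℝ) →. (C → ℝ)} (h : IsRefinement C T f g) :
    Factors C (Module.finrank ℝ (vectorSpan ℝ T) + 1) := by
  obtain ⟨n, v, hv, hT⟩ := h.simplex
  have e : Module.finrank ℝ (vectorSpan ℝ T) = n := by rw [hT]; exact finrank_of_isSimplex hv
  rw [e]
  obtain ⟨P, W, h1, h2, h3⟩ := factor_of_refinement hT h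
  exact ⟨P, W, fun x hx => h1 x hx.1, fun η hη => h2 η hη.1,
    fun x _ η hη => h3 x η hη.1⟩

end Forward

section Topology

variable {E : Type*} [AddCommGroup E] [Module ℝ E]

theorem convex_Omega (C : Set E) : Convex ℝ (Omega C) := by
  intro ω hω ω' hω' a b ha hb hab
  obtain rfl : b = 1 - a := by linarith
  exact Omega_comb hω hω' ha (by linarith)

theorem isClosed_Omega (C : Set E) : IsClosed (Omega C) := by
  have e : Omega C = (⋂ a : C, {ω : C → ℝ | 0 ≤ ω a}) ∩ (⋂ a : C, {ω : C → ℝ | ω a ≤ 1}) ∩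
      ⋂ (a : C) (b : C) (c : C) (t : ℝ) (_ : 0 ≤ t) (_ : t ≤ 1)
        (_ : (c : E) = t • (a : E) + (1 - t) • (b : E)),
        {ω : C → ℝ | ω c = t * ω a + (1 - t) * ω b} := by
    ext ω
    simp only [Omega, Set.mem_ofPred_eq, Set.mem_inter_iff, Set.mem_iInter]
    constructor
    · rintro ⟨h1, h2⟩
      exact ⟨⟨fun a => (h1 a).1, fun a => (h1 a).2⟩, h2⟩
    · rintro ⟨⟨h1, h1'⟩, h2⟩
      exact ⟨fun a => ⟨h1 a, h1' a⟩, h2⟩
  rw [e]
  refine (IsClosed.inter ?_ ?_).inter ?_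
  · exact isClosed_iInter fun a => isClosed_le continuous_const (continuous_apply a)
  · exact isClosed_iInter fun a => isClosed_le (continuous_apply a) continuous_const
  · refine isClosed_iInter fun a => isClosed_iInter fun b => isClosed_iInter fun c =>
      isClosed_iInter fun t => isClosed_iInter fun _ => isClosed_iInter fun _ =>
      isClosed_iInter fun _ => isClosed_eq (continuous_apply c) ?_
    exact (continuous_const.mul (continuous_apply a)).add
      (continuous_const.mul (continuous_apply b))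

theorem isCompact_Omega (C : Set E) : IsCompact (Omega C) := by
  refine IsCompact.of_isClosed_subset
    (isCompact_univ_pi (fun _ : C => isCompact_Icc (a := (0 : ℝ)) (b := 1))) (isClosed_Omega C) ?_
  intro ω hω a _
  exact ⟨(hω.1 a).1, (hω.1 a).2⟩

theorem Omega_eq_closure (C : Set E) :
    closure (convexHull ℝ ((Omega C).extremePoints ℝ)) = Omega C :=
  closure_convexHull_extremePoints (isCompact_Omega C) (convex_Omega C)

/-- From the extreme forms to all forms. -/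
theorem all_of_extreme {C : Set E} {N : ℕ} {P : E → Fin N → ℝ} {W : (C → ℝ) → Fin N → ℝ}
    (hW : ∀ η ∈ (Omega C).extremePoints ℝ, ∀ i, 0 ≤ W η i ∧ W η i ≤ 1)
    (hPW : ∀ x : C, (x : E) ∈ C.extremePoints ℝ → ∀ η ∈ (Omega C).extremePoints ℝ,
      η x = ∑ i, P x i * W η i) :
    ∀ η ∈ Omega C, ∃ w : Fin N → ℝ, (∀ i, 0 ≤ w i ∧ w i ≤ 1) ∧
      ∀ x : C, (x : E) ∈ C.extremePoints ℝ → η x = ∑ i, P x i * w i := by
  let X' := {x : C // (x : E) ∈ C.extremePoints ℝ}
  let L : (Fin N → ℝ) → (X' → ℝ) := fun w x => ∑ i, P x.1 i * w i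
  have hL : Continuous L := by
    refine continuous_pi fun x => ?_
    exact continuous_finsetSum _ fun i _ => continuous_const.mul (continuous_apply i)
  let K : Set (Fin N → ℝ) := Set.pi Set.univ (fun _ => Set.Icc (0 : ℝ) 1)
  have hK : IsCompact K := isCompact_univ_pi fun _ => isCompact_Icc
  have hKc : Convex ℝ K := convex_pi fun _ _ => convex_Icc 0 1
  let ρ : (C → ℝ) → (X' → ℝ) := fun η x => η x.1
  have hρ : Continuous ρ := continuous_pi fun x => continuous_apply x.1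
  have hcl : IsClosed (ρ ⁻¹' (L '' K)) := (hK.image hL).isClosed.preimage hρ
  have hcv : Convex ℝ (ρ ⁻¹' (L '' K)) := by
    intro η hη η' hη' a b ha hb hab
    obtain ⟨w, hw, e⟩ := hη
    obtain ⟨w', hw', e'⟩ := hη'
    refine ⟨a • w + b • w', hKc hw hw' ha hb hab, ?_⟩
    funext x
    have e1 := congrFun e x
    have e2 := congrFun e' x
    simp only [L, ρ] at e1 e2 ⊢
    simp only [Pi.add_apply, Pi.smul_apply, smul_eq_mul]
    rw [← e1, ← e2, Finset.mul_sum, Finset.mul_sum, ← Finset.sum_add_distrib]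
    exact Finset.sum_congr rfl fun i _ => by ring
  have hsub : (Omega C).extremePoints ℝ ⊆ ρ ⁻¹' (L '' K) := by
    intro η hη
    refine ⟨W η, fun i _ => hW η hη i, ?_⟩
    funext x
    exact (hPW x.1 x.2 η hη).symm
  have hall : Omega C ⊆ ρ ⁻¹' (L '' K) := by
    rw [← Omega_eq_closure C]
    exact closure_minimal (convexHull_min hsub hcv) hcl
  intro η hη
  obtain ⟨w, hw, e⟩ := hall hη
  refine ⟨w, fun i => hw i (Set.mem_univ i), fun x hx => ?_⟩
  exact (congrFun e ⟨x, hx⟩).symm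

end Topology

section Backward

variable {E : Type*} [NormedAddCommGroup E] [NormedSpace ℝ E]

/-- The normalized form of a functional. -/
theorem exists_norm_form {C : Set E} (hcomp : IsCompact C) (φ : E →L[ℝ] ℝ) {x y : E}
    (hx : x ∈ C) (hy : y ∈ C) (hxy : φ x ≠ φ y) :
    ∃ (M m : ℝ), 0 < M - m ∧ (fun c : C => (φ c - m) / (M - m)) ∈ Omega C := by
  obtain ⟨u, hu, hmax⟩ := hcomp.exists_isMaxOn ⟨x, hx⟩ φ.continuous.continuousOn
  obtain ⟨l, hl, hmin⟩ := hcomp.exists_isMinOn ⟨x, hx⟩ φ.continuous.continuousOn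
  have h1 : ∀ c ∈ C, φ c ≤ φ u := fun c hc => hmax hc
  have h2 : ∀ c ∈ C, φ l ≤ φ c := fun c hc => hmin hc
  have hd : 0 < φ u - φ l := by
    rcases lt_or_gt_of_ne hxy with h | h
    · have := h1 y hy; have := h2 x hx; linarith
    · have := h1 x hx; have := h2 y hy; linarith
  refine ⟨φ u, φ l, hd, fun a => ⟨?_, ?_⟩, ?_⟩
  · exact div_nonneg (by linarith [h2 a a.2]) hd.le
  · rw [div_le_one hd]; linarith [h1 a a.2]
  · intro a b c t _ _ hc
    dsimp only
    rw [hc, map_add, map_smul, map_smul, smul_eq_mul, smul_eq_mul]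
    field_simp
    ring

theorem eq_of_forms {C : Set E} (hcomp : IsCompact C) {x y : C}
    (h : ∀ η ∈ Omega C, η x = η y) : x = y := by
  by_contra hne
  have hne' : (x : E) ≠ y := fun e => hne (Subtype.ext e)
  obtain ⟨φ, hφ⟩ := SeparatingDual.exists_separating_of_ne (R := ℝ) hne'
  obtain ⟨M, m, hd, hη⟩ := exists_norm_form hcomp φ x.2 y.2 hφ
  have h1 : (φ x - m) / (M - m) = (φ y - m) / (M - m) := h _ hη
  have h2 : M - m ≠ 0 := hd.ne'
  rw [div_left_inj' h2] at h1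
  exact hφ (by linarith)

/-- The partial map defined by the factorization. -/
noncomputable def fm {m N : ℕ} (c : Fin m → E) (p : Fin m → Fin N → ℝ) : (Fin N → ℝ) →. E :=
  fun a => ⟨∃ t ∈ stdSimplex ℝ (Fin m), a = ∑ j, t j • p j, fun h => ∑ j, h.choose j • c j⟩

theorem mem_fm {m N : ℕ} {c : Fin m → E} {p : Fin m → Fin N → ℝ}
    (hu : ∀ t ∈ stdSimplex ℝ (Fin m), ∀ s ∈ stdSimplex ℝ (Fin m),
      ∑ j, t j • p j = ∑ j, s j • p j → ∑ j, t j • c j = ∑ j, s j • c j)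
    {a : Fin N → ℝ} {x : E} :
    x ∈ fm c p a ↔ ∃ t ∈ stdSimplex ℝ (Fin m), a = ∑ j, t j • p j ∧ x = ∑ j, t j • c j := by
  constructor
  · rintro ⟨h, rfl⟩
    exact ⟨h.choose, h.choose_spec.1, h.choose_spec.2, rfl⟩
  · rintro ⟨t, ht, ha, rfl⟩
    have hex : ∃ t ∈ stdSimplex ℝ (Fin m), a = ∑ j, t j • p j := ⟨t, ht, ha⟩
    refine ⟨hex, ?_⟩
    change ∑ j, hex.choose j • c j = _
    exact hu _ hex.choose_spec.1 _ ht (hex.choose_spec.2.symm.trans ha)

theorem stdSimplex_sum {m N : ℕ} {p : Fin m → Fin N → ℝ} (hp : ∀ j, p j ∈ stdSimplex ℝ (Fin N))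
    {t : Fin m → ℝ} (ht : t ∈ stdSimplex ℝ (Fin m)) :
    ∑ j, t j • p j ∈ stdSimplex ℝ (Fin N) :=
  (convex_stdSimplex ℝ (Fin N)).sum_mem (fun j _ => ht.1 j) ht.2 fun j _ => hp j

theorem form_sum {C : Set E} (hconv : Convex ℝ C) {η : C → ℝ} (hη : η ∈ Omega C) {m : ℕ}
    {c : Fin m → E} (hc : ∀ j, c j ∈ C) {t : Fin m → ℝ} (ht : t ∈ stdSimplex ℝ (Fin m))
    (x : C) (hx : (x : E) = ∑ j, t j • c j) : η x = ∑ j, t j * η ⟨c j, hc j⟩ := by
  have h1 := ext0_sum hconv hη t c ht.1 ht.2 hc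
  rw [← hx, ext0_eq η x] at h1
  rw [h1]
  refine Finset.sum_congr rfl fun j _ => ?_
  rw [show ext0 η (c j) = η ⟨c j, hc j⟩ from ext0_eq η ⟨c j, hc j⟩]

/-- A factorization gives a refinement. -/
theorem refinement_of_factors {C : Set E} (hC : IsPolytope C) {N : ℕ} (h : Factors C N) :
    0 < N ∧ ∃ (f : (Fin N → ℝ) →. E) (g : (stdSimplex ℝ (Fin N) → ℝ) →. (C → ℝ)),
      IsRefinement C (stdSimplex ℝ (Fin N)) f g := by
  obtain ⟨P, W, hP, hW, hPW⟩ := h
  have hall := all_of_extreme hW hPW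
  obtain ⟨m, c, hc, hm⟩ : ∃ (m : ℕ) (c : Fin m → E), Set.range c = C.extremePoints ℝ ∧ 0 < m := by
    obtain ⟨c, _, hc, hm⟩ := exists_enum hC
    exact ⟨_, c, hc, hm⟩
  have hcX : ∀ j, c j ∈ C.extremePoints ℝ := fun j => by rw [← hc]; exact ⟨j, rfl⟩
  have hcC : ∀ j, c j ∈ C := fun j => (hcX j).1
  let p : Fin m → Fin N → ℝ := fun j => P (c j)
  have hp : ∀ j, p j ∈ stdSimplex ℝ (Fin N) := fun j => ⟨(hP _ (hcX j)).1, (hP _ (hcX j)).2⟩
  have hN : 0 < N := by
    rcases Nat.eq_zero_or_pos N with h0 | h0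
    · exfalso
      subst h0
      have := (hp ⟨0, hm⟩).2
      simp at this
    · exact h0
  have hcomp := hC.2.1
  have hconv := hC.2.2.1
  have hmemC : ∀ t ∈ stdSimplex ℝ (Fin m), ∑ j, t j • c j ∈ C := fun t ht =>
    hconv.sum_mem (fun j _ => ht.1 j) ht.2 fun j _ => hcC j
  have hval : ∀ η ∈ Omega C, ∃ w : Fin N → ℝ, (∀ i, 0 ≤ w i ∧ w i ≤ 1) ∧
      ∀ t (ht : t ∈ stdSimplex ℝ (Fin m)), η ⟨_, hmemC t ht⟩ = ∑ i, (∑ j, t j • p j) i * w i := by
    intro η hη
    obtain ⟨w, hw, hx⟩ := hall η hη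
    refine ⟨w, hw, fun t ht => ?_⟩
    rw [form_sum hconv hη hcC ht ⟨_, hmemC t ht⟩ rfl]
    have e1 : ∀ j, η ⟨c j, hcC j⟩ = ∑ i, p j i * w i := fun j => hx ⟨c j, hcC j⟩ (hcX j)
    simp only [e1, Finset.sum_apply, Pi.smul_apply, smul_eq_mul, Finset.mul_sum, Finset.sum_mul]
    rw [Finset.sum_comm]
    exact Finset.sum_congr rfl fun i _ => Finset.sum_congr rfl fun j _ => by ring
  have hu : ∀ t ∈ stdSimplex ℝ (Fin m), ∀ s ∈ stdSimplex ℝ (Fin m),
      ∑ j, t j • p j = ∑ j, s j • p j → ∑ j, t j • c j = ∑ j, s j • c j := by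
    intro t ht s hs e
    have h1 : (⟨_, hmemC t ht⟩ : C) = ⟨_, hmemC s hs⟩ := by
      apply eq_of_forms hcomp
      intro η hη
      obtain ⟨w, _, hw⟩ := hval η hη
      rw [hw t ht, hw s hs, e]
    exact congrArg Subtype.val h1
  have : Nonempty (Fin N) := ⟨⟨0, hN⟩⟩
  have hpart : IsPartialOntoAffine (stdSimplex ℝ (Fin N)) C (fm c p) := by
    refine ⟨fun a x h => ?_, fun a b x y hx hy r h0 h1 => ?_, fun x hx => ?_⟩
    · obtain ⟨t, ht, rfl, rfl⟩ := (mem_fm hu).1 h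
      exact ⟨stdSimplex_sum hp ht, hmemC t ht⟩
    · obtain ⟨t, ht, rfl, rfl⟩ := (mem_fm hu).1 hx
      obtain ⟨s, hs, rfl, rfl⟩ := (mem_fm hu).1 hy
      refine (mem_fm hu).2 ⟨r • t + (1 - r) • s,
        convex_stdSimplex ℝ _ ht hs h0 (by linarith) (by ring), ?_, ?_⟩
      · rw [Finset.smul_sum, Finset.smul_sum, ← Finset.sum_add_distrib]
        refine Finset.sum_congr rfl fun i _ => ?_
        simp only [Pi.add_apply, Pi.smul_apply, smul_eq_mul, add_smul, mul_smul]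
      · rw [Finset.smul_sum, Finset.smul_sum, ← Finset.sum_add_distrib]
        refine Finset.sum_congr rfl fun i _ => ?_
        simp only [Pi.add_apply, Pi.smul_apply, smul_eq_mul, add_smul, mul_smul]
    · rw [eq_convexHull hC, ← hc] at hx
      obtain ⟨w, hw0, hw1, hw⟩ := mem_convexHull_range hx
      exact ⟨∑ j, w j • p j, (mem_fm hu).2 ⟨w, ⟨hw0, hw1⟩, rfl, hw.symm⟩⟩
  refine ⟨hN, fm c p, pull C (stdSimplex ℝ (Fin N)) (fm c p),
    isRefinement_pull (isSimplex_stdSimplex _) hpart fun η hη => ?_⟩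
  obtain ⟨w, hw, hv⟩ := hval η hη
  refine ⟨fun a => ∑ i, a.1 i * w i, ⟨fun a => ⟨?_, ?_⟩, ?_⟩, ?_⟩
  · exact Finset.sum_nonneg fun i _ => mul_nonneg (a.2.1 i) (hw i).1
  · calc ∑ i, a.1 i * w i ≤ ∑ i, a.1 i :=
          Finset.sum_le_sum fun i _ => mul_le_of_le_one_right (a.2.1 i) (hw i).2
      _ = 1 := a.2.2
  · intro a b x t _ _ hx
    have hx : x.1 = t • a.1 + (1 - t) • b.1 := hx
    dsimp only
    rw [hx, Finset.mul_sum, Finset.mul_sum, ← Finset.sum_add_distrib]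
    refine Finset.sum_congr rfl fun i _ => ?_
    simp only [Pi.add_apply, Pi.smul_apply, smul_eq_mul]
    ring
  · intro a x hx
    obtain ⟨t, ht, ha, hxt⟩ := (mem_fm hu).1 hx
    have e1 : x = ⟨_, hmemC t ht⟩ := Subtype.ext hxt
    rw [e1, hv t ht]
    dsimp only
    rw [ha]

end Backward

end Pool.Agent.KS6_80.LD
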