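import Pool.Agent.KS6_80.LD.Cod

/-!
# Refinements with at most `dim C + 3` vertices

Helper file for MP_ff4a33_gt.
-/

set_option autoImplicit false

open Finset

namespace Pool.Agent.KS6_80.LD

open Pool.Agent.X156.SR

variable {E : Type*} [NormedAddCommGroup E] [NormedSpace ℝ E]
variable {C : Set E} {N : ℕ} {P : E → Fin N → ℝ} {W : (C → ℝ) → Fin N → ℝ} {m : ℕ} {c : Fin m → E}

/-- If the probability vectors span the hyperplane `lam` and the kernel of the projection is spanned
by `κ`, then `κ` is concentrated on any two coordinates on the same side of the hyperplane. -/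
theorem star (hC : IsPolytope C)
    (hP : ∀ x ∈ C, (∀ i, 0 ≤ P x i) ∧ ∑ i, P x i = 1)
    (hW : ∀ η ∈ Omega C, ∀ i, 0 ≤ W η i ∧ W η i ≤ 1)
    (hPW : ∀ x : C, ∀ η ∈ Omega C, η x = ∑ i, P x i * W η i)
    (hc : Set.range c = C.extremePoints ℝ) {lam κ : Fin N → ℝ}
    (hV : ∀ t : Fin N → ℝ, ∑ k, lam k * t k = 0 → ∃ τ : Fin m → ℝ, ∀ k,
      ∑ j, τ j * P (c j) k = t k)
    (hlam : ∀ j, ∑ k, lam k * P (c j) k = 0)
    (hker : ∀ g : Fin m → ℝ, ∑ j, g j = 0 → ∑ j, g j • c j = 0 → ∃ s : ℝ, ∀ k,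
      ∑ j, g j * P (c j) k = s * κ k)
    {i i' : Fin N} (hii : i ≠ i') (hpos : 0 < lam i * lam i') :
    ∑ k, |κ k| ≤ |κ i| + |κ i'| + |κ i - κ i'| := by
  classical
  have hcC : ∀ j, c j ∈ C := fun j => by
    have : c j ∈ C.extremePoints ℝ := by rw [← hc]; exact ⟨j, rfl⟩
    exact this.1
  have hli : lam i ≠ 0 := by rintro h; rw [h, zero_mul] at hpos; exact lt_irrefl _ hpos
  have hli' : lam i' ≠ 0 := by rintro h; rw [h, mul_zero] at hpos; exact lt_irrefl _ hpos
  obtain ⟨μ, hμ⟩ : ∃ μ, μ = |lam i'| := ⟨_, rfl⟩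
  obtain ⟨μ', hμ'⟩ : ∃ μ', μ' = |lam i| := ⟨_, rfl⟩
  have hμ0 : 0 < μ := by rw [hμ]; exact abs_pos.2 hli'
  have hμ0' : 0 < μ' := by rw [hμ']; exact abs_pos.2 hli
  have hbal : lam i * μ = lam i' * μ' := by
    rw [hμ, hμ']
    rcases lt_or_gt_of_ne hli with h | h
    · have h' : lam i' < 0 := by
        by_contra hn
        have : 0 < lam i' := lt_of_le_of_ne (not_lt.1 hn) (Ne.symm hli')
        nlinarith
      rw [abs_of_neg h, abs_of_neg h']; ring
    · have h' : 0 < lam i' := by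
        by_contra hn
        have : lam i' < 0 := lt_of_le_of_ne (not_lt.1 hn) hli'
        nlinarith
      rw [abs_of_pos h, abs_of_pos h']; ring
  let t : Fin N → ℝ := fun k => (if k = i then μ else 0) - if k = i' then μ' else 0
  have ht : ∑ k, lam k * t k = 0 := by
    simp only [t, mul_sub, mul_ite, mul_zero, Finset.sum_sub_distrib, Finset.sum_ite_eq',
      Finset.mem_univ, if_true]
    linarith
  have hti : t i = μ := by simp [t, hii]
  have hti' : t i' = -μ' := by simp [t, hii.symm]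
  have hto : ∀ k, k ≠ i → k ≠ i' → t k = 0 := fun k h1 h2 => by simp [t, h1, h2]
  have hsumt' : ∑ k, t k = μ - μ' := by
    simp only [t, Finset.sum_sub_distrib, Finset.sum_ite_eq', Finset.mem_univ, if_true]
  clear_value t
  obtain ⟨τ, hτ⟩ := hV t ht
  obtain ⟨a, ha, b, hb, hab⟩ := decomp hC hP hW hPW hcC τ
  simp only [hτ] at hab
  have hcp : ∑ k, max (t k) 0 = μ := by
    have e : ∀ k ∈ (Finset.univ : Finset (Fin N)), max (t k) 0 = if k = i then μ else 0 := by
      intro k _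
      by_cases h1 : k = i
      · rw [h1, hti, if_pos rfl, max_eq_left hμ0.le]
      · rw [if_neg h1]
        apply max_eq_right
        by_cases h2 : k = i'
        · rw [h2, hti']; linarith
        · rw [hto k h1 h2]
    rw [Finset.sum_congr rfl e, Finset.sum_ite_eq', if_pos (Finset.mem_univ _)]
  have hcm : ∑ k, max (-t k) 0 = μ' := by
    have e : ∀ k ∈ (Finset.univ : Finset (Fin N)), max (-t k) 0 = if k = i' then μ' else 0 := by
      intro k _
      by_cases h1 : k = i'
      · rw [h1, hti', if_pos rfl, neg_neg, max_eq_left hμ0'.le]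
      · rw [if_neg h1]
        apply max_eq_right
        by_cases h2 : k = i
        · rw [h2, hti]; linarith
        · rw [hto k h2 h1, neg_zero]
    rw [Finset.sum_congr rfl e, Finset.sum_ite_eq', if_pos (Finset.mem_univ _)]
  rw [hcp, hcm] at hab
  rw [eq_convexHull hC, ← hc] at ha hb
  obtain ⟨α, hα0, hα1, hα⟩ := mem_convexHull_range ha
  obtain ⟨β, hβ0, hβ1, hβ⟩ := mem_convexHull_range hb
  have hsumt : ∑ j, τ j = μ - μ' := by
    have h1 : ∑ k, ∑ j, τ j * P (c j) k = ∑ k, t k := Finset.sum_congr rfl fun k _ => hτ k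
    rw [Finset.sum_comm] at h1
    have h2 : ∑ j, ∑ k, τ j * P (c j) k = ∑ j, τ j := by
      refine Finset.sum_congr rfl fun j _ => ?_
      rw [← Finset.mul_sum, (hP _ (hcC j)).2, mul_one]
    rw [← h2, h1, hsumt']
  obtain ⟨s, hs⟩ := hker (fun j => τ j - μ * α j + μ' * β j) (by
      rw [Finset.sum_add_distrib, Finset.sum_sub_distrib, ← Finset.mul_sum, ← Finset.mul_sum,
        hα1, hβ1, hsumt]
      ring) (by
      have h2 : ∑ j, (τ j - μ * α j + μ' * β j) • c j = ∑ j, τ j • c j -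
          μ • ∑ j, α j • c j + μ' • ∑ j, β j • c j := by
        rw [Finset.smul_sum, Finset.smul_sum, ← Finset.sum_sub_distrib, ← Finset.sum_add_distrib]
        exact Finset.sum_congr rfl fun j _ => by module
      rw [h2, hα, hβ, hab]
      abel)
  obtain ⟨pa, hpa⟩ : ∃ pa : Fin N → ℝ, ∀ k, pa k = ∑ j, α j * P (c j) k := ⟨_, fun _ => rfl⟩
  obtain ⟨pb, hpb⟩ : ∃ pb : Fin N → ℝ, ∀ k, pb k = ∑ j, β j * P (c j) k := ⟨_, fun _ => rfl⟩
  have hrel : ∀ k, t k - s * κ k = μ * pa k - μ' * pb k := by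
    intro k
    have h1 := hs k
    have h2 : ∑ j, (τ j - μ * α j + μ' * β j) * P (c j) k = ∑ j, τ j * P (c j) k -
        μ * ∑ j, α j * P (c j) k + μ' * ∑ j, β j * P (c j) k := by
      rw [Finset.mul_sum, Finset.mul_sum, ← Finset.sum_sub_distrib, ← Finset.sum_add_distrib]
      exact Finset.sum_congr rfl fun j _ => by ring
    rw [h2, hτ k, ← hpa, ← hpb] at h1
    linarith
  have hpa0 : ∀ k, 0 ≤ pa k := fun k => by
    rw [hpa]; exact Finset.sum_nonneg fun j _ => mul_nonneg (hα0 j) ((hP _ (hcC j)).1 k)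
  have hpb0 : ∀ k, 0 ≤ pb k := fun k => by
    rw [hpb]; exact Finset.sum_nonneg fun j _ => mul_nonneg (hβ0 j) ((hP _ (hcC j)).1 k)
  have hsumw : ∀ γ : Fin m → ℝ, ∑ j, γ j = 1 → ∑ k, ∑ j, γ j * P (c j) k = 1 := by
    intro γ hγ
    rw [Finset.sum_comm, ← hγ]
    refine Finset.sum_congr rfl fun j _ => ?_
    rw [← Finset.mul_sum, (hP _ (hcC j)).2, mul_one]
  have hpa1 : ∑ k, pa k = 1 := by
    simp only [hpa]; exact hsumw α hα1
  have hpb1 : ∑ k, pb k = 1 := by
    simp only [hpb]; exact hsumw β hβ1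
  have hs0 : s ≠ 0 := by
    rintro rfl
    have h1 := hrel i
    rw [hti, zero_mul, sub_zero] at h1
    have h3 : 1 ≤ pa i := by
      by_contra h
      have h4 := mul_lt_mul_of_pos_left (not_le.1 h) hμ0
      have h5 := mul_nonneg hμ0'.le (hpb0 i)
      linarith
    have h4 := Finset.add_sum_erase Finset.univ pa (Finset.mem_univ i)
    rw [hpa1] at h4
    have h5 : 0 ≤ ∑ k ∈ Finset.univ.erase i, pa k := Finset.sum_nonneg fun k _ => hpa0 k
    have h6 : ∑ k ∈ Finset.univ.erase i, pa k = 0 := by linarith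
    have h7 := (Finset.sum_eq_zero_iff_of_nonneg fun k _ => hpa0 k).1 h6
    have h8 : ∑ k, lam k * pa k = 0 := by
      simp only [hpa, Finset.mul_sum]
      rw [Finset.sum_comm]
      refine Finset.sum_eq_zero fun j _ => ?_
      have e : ∀ k ∈ (Finset.univ : Finset (Fin N)), lam k * (α j * P (c j) k) =
          α j * (lam k * P (c j) k) := fun k _ => by ring
      rw [Finset.sum_congr rfl e, ← Finset.mul_sum, hlam j, mul_zero]
    rw [← Finset.add_sum_erase Finset.univ _ (Finset.mem_univ i)] at h8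
    have h9 : ∑ k ∈ Finset.univ.erase i, lam k * pa k = 0 :=
      Finset.sum_eq_zero fun k hk => by rw [h7 k hk, mul_zero]
    rw [h9, add_zero] at h8
    rcases mul_eq_zero.1 h8 with h | h
    · exact hli h
    · linarith
  have hL1 : ∑ k, |t k - s * κ k| ≤ μ + μ' := by
    calc ∑ k, |t k - s * κ k| ≤ ∑ k, (μ * pa k + μ' * pb k) := by
          refine Finset.sum_le_sum fun k _ => ?_
          rw [hrel k]
          refine (abs_sub _ _).trans ?_
          rw [abs_of_nonneg (mul_nonneg hμ0.le (hpa0 k)), abs_of_nonneg (mul_nonneg hμ0'.le (hpb0 k))]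
      _ = μ + μ' := by
          rw [Finset.sum_add_distrib, ← Finset.mul_sum, ← Finset.mul_sum, hpa1, hpb1]
          ring
  have hlow : ∑ k, (|s| * |κ k| + (if k = i then μ - s * κ i - |s| * |κ i| else 0) +
      if k = i' then μ' + s * κ i' - |s| * |κ i'| else 0) ≤ ∑ k, |t k - s * κ k| := by
    refine Finset.sum_le_sum fun k _ => ?_
    by_cases h1 : k = i
    · rw [if_pos h1, if_neg (by rw [h1]; exact hii), add_zero, h1, hti]
      linarith [le_abs_self (μ - s * κ i)]
    · by_cases h2 : k = i'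
      · rw [if_neg h1, if_pos h2, h2, hti']
        have := neg_le_abs (-μ' - s * κ i')
        linarith
      · rw [if_neg h1, if_neg h2, hto k h1 h2, zero_sub, abs_neg, abs_mul]
        linarith
  rw [Finset.sum_add_distrib, Finset.sum_add_distrib, Finset.sum_ite_eq', Finset.sum_ite_eq',
    if_pos (Finset.mem_univ _), if_pos (Finset.mem_univ _), ← Finset.mul_sum] at hlow
  have hspos : 0 < |s| := abs_pos.2 hs0
  have hdiff : s * (κ i - κ i') ≤ |s| * |κ i - κ i'| := by
    rw [← abs_mul]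
    exact le_abs_self _
  have hfin : |s| * ∑ k, |κ k| ≤ |s| * (|κ i| + |κ i'| + |κ i - κ i'|) := by
    have e : |s| * (|κ i| + |κ i'| + |κ i - κ i'|) = |s| * |κ i| + |s| * |κ i'| +
      |s| * |κ i - κ i'| := by ring
    rw [e]
    nlinarith
  exact le_of_mul_le_mul_left hfin hspos

/-- The case of few coordinates on each side of the hyperplane. -/
theorem card_le_of_classes (hC : IsPolytope C)
    (hP : ∀ x ∈ C, (∀ i, 0 ≤ P x i) ∧ ∑ i, P x i = 1)
    (hW : ∀ η ∈ Omega C, ∀ i, 0 ≤ W η i ∧ W η i ≤ 1)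
    (hPW : ∀ x : C, ∀ η ∈ Omega C, η x = ∑ i, P x i * W η i)
    (hc : Set.range c = C.extremePoints ℝ) {lam : Fin N → ℝ}
    (hV : ∀ t : Fin N → ℝ, ∑ k, lam k * t k = 0 → ∃ τ : Fin m → ℝ, ∀ k,
      ∑ j, τ j * P (c j) k = t k)
    (hlam : ∀ j, ∑ k, lam k * P (c j) k = 0) :
    (C.extremePoints ℝ).ncard ≤ (JJ lam).card := by
  classical
  have hcC : ∀ j, c j ∈ C := fun j => by
    have : c j ∈ C.extremePoints ℝ := by rw [← hc]; exact ⟨j, rfl⟩
    exact this.1
  have hex : ∀ l, ∃ τ : Fin m → ℝ, l ∈ JJ lam → (∀ k, ∑ j, τ j * P (c j) k = circ lam l k) ∧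
      ∑ j, τ j • c j ∈ C := by
    intro l
    by_cases hl : l ∈ JJ lam
    · obtain ⟨h1, h2, h3⟩ := circ_spec hl
      obtain ⟨τ, hτ⟩ := hV _ h3
      refine ⟨τ, fun _ => ⟨hτ, ?_⟩⟩
      obtain ⟨a, ha, b, hb, hab⟩ := decomp hC hP hW hPW hcC τ
      simp only [hτ] at hab
      have e1 : ∑ k, max (circ lam l k) 0 = 1 := by
        rw [← h2]
        exact Finset.sum_congr rfl fun k _ => max_eq_left (h1 k)
      have e2 : ∑ k, max (-circ lam l k) 0 = 0 :=
        Finset.sum_eq_zero fun k _ => max_eq_right (by linarith [h1 k])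
      rw [e1, e2, one_smul, zero_smul, sub_zero] at hab
      rw [hab]
      exact ha
    · exact ⟨0, fun h => absurd h hl⟩
  choose τ hτ using hex
  let X : (Fin N × Fin N) ⊕ Fin N → E := fun l => ∑ j, τ l j • c j
  have hcX : ∀ j, c j ∈ convexHull ℝ (X '' (JJ lam : Set ((Fin N × Fin N) ⊕ Fin N))) := by
    intro j
    obtain ⟨θ, h1, h2, h3⟩ := circuits lam (P (c j)) (hP _ (hcC j)).1 (hP _ (hcC j)).2 (hlam j)
    have hg : ∀ k, ∑ l, ((if l = j then (1 : ℝ) else 0) - ∑ x ∈ JJ lam, θ x * τ x l) *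
        P (c l) k = 0 := by
      intro k
      have e : ∑ l, (∑ x ∈ JJ lam, θ x * τ x l) * P (c l) k = P (c j) k := by
        rw [← h3 k]
        simp only [Finset.sum_mul]
        rw [Finset.sum_comm]
        refine Finset.sum_congr rfl fun x hx => ?_
        rw [← (hτ x hx).1 k, Finset.mul_sum]
        exact Finset.sum_congr rfl fun l _ => by ring
      simp only [sub_mul, ite_mul, one_mul, zero_mul, Finset.sum_sub_distrib, Finset.sum_ite_eq',
        Finset.mem_univ, if_true]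
      rw [e, sub_self]
    have h4 := (rel_down hC hP hW hPW hcC hg).2
    have h5 : c j = ∑ x ∈ JJ lam, θ x • X x := by
      have e : ∑ l, (∑ x ∈ JJ lam, θ x * τ x l) • c l = ∑ x ∈ JJ lam, θ x • X x := by
        simp only [Finset.sum_smul, X, Finset.smul_sum, smul_smul]
        rw [Finset.sum_comm]
      simp only [sub_smul, ite_smul, one_smul, zero_smul, Finset.sum_sub_distrib,
        Finset.sum_ite_eq', Finset.mem_univ, if_true] at h4
      rw [e] at h4
      exact sub_eq_zero.1 h4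
    rw [h5]
    exact (convex_convexHull ℝ _).sum_mem h1 h2 fun x hx =>
      subset_convexHull ℝ _ ⟨x, hx, rfl⟩
  have hCeq : C = convexHull ℝ (X '' (JJ lam : Set ((Fin N × Fin N) ⊕ Fin N))) := by
    apply Set.Subset.antisymm
    · rw [eq_convexHull hC, ← hc]
      apply convexHull_min _ (convex_convexHull ℝ _)
      rintro _ ⟨j, rfl⟩
      exact hcX j
    · apply convexHull_min _ hC.2.2.1
      rintro _ ⟨l, hl, rfl⟩
      exact (hτ l hl).2
  have hsub : C.extremePoints ℝ ⊆ X '' (JJ lam : Set ((Fin N × Fin N) ⊕ Fin N)) := by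
    have h1 := extremePoints_convexHull_subset (𝕜 := ℝ) (A := X '' (JJ lam : Set ((Fin N × Fin N) ⊕ Fin N)))
    rwa [← hCeq] at h1
  calc (C.extremePoints ℝ).ncard ≤ (X '' (JJ lam : Set ((Fin N × Fin N) ⊕ Fin N))).ncard :=
        Set.ncard_le_ncard hsub ((JJ lam).finite_toSet.image _)
    _ ≤ (JJ lam : Set ((Fin N × Fin N) ⊕ Fin N)).ncard := Set.ncard_image_le (JJ lam).finite_toSet
    _ = (JJ lam).card := Set.ncard_coe_finset _

end Pool.Agent.KS6_80.LD
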