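import Pool.Agent.KS6_80.LD.Fin4

/-!
# The least dimension is `m - 1` or at least `dim C + 3`

Helper file for MP_ff4a33_gt.
-/

set_option autoImplicit false

open Finset

namespace Pool.Agent.KS6_80.LD

open Pool.Agent.X156.SR

variable {E : Type*} [NormedAddCommGroup E] [NormedSpace ℝ E]
variable {C : Set E}

theorem dual_apply {N : ℕ} (f : Module.Dual ℝ (Fin N → ℝ)) (t : Fin N → ℝ) :
    f t = ∑ k, f (fun l => if k = l then 1 else 0) * t k := by
  have h1 := LinearMap.pi_apply_eq_sum_univ f t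
  rw [h1]
  exact Finset.sum_congr rfl fun k _ => by rw [smul_eq_mul, mul_comm]

theorem card_le_of_three [FiniteDimensional ℝ E] (hC : IsPolytope C) {N : ℕ}
    {P : E → Fin N → ℝ} {W : (C → ℝ) → Fin N → ℝ}
    (hP : ∀ x ∈ C, (∀ i, 0 ≤ P x i) ∧ ∑ i, P x i = 1)
    (hW : ∀ η ∈ Omega C, ∀ i, 0 ≤ W η i ∧ W η i ≤ 1)
    (hPW : ∀ x : C, ∀ η ∈ Omega C, η x = ∑ i, P x i * W η i)
    (hN : N ≤ Module.finrank ℝ (vectorSpan ℝ C) + 3) : (C.extremePoints ℝ).ncard ≤ N := by
  classical
  by_cases hN2 : N ≤ Module.finrank ℝ (vectorSpan ℝ C) + 2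
  · exact card_le_of_small hC hP hW hPW hN2
  obtain ⟨n, hn⟩ : ∃ n, n = Module.finrank ℝ (vectorSpan ℝ C) + 2 := ⟨_, rfl⟩
  have hNn : N = n + 1 := by omega
  subst hNn
  obtain ⟨m, c, hcinj, hc, hm⟩ : ∃ (m : ℕ) (c : Fin m → E), Function.Injective c ∧
      Set.range c = C.extremePoints ℝ ∧ m = (C.extremePoints ℝ).ncard := by
    obtain ⟨c, h1, hc, _⟩ := exists_enum hC
    exact ⟨_, c, h1, hc, rfl⟩
  have hcC : ∀ j, c j ∈ C := fun j => by
    have : c j ∈ C.extremePoints ℝ := by rw [← hc]; exact ⟨j, rfl⟩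
    exact this.1
  by_cases hs : LinearMap.range (Psi P c) = ⊤
  · exact card_le_of_surj hC hP hW hPW hcC hc hs
  by_cases hk : LinearMap.ker (Psi P c) = LinearMap.ker (Phi c)
  · rw [← hm]
    refine card_le_of_inj hC hP hW hPW hcinj hc fun g hg1 hg2 i => ?_
    have h5 : g ∈ LinearMap.ker (Phi c) := by
      rw [LinearMap.mem_ker, Phi_eq_zero]
      exact ⟨hg1, hg2⟩
    rw [← hk, LinearMap.mem_ker] at h5
    rw [← Psi_apply, h5]
    rfl
  -- the hyperplane case
  have hle : LinearMap.ker (Psi P c) ≤ LinearMap.ker (Phi c) := by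
    intro g hg
    rw [LinearMap.mem_ker] at hg ⊢
    rw [Phi_eq_zero]
    apply rel_down hC hP hW hPW hcC
    intro i
    rw [← Psi_apply, hg]
    rfl
  have hlt : LinearMap.ker (Psi P c) < LinearMap.ker (Phi c) := lt_of_le_of_ne hle hk
  have h1 : Module.finrank ℝ (LinearMap.range (Psi P c)) < n + 1 := by
    have := Submodule.finrank_lt (s := LinearMap.range (Psi P c)) hs
    rwa [Module.finrank_fin_fun] at this
  have h2 := rank_Phi hC hc
  have h3 := LinearMap.finrank_range_add_finrank_ker (Phi c)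
  have h4 := LinearMap.finrank_range_add_finrank_ker (Psi P c)
  have h5 := Submodule.finrank_lt_finrank_of_lt hlt
  obtain ⟨g0, hg0, hg0'⟩ := SetLike.exists_of_lt hlt
  -- the kernel is spanned by one more vector
  have hker : ∀ g : Fin m → ℝ, ∑ j, g j = 0 → ∑ j, g j • c j = 0 → ∃ s : ℝ, ∀ k,
      ∑ j, g j * P (c j) k = s * Psi P c g0 k := by
    intro g hg1 hg2
    have hsup : LinearMap.ker (Psi P c) ⊔ Submodule.span ℝ {g0} = LinearMap.ker (Phi c) := by
      apply Submodule.eq_of_le_of_finrank_le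
      · refine sup_le hle ?_
        rw [Submodule.span_le]
        rintro _ rfl
        exact hg0
      · have h6 : LinearMap.ker (Psi P c) < LinearMap.ker (Psi P c) ⊔ Submodule.span ℝ {g0} := by
          refine lt_of_le_of_ne le_sup_left fun h => hg0' ?_
          rw [h]
          exact Submodule.mem_sup_right (Submodule.mem_span_singleton_self g0)
        have h7 := Submodule.finrank_lt_finrank_of_lt h6
        omega
    have hg : g ∈ LinearMap.ker (Psi P c) ⊔ Submodule.span ℝ {g0} := by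
      rw [hsup, LinearMap.mem_ker, Phi_eq_zero]
      exact ⟨hg1, hg2⟩
    obtain ⟨u, hu, v, hv, rfl⟩ := Submodule.mem_sup.1 hg
    obtain ⟨s, rfl⟩ := Submodule.mem_span_singleton.1 hv
    refine ⟨s, fun k => ?_⟩
    rw [← Psi_apply, map_add, LinearMap.mem_ker.1 hu, zero_add, map_smul]
    rfl
  -- the hyperplane
  obtain ⟨f, hf0, hf⟩ := Submodule.exists_le_ker_of_lt_top (LinearMap.range (Psi P c))
    (lt_top_iff_ne_top.2 hs)
  have hfr : LinearMap.range (Psi P c) = LinearMap.ker f := by
    apply Submodule.eq_of_le_of_finrank_le hf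
    have h6 := LinearMap.finrank_range_add_finrank_ker f
    rw [Module.finrank_fin_fun] at h6
    have h7 : 1 ≤ Module.finrank ℝ (LinearMap.range f) := by
      rw [Nat.one_le_iff_ne_zero, Ne, Submodule.finrank_eq_zero]
      intro h
      exact hf0 (LinearMap.range_eq_bot.1 h)
    omega
  obtain ⟨lam, hlam⟩ : ∃ lam : Fin (n + 1) → ℝ, ∀ t, f t = ∑ k, lam k * t k :=
    ⟨fun k => f (fun l => if k = l then 1 else 0), fun t => dual_apply f t⟩
  have hV : ∀ t : Fin (n + 1) → ℝ, ∑ k, lam k * t k = 0 → ∃ τ : Fin m → ℝ, ∀ k,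
      ∑ j, τ j * P (c j) k = t k := by
    intro t ht
    have : t ∈ LinearMap.range (Psi P c) := by
      rw [hfr, LinearMap.mem_ker, hlam]
      exact ht
    obtain ⟨τ, hτ⟩ := this
    exact ⟨τ, fun k => by rw [← Psi_apply, hτ]⟩
  have hlam' : ∀ j, ∑ k, lam k * P (c j) k = 0 := by
    intro j
    rw [← hlam]
    have : P (c j) ∈ LinearMap.range (Psi P c) := by
      refine ⟨Pi.single j 1, ?_⟩
      rw [Psi, Fintype.linearCombination_apply_single, one_smul]
    exact hf this
  by_cases htri : ∀ i j k : Fin (n + 1), i ≠ j → i ≠ k → j ≠ k → 0 < lam i * lam j →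
      0 < lam i * lam k → 0 < lam j * lam k → False
  · exact (card_le_of_classes hC hP hW hPW hc hV hlam').trans (card_JJ lam htri)
  · push Not at htri
    obtain ⟨i, j, k, hij, hik, hjk, p1, p2, p3, _⟩ := htri
    have s1 := star hC hP hW hPW hc hV hlam' hker hij p1
    have s2 := star hC hP hW hPW hc hV hlam' hker hik p2
    have s3 := star hC hP hW hPW hc hV hlam' hker hjk p3
    have hg0K : ∑ j, g0 j = 0 ∧ ∑ j, g0 j • c j = 0 := Phi_eq_zero.1 (LinearMap.mem_ker.1 hg0)
    have hκ : Psi P c g0 ≠ 0 := fun h => hg0' (LinearMap.mem_ker.2 h)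
    have hκs : ∑ k, Psi P c g0 k = 0 := by
      simp only [Psi_apply]
      rw [Finset.sum_comm, ← hg0K.1]
      refine Finset.sum_congr rfl fun j _ => ?_
      rw [← Finset.mul_sum, (hP _ (hcC j)).2, mul_one]
    obtain ⟨p, q, hpq, hp0, hpq0, hrest⟩ := pair_of_triple hκ hκs hij hik hjk s1 s2 s3
    have hmerge : ∀ η ∈ Omega C, W η p = W η q := by
      intro η hη
      have r1 := form_rel hC.2.2.1 hη hcC hg0K.1 hg0K.2
      have r2 : ∑ j, g0 j * η ⟨c j, hcC j⟩ = ∑ k, Psi P c g0 k * W η k := by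
        simp only [Psi_apply, Finset.sum_mul]
        rw [Finset.sum_comm]
        refine Finset.sum_congr rfl fun j _ => ?_
        rw [hPW _ η hη, Finset.mul_sum]
        exact Finset.sum_congr rfl fun k _ => by ring
      rw [r2, ← Finset.add_sum_erase Finset.univ _ (Finset.mem_univ p),
        ← Finset.add_sum_erase (Finset.univ.erase p) _
          (Finset.mem_erase.2 ⟨hpq.symm, Finset.mem_univ q⟩)] at r1
      have r3 : ∑ k ∈ (Finset.univ.erase p).erase q, Psi P c g0 k * W η k = 0 := by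
        refine Finset.sum_eq_zero fun k hk => ?_
        have a1 := (Finset.mem_erase.1 hk).1
        have a2 := (Finset.mem_erase.1 (Finset.mem_erase.1 hk).2).1
        rw [hrest k a2 a1, zero_mul]
      rw [r3, add_zero] at r1
      have r4 : Psi P c g0 q = -Psi P c g0 p := by linarith
      rw [r4] at r1
      have r5 : Psi P c g0 p * (W η p - W η q) = 0 := by linarith
      rcases mul_eq_zero.1 r5 with h | h
      · exact absurd h hp0
      · linarith
    obtain ⟨P', W', hP', hW', hPW'⟩ := merge hP hW hPW hpq hmerge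
    have := card_le_of_small hC hP' hW' hPW' (by omega)
    omega

theorem factorRank_dichotomy3 [FiniteDimensional ℝ E] (hC : IsPolytope C) :
    factorRank C = (C.extremePoints ℝ).ncard ∨
      Module.finrank ℝ (vectorSpan ℝ C) + 4 ≤ factorRank C := by
  by_cases h : factorRank C ≤ Module.finrank ℝ (vectorSpan ℝ C) + 3
  · left
    obtain ⟨P, W, hP, hW, hPW⟩ := full_factor hC
    exact le_antisymm (factorRank_le hC) (card_le_of_three hC hP hW hPW h)
  · right
    omega

theorem factorRank_eq_of_ncard_le3 [FiniteDimensional ℝ E] (hC : IsPolytope C)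
    (h : (C.extremePoints ℝ).ncard ≤ Module.finrank ℝ (vectorSpan ℝ C) + 4) :
    factorRank C = (C.extremePoints ℝ).ncard := by
  rcases factorRank_dichotomy3 hC with h1 | h1
  · exact h1
  · exact le_antisymm (factorRank_le hC) (h.trans h1)

end Pool.Agent.KS6_80.LD
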