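import Pool.Agent.KS6_80.LD.Main

/-!
# Joins of polytopes

Helper file for MP_ff4a33_gt.
-/

set_option autoImplicit false

open Finset

namespace Pool.Agent.KS6_80.LD

open Pool.Agent.X156.SR

section Ext

variable {E F : Type*} [AddCommGroup E] [Module ℝ E] [AddCommGroup F] [Module ℝ F]

/-- Forms on a face of a join extend by zero. -/
theorem cone_ext {C : Set E} {J : Set F} {θ : F → ℝ} {π : F →ₗ[ℝ] E}
    (hθ : ∀ p ∈ J, 0 ≤ θ p ∧ θ p ≤ 1)
    (hθa : ∀ (p q : F) (t : ℝ), θ (t • p + (1 - t) • q) = t * θ p + (1 - t) * θ q)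
    (hπ : ∀ p ∈ J, θ p ≠ 0 → (θ p)⁻¹ • π p ∈ C) (hπ0 : ∀ p ∈ J, θ p = 0 → π p = 0)
    {η : C → ℝ} (hη : η ∈ Omega C) :
    (fun p : J => θ p * ext0 η ((θ p)⁻¹ • π p)) ∈ Omega J := by
  have hval : ∀ x (hx : x ∈ C), ext0 η x = η ⟨x, hx⟩ := fun x hx => ext0_eq η ⟨x, hx⟩
  refine ⟨fun p => ?_, fun p q r t h0 h1 hr => ?_⟩
  · obtain ⟨h2, h3⟩ := hθ p p.2
    by_cases h : θ p = 0
    · dsimp only
      rw [h, zero_mul]
      exact ⟨le_refl _, zero_le_one⟩
    · dsimp only
      rw [hval _ (hπ p p.2 h)]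
      have h4 := hη.1 ⟨_, hπ p p.2 h⟩
      exact ⟨mul_nonneg h2 h4.1, mul_le_one₀ h3 h4.1 h4.2⟩
  · have h2 := (hθ p p.2).1
    have h3 := (hθ q q.2).1
    have hθr : θ r = t * θ p + (1 - t) * θ q := by rw [hr]; exact hθa _ _ _
    have hπr : π r = t • π p + (1 - t) • π q := by rw [hr, map_add, map_smul, map_smul]
    have h4 : 0 ≤ t * θ p := mul_nonneg h0 h2
    have h5 : 0 ≤ (1 - t) * θ q := mul_nonneg (by linarith) h3
    dsimp only
    by_cases hr0 : θ r = 0
    · have a1 : t * θ p = 0 := by linarith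
      have a2 : (1 - t) * θ q = 0 := by linarith
      rw [hr0, zero_mul, ← mul_assoc, a1, ← mul_assoc, a2]
      ring
    · by_cases hp0 : θ p = 0
      · have b1 : θ r = (1 - t) * θ q := by rw [hθr, hp0]; ring
        have b2 : (θ r)⁻¹ • π r = (θ q)⁻¹ • π q := by
          rw [hπr, hπ0 p p.2 hp0, smul_zero, zero_add, smul_smul, b1]
          congr 1
          have : (1 - t) ≠ 0 := by
            rintro h
            rw [b1, h, zero_mul] at hr0
            exact hr0 rfl
          field_simp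
        rw [b2, hp0, zero_mul, mul_zero, zero_add, b1]
        ring
      · by_cases hq0 : θ q = 0
        · have b1 : θ r = t * θ p := by rw [hθr, hq0]; ring
          have b2 : (θ r)⁻¹ • π r = (θ p)⁻¹ • π p := by
            rw [hπr, hπ0 q q.2 hq0, smul_zero, add_zero, smul_smul, b1]
            congr 1
            have : t ≠ 0 := by
              rintro h
              rw [b1, h, zero_mul] at hr0
              exact hr0 rfl
            field_simp
          rw [b2, hq0, zero_mul, mul_zero, add_zero, b1]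
          ring
        · have hrm := hπ r r.2 hr0
          have hpm := hπ p p.2 hp0
          have hqm := hπ q q.2 hq0
          rw [hval _ hrm, hval _ hpm, hval _ hqm]
          have hrpos : 0 < θ r := lt_of_le_of_ne (hθ r r.2).1 (Ne.symm hr0)
          have key := hη.2 ⟨_, hpm⟩ ⟨_, hqm⟩ ⟨_, hrm⟩ (t * θ p / θ r)
            (div_nonneg h4 hrpos.le) ((div_le_one hrpos).2 (by linarith)) (by
              change (θ r)⁻¹ • π r = (t * θ p / θ r) • ((θ p)⁻¹ • π p) +
                (1 - t * θ p / θ r) • ((θ q)⁻¹ • π q)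
              have e1 : 1 - t * θ p / θ r = (1 - t) * θ q / θ r := by
                rw [eq_div_iff hr0, sub_mul, div_mul_cancel₀ _ hr0, one_mul, hθr]
                ring
              rw [e1, hπr, smul_add, smul_smul, smul_smul, smul_smul, smul_smul]
              congr 1
              · congr 1
                field_simp
              · congr 1
                field_simp)
          rw [key]
          have e1 : 1 - t * θ p / θ r = (1 - t) * θ q / θ r := by
            rw [eq_div_iff hr0, sub_mul, div_mul_cancel₀ _ hr0, one_mul, hθr]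
            ring
          rw [e1]
          field_simp

/-- Restricting a factorization to a part. -/
theorem factors_of_support {C : Set E} {J : Set F} {N : ℕ} {P : F → Fin N → ℝ}
    {W : (J → ℝ) → Fin N → ℝ} (hP : ∀ x ∈ J, (∀ i, 0 ≤ P x i) ∧ ∑ i, P x i = 1)
    (hW : ∀ η ∈ Omega J, ∀ i, 0 ≤ W η i ∧ W η i ≤ 1)
    (hPW : ∀ x : J, ∀ η ∈ Omega J, η x = ∑ i, P x i * W η i)
    {ι : E → F} (hι : ∀ x ∈ C, ι x ∈ J) (S : Finset (Fin N))
    (hS : ∀ x ∈ C, ∀ i, i ∉ S → P (ι x) i = 0)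
    (hext : ∀ η ∈ Omega C, ∃ ζ ∈ Omega J, ∀ x (hx : x ∈ C), ζ ⟨ι x, hι x hx⟩ = η ⟨x, hx⟩) :
    Factors C S.card := by
  classical
  have hex : ∀ η : C → ℝ, ∃ ζ : J → ℝ, η ∈ Omega C → ζ ∈ Omega J ∧
      ∀ x (hx : x ∈ C), ζ ⟨ι x, hι x hx⟩ = η ⟨x, hx⟩ := by
    intro η
    by_cases hη : η ∈ Omega C
    · obtain ⟨ζ, h1, h2⟩ := hext η hη
      exact ⟨ζ, fun _ => ⟨h1, h2⟩⟩
    · exact ⟨0, fun h => absurd h hη⟩
  choose ζ hζ using hex
  let e : Fin S.card ≃ S := S.equivFin.symm
  have hsum : ∀ f : Fin N → ℝ, (∀ i, i ∉ S → f i = 0) → ∑ k : Fin S.card, f (e k) = ∑ i, f i := by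
    intro f hf
    rw [← Equiv.sum_comp e.symm (fun k => f (e k))]
    simp only [Equiv.apply_symm_apply]
    rw [Finset.sum_coe_sort S f]
    exact Finset.sum_subset (Finset.subset_univ S) fun i _ hi => hf i hi
  refine ⟨fun x k => P (ι x) (e k), fun η k => W (ζ η) (e k), fun x hx => ⟨fun k => ?_, ?_⟩,
    fun η hη k => hW _ (hζ η hη.1).1 _, fun x hx η hη => ?_⟩
  · exact (hP _ (hι x hx.1)).1 _
  · rw [hsum (fun i => P (ι x) i) (hS x hx.1)]
    exact (hP _ (hι x hx.1)).2
  · rw [hsum (fun i => P (ι x) i * W (ζ η) i) (fun i hi => by rw [hS x x.2 i hi, zero_mul])]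
    have h1 := hPW ⟨ι x, hι x x.2⟩ _ (hζ η hη.1).1
    rw [(hζ η hη.1).2 x x.2] at h1
    exact h1

end Ext

end Pool.Agent.KS6_80.LD
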