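import Pool.Agent.KS6_80.LD.Join

/-!
# The least dimension of a join

Helper file for MP_ff4a33_gt.
-/

set_option autoImplicit false

open Finset

namespace Pool.Agent.KS6_80.LD

open Pool.Agent.X156.SR

variable {E₁ E₂ : Type*} [NormedAddCommGroup E₁] [NormedSpace ℝ E₁] [NormedAddCommGroup E₂]
  [NormedSpace ℝ E₂]

/-- The join of `C₁` and `C₂`: the union of all segments between a point `((x, 0), 0)` with `x ∈ C₁`
and a point `((0, y), 1)` with `y ∈ C₂`. -/
def joinSet (C₁ : Set E₁) (C₂ : Set E₂) : Set ((E₁ × E₂) × ℝ) :=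
  {p | ∃ x ∈ C₁, ∃ y ∈ C₂, ∃ b : ℝ, 0 ≤ b ∧ b ≤ 1 ∧ p = (((1 - b) • x, b • y), b)}

variable {C₁ : Set E₁} {C₂ : Set E₂}

theorem join_left (h2 : C₂.Nonempty) {x : E₁} (hx : x ∈ C₁) :
    (((x, 0), 0) : (E₁ × E₂) × ℝ) ∈ joinSet C₁ C₂ := by
  obtain ⟨y, hy⟩ := h2
  exact ⟨x, hx, y, hy, 0, le_refl _, zero_le_one, by simp⟩

theorem join_right (h1 : C₁.Nonempty) {y : E₂} (hy : y ∈ C₂) :
    (((0, y), 1) : (E₁ × E₂) × ℝ) ∈ joinSet C₁ C₂ := by
  obtain ⟨x, hx⟩ := h1
  exact ⟨x, hx, y, hy, 1, zero_le_one, le_refl _, by simp⟩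

theorem comb_mem {E : Type*} [AddCommGroup E] [Module ℝ E] {C : Set E} (hC : Convex ℝ C)
    {x x' : E} (hx : x ∈ C) (hx' : x' ∈ C) {s t : ℝ} (hs : 0 ≤ s) (ht : 0 ≤ t) :
    ∃ z ∈ C, s • x + t • x' = (s + t) • z := by
  by_cases h : s + t = 0
  · have h1 : s = 0 := by linarith
    have h2 : t = 0 := by linarith
    exact ⟨x, hx, by rw [h1, h2]; simp⟩
  · have hpos : 0 < s + t := lt_of_le_of_ne (by linarith) (Ne.symm h)
    refine ⟨(s / (s + t)) • x + (t / (s + t)) • x', hC hx hx' (div_nonneg hs hpos.le)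
      (div_nonneg ht hpos.le) (by field_simp), ?_⟩
    rw [smul_add, smul_smul, smul_smul, mul_div_cancel₀ _ h, mul_div_cancel₀ _ h]

theorem join_convex (h1 : Convex ℝ C₁) (h2 : Convex ℝ C₂) : Convex ℝ (joinSet C₁ C₂) := by
  rintro _ ⟨x, hx, y, hy, b, hb0, hb1, rfl⟩ _ ⟨x', hx', y', hy', b', hb0', hb1', rfl⟩ s t hs ht hst
  obtain ⟨z, hz, ez⟩ := comb_mem h1 hx hx' (s := s * (1 - b)) (t := t * (1 - b'))
    (mul_nonneg hs (by linarith)) (mul_nonneg ht (by linarith))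
  obtain ⟨w, hw, ew⟩ := comb_mem h2 hy hy' (s := s * b) (t := t * b')
    (mul_nonneg hs hb0) (mul_nonneg ht hb0')
  refine ⟨z, hz, w, hw, s * b + t * b', by positivity, ?_, ?_⟩
  · calc s * b + t * b' ≤ s * 1 + t * 1 := add_le_add (mul_le_mul_of_nonneg_left hb1 hs)
          (mul_le_mul_of_nonneg_left hb1' ht)
      _ = 1 := by rw [mul_one, mul_one, hst]
  · have e1 : 1 - (s * b + t * b') = s * (1 - b) + t * (1 - b') := by
      linear_combination (-1 : ℝ) * hst
    rw [e1, ← ez, ← ew]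
    simp only [Prod.smul_mk, Prod.mk_add_mk, smul_smul, smul_eq_mul]

theorem join_compact (h1 : IsCompact C₁) (h2 : IsCompact C₂) : IsCompact (joinSet C₁ C₂) := by
  have e : joinSet C₁ C₂ = (fun q : (E₁ × E₂) × ℝ => (((1 - q.2) • q.1.1, q.2 • q.1.2), q.2)) ''
      ((C₁ ×ˢ C₂) ×ˢ Set.Icc (0 : ℝ) 1) := by
    ext p
    constructor
    · rintro ⟨x, hx, y, hy, b, hb0, hb1, rfl⟩
      exact ⟨((x, y), b), ⟨⟨hx, hy⟩, hb0, hb1⟩, rfl⟩
    · rintro ⟨⟨⟨x, y⟩, b⟩, ⟨⟨hx, hy⟩, hb0, hb1⟩, rfl⟩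
      exact ⟨x, hx, y, hy, b, hb0, hb1, rfl⟩
  rw [e]
  exact ((h1.prod h2).prod isCompact_Icc).image (by fun_prop)

theorem join_snd {p : (E₁ × E₂) × ℝ} (hp : p ∈ joinSet C₁ C₂) : 0 ≤ p.2 ∧ p.2 ≤ 1 := by
  obtain ⟨x, hx, y, hy, b, hb0, hb1, rfl⟩ := hp
  exact ⟨hb0, hb1⟩

theorem join_snd_zero {p : (E₁ × E₂) × ℝ} (hp : p ∈ joinSet C₁ C₂) (h : p.2 = 0) :
    ∃ x ∈ C₁, p = ((x, 0), 0) := by
  obtain ⟨x, hx, y, hy, b, hb0, hb1, rfl⟩ := hp
  have h : b = 0 := h
  subst h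
  exact ⟨x, hx, by simp⟩

theorem join_snd_one {p : (E₁ × E₂) × ℝ} (hp : p ∈ joinSet C₁ C₂) (h : p.2 = 1) :
    ∃ y ∈ C₂, p = ((0, y), 1) := by
  obtain ⟨x, hx, y, hy, b, hb0, hb1, rfl⟩ := hp
  have h : b = 1 := h
  subst h
  exact ⟨y, hy, by simp⟩

theorem join_extreme (h1 : C₁.Nonempty) (h2 : C₂.Nonempty) :
    (joinSet C₁ C₂).extremePoints ℝ = (fun x : E₁ => (((x, 0), 0) : (E₁ × E₂) × ℝ)) ''
      C₁.extremePoints ℝ ∪ (fun y : E₂ => (((0, y), 1) : (E₁ × E₂) × ℝ)) '' C₂.extremePoints ℝ := by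
  apply Set.Subset.antisymm
  · rintro p ⟨hp, hext⟩
    obtain ⟨x, hx, y, hy, b, hb0, hb1, hpe⟩ := id hp
    rcases hb0.eq_or_lt with h | h
    · left
      subst h
      have hpe' : p = ((x, 0), 0) := by rw [hpe]; simp
      refine ⟨x, ⟨hx, fun u hu v hv huv => ?_⟩, hpe'.symm⟩
      have := hext (join_left h2 hu) (join_left h2 hv) (by
        obtain ⟨s, t, hs, ht, hst, hx'⟩ := huv
        refine ⟨s, t, hs, ht, hst, ?_⟩
        rw [hpe', ← hx']
        simp)
      rw [hpe'] at this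
      exact congrArg (fun q => q.1.1) this
    · rcases hb1.eq_or_lt with h' | h'
      · right
        subst h'
        have hpe' : p = ((0, y), 1) := by rw [hpe]; simp
        refine ⟨y, ⟨hy, fun u hu v hv huv => ?_⟩, hpe'.symm⟩
        have := hext (join_right h1 hu) (join_right h1 hv) (by
          obtain ⟨s, t, hs, ht, hst, hx'⟩ := huv
          refine ⟨s, t, hs, ht, hst, ?_⟩
          rw [hpe', ← hx']
          simp [hst])
        rw [hpe'] at this
        exact congrArg (fun q => q.1.2) this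
      · exfalso
        have := hext (join_left h2 hx) (join_right h1 hy) (by
          refine ⟨1 - b, b, by linarith, h, by ring, ?_⟩
          rw [hpe]
          simp)
        have h3 := congrArg (fun q => q.2) this
        rw [hpe] at h3
        have h4 : (0 : ℝ) = b := h3
        linarith
  · rintro p (⟨x, hx, rfl⟩ | ⟨y, hy, rfl⟩)
    · refine ⟨join_left h2 hx.1, fun u hu v hv huv => ?_⟩
      obtain ⟨s, t, hs, ht, hst, he⟩ := huv
      have e2 : s * u.2 + t * v.2 = 0 := congrArg (fun q => q.2) he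
      have hu2 := (join_snd hu).1
      have hv2 := (join_snd hv).1
      have a1 := mul_nonneg hs.le hu2
      have a2 := mul_nonneg ht.le hv2
      have b1 : u.2 = 0 := by
        rcases mul_eq_zero.1 (by linarith : s * u.2 = 0) with h | h
        · exact absurd h hs.ne'
        · exact h
      have b2 : v.2 = 0 := by
        rcases mul_eq_zero.1 (by linarith : t * v.2 = 0) with h | h
        · exact absurd h ht.ne'
        · exact h
      obtain ⟨xu, hxu, rfl⟩ := join_snd_zero hu b1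
      obtain ⟨xv, hxv, rfl⟩ := join_snd_zero hv b2
      have e3 : s • xu + t • xv = x := congrArg (fun q => q.1.1) he
      have := hx.2 hxu hxv ⟨s, t, hs, ht, hst, e3⟩
      rw [this]
    · refine ⟨join_right h1 hy.1, fun u hu v hv huv => ?_⟩
      obtain ⟨s, t, hs, ht, hst, he⟩ := huv
      have e2 : s * u.2 + t * v.2 = 1 := congrArg (fun q => q.2) he
      have hu2 := (join_snd hu).2
      have hv2 := (join_snd hv).2
      have a1 := mul_nonneg hs.le (sub_nonneg.2 hu2)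
      have a2 := mul_nonneg ht.le (sub_nonneg.2 hv2)
      have b1 : u.2 = 1 := by
        rcases mul_eq_zero.1 (by linarith : s * (1 - u.2) = 0) with h | h
        · exact absurd h hs.ne'
        · linarith
      have b2 : v.2 = 1 := by
        rcases mul_eq_zero.1 (by linarith : t * (1 - v.2) = 0) with h | h
        · exact absurd h ht.ne'
        · linarith
      obtain ⟨xu, hxu, rfl⟩ := join_snd_one hu b1
      obtain ⟨xv, hxv, rfl⟩ := join_snd_one hv b2
      have e3 : s • xu + t • xv = y := congrArg (fun q => q.1.2) he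
      have := hy.2 hxu hxv ⟨s, t, hs, ht, hst, e3⟩
      rw [this]

theorem join_polytope (h1 : IsPolytope C₁) (h2 : IsPolytope C₂) : IsPolytope (joinSet C₁ C₂) := by
  obtain ⟨x, hx⟩ := h1.1
  refine ⟨⟨_, join_left h2.1 hx⟩, join_compact h1.2.1 h2.2.1, join_convex h1.2.2.1 h2.2.2.1, ?_⟩
  rw [join_extreme h1.1 h2.1]
  exact (h1.2.2.2.image _).union (h2.2.2.2.image _)

theorem join_ncard (h1 : IsPolytope C₁) (h2 : IsPolytope C₂) :
    ((joinSet C₁ C₂).extremePoints ℝ).ncard =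
      (C₁.extremePoints ℝ).ncard + (C₂.extremePoints ℝ).ncard := by
  rw [join_extreme h1.1 h2.1, Set.ncard_union_eq _ (h1.2.2.2.image _) (h2.2.2.2.image _),
    Set.ncard_image_of_injective, Set.ncard_image_of_injective]
  · intro a b h
    exact congrArg (fun q => q.1.2) h
  · intro a b h
    exact congrArg (fun q => q.1.1) h
  · rw [Set.disjoint_left]
    rintro _ ⟨x, _, rfl⟩ ⟨y, _, h⟩
    have : (1 : ℝ) = 0 := congrArg (fun q => q.2) h
    norm_num at this

end Pool.Agent.KS6_80.LD
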