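import Pool.Agent.KS6_80.LD.Join2

/-!
# The least dimension of a join, continued

Helper file for MP_ff4a33_gt.
-/

set_option autoImplicit false

open Finset

namespace Pool.Agent.KS6_80.LD

open Pool.Agent.X156.SR

variable {E₁ E₂ : Type*} [NormedAddCommGroup E₁] [NormedSpace ℝ E₁] [NormedAddCommGroup E₂]
  [NormedSpace ℝ E₂]
variable {C₁ : Set E₁} {C₂ : Set E₂}

theorem join_le (h1 : IsPolytope C₁) (h2 : IsPolytope C₂) :
    Factors (joinSet C₁ C₂) (factorRank C₁ + factorRank C₂) := by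
  classical
  have n1 : C₁.Nonempty := h1.1
  have n2 : C₂.Nonempty := h2.1
  obtain ⟨P₁, W₁, hP₁, hW₁, hPW₁⟩ := full_factor h1
  obtain ⟨P₂, W₂, hP₂, hW₂, hPW₂⟩ := full_factor h2
  have hr1 : ∀ η ∈ Omega (joinSet C₁ C₂),
      (fun x : C₁ => η ⟨_, join_left n2 x.2⟩) ∈ Omega C₁ := by
    intro η hη
    refine ⟨fun x => hη.1 _, fun a b c t h0 h1 hc => hη.2 _ _ _ t h0 h1 ?_⟩
    change (((c : E₁), (0 : E₂)), (0 : ℝ)) = t • (((a : E₁), (0 : E₂)), (0 : ℝ)) +
      (1 - t) • (((b : E₁), (0 : E₂)), (0 : ℝ))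
    rw [hc]
    simp
  have hr2 : ∀ η ∈ Omega (joinSet C₁ C₂),
      (fun y : C₂ => η ⟨_, join_right n1 y.2⟩) ∈ Omega C₂ := by
    intro η hη
    refine ⟨fun x => hη.1 _, fun a b c t h0 h1 hc => hη.2 _ _ _ t h0 h1 ?_⟩
    change (((0 : E₁), (c : E₂)), (1 : ℝ)) = t • (((0 : E₁), (a : E₂)), (1 : ℝ)) +
      (1 - t) • (((0 : E₁), (b : E₂)), (1 : ℝ))
    rw [hc]
    simp
  refine ⟨fun p => if p.2 = 0 then Fin.append (P₁ p.1.1) 0 else Fin.append 0 (P₂ p.1.2),
    fun η => Fin.append (W₁ fun x => η ⟨_, join_left n2 x.2⟩)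
      (W₂ fun y => η ⟨_, join_right n1 y.2⟩), ?_, ?_, ?_⟩
  · intro p hp
    rw [join_extreme n1 n2] at hp
    rcases hp with ⟨x, hx, rfl⟩ | ⟨y, hy, rfl⟩
    · dsimp only
      rw [if_pos rfl, Fin.sum_univ_add]
      refine ⟨fun i => ?_, ?_⟩
      · refine Fin.addCases (fun j => ?_) (fun j => ?_) i
        · rw [Fin.append_left]; exact (hP₁ x hx.1).1 j
        · rw [Fin.append_right]; exact le_refl _
      · simp only [Fin.append_left, Fin.append_right, Pi.zero_apply, Finset.sum_const_zero,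
          add_zero]
        exact (hP₁ x hx.1).2
    · dsimp only
      rw [if_neg one_ne_zero, Fin.sum_univ_add]
      refine ⟨fun i => ?_, ?_⟩
      · refine Fin.addCases (fun j => ?_) (fun j => ?_) i
        · rw [Fin.append_left]; exact le_refl _
        · rw [Fin.append_right]; exact (hP₂ y hy.1).1 j
      · simp only [Fin.append_left, Fin.append_right, Pi.zero_apply, Finset.sum_const_zero,
          zero_add]
        exact (hP₂ y hy.1).2
  · intro η hη i
    dsimp only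
    refine Fin.addCases (fun j => ?_) (fun j => ?_) i
    · rw [Fin.append_left]; exact hW₁ _ (hr1 η hη.1) j
    · rw [Fin.append_right]; exact hW₂ _ (hr2 η hη.1) j
  · rintro ⟨p, hpJ⟩ hp η hη
    rw [join_extreme n1 n2] at hp
    rcases hp with ⟨x, hx, rfl⟩ | ⟨y, hy, rfl⟩
    · dsimp only
      rw [if_pos rfl, Fin.sum_univ_add]
      simp only [Fin.append_left, Fin.append_right, Pi.zero_apply, zero_mul,
        Finset.sum_const_zero, add_zero]
      exact hPW₁ ⟨x, hx.1⟩ _ (hr1 η hη.1)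
    · dsimp only
      rw [if_neg one_ne_zero, Fin.sum_univ_add]
      simp only [Fin.append_left, Fin.append_right, Pi.zero_apply, zero_mul,
        Finset.sum_const_zero, zero_add]
      exact hPW₂ ⟨y, hy.1⟩ _ (hr2 η hη.1)

theorem join_ge (h1 : IsPolytope C₁) (h2 : IsPolytope C₂) :
    factorRank C₁ + factorRank C₂ ≤ factorRank (joinSet C₁ C₂) := by
  classical
  have n1 : C₁.Nonempty := h1.1
  have n2 : C₂.Nonempty := h2.1
  have hJ := join_polytope h1 h2
  obtain ⟨P, W, hP, hW, hPW⟩ := full_factor hJ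
  have hχ : (fun p : joinSet C₁ C₂ => (p : (E₁ × E₂) × ℝ).2) ∈ Omega (joinSet C₁ C₂) := by
    refine ⟨fun p => join_snd p.2, fun a b c t _ _ hc => ?_⟩
    dsimp only
    rw [hc]
    simp
  obtain ⟨χ, hχe⟩ : ∃ χ : joinSet C₁ C₂ → ℝ,
      χ = fun p : joinSet C₁ C₂ => (p : (E₁ × E₂) × ℝ).2 := ⟨_, rfl⟩
  rw [← hχe] at hχ
  have hz : ∀ x ∈ C₁, ∀ i, i ∉ univ.filter (fun i => W χ i = 0) →
      P (((x, 0), 0) : (E₁ × E₂) × ℝ) i = 0 := by
    intro x hx i hi
    rw [Finset.mem_filter, not_and] at hi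
    have h3 := hPW ⟨_, join_left n2 hx⟩ χ hχ
    have h4 : χ ⟨_, join_left n2 hx⟩ = 0 := by rw [hχe]
    rw [h4] at h3
    have h5 := (Finset.sum_eq_zero_iff_of_nonneg fun i _ =>
      mul_nonneg ((hP _ (join_left n2 hx)).1 i) (hW χ hχ i).1).1 h3.symm i (Finset.mem_univ i)
    rcases mul_eq_zero.1 h5 with h | h
    · exact h
    · exact absurd h (hi (Finset.mem_univ i))
  have ho : ∀ y ∈ C₂, ∀ i, i ∉ univ.filter (fun i => W χ i = 1) →
      P (((0, y), 1) : (E₁ × E₂) × ℝ) i = 0 := by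
    intro y hy i hi
    rw [Finset.mem_filter, not_and] at hi
    have h3 := hPW ⟨_, join_right n1 hy⟩ χ hχ
    have h4 : χ ⟨_, join_right n1 hy⟩ = 1 := by rw [hχe]
    rw [h4] at h3
    have h6 : ∑ i, P (((0, y), 1) : (E₁ × E₂) × ℝ) i * (1 - W χ i) = 0 := by
      simp only [mul_sub, mul_one, Finset.sum_sub_distrib]
      rw [(hP _ (join_right n1 hy)).2, ← h3, sub_self]
    have h5 := (Finset.sum_eq_zero_iff_of_nonneg fun i _ =>
      mul_nonneg ((hP _ (join_right n1 hy)).1 i)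
        (sub_nonneg.2 (hW χ hχ i).2)).1 h6 i (Finset.mem_univ i)
    rcases mul_eq_zero.1 h5 with h | h
    · exact h
    · exact absurd (by linarith : W χ i = 1) (hi (Finset.mem_univ i))
  have f1 : Factors C₁ (univ.filter (fun i => W χ i = 0)).card := by
    refine factors_of_support hP hW hPW (ι := fun x => (((x, 0), 0) : (E₁ × E₂) × ℝ))
      (fun x hx => join_left n2 hx) _ hz ?_
    intro η hη
    refine ⟨_, cone_ext (J := joinSet C₁ C₂) (θ := fun p => 1 - p.2)
      (π := (LinearMap.fst ℝ E₁ E₂).comp (LinearMap.fst ℝ (E₁ × E₂) ℝ)) ?_ ?_ ?_ ?_ hη, ?_⟩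
    · intro p hp
      have := join_snd hp
      constructor <;> linarith
    · intro p q t
      simp only [Prod.snd_add, Prod.smul_snd, smul_eq_mul]
      ring
    · rintro _ ⟨x, hx, y, hy, b, hb0, hb1, rfl⟩ h
      change (1 - b)⁻¹ • ((1 - b) • x) ∈ C₁
      rw [smul_smul, inv_mul_cancel₀ h, one_smul]
      exact hx
    · rintro _ ⟨x, hx, y, hy, b, hb0, hb1, rfl⟩ h
      change (1 - b) • x = 0
      have h : 1 - b = 0 := h
      rw [h, zero_smul]
    · intro x hx
      change (1 - (0 : ℝ)) * ext0 η ((1 - (0 : ℝ))⁻¹ • x) = η ⟨x, hx⟩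
      rw [sub_zero, inv_one, one_smul, one_mul]
      exact ext0_eq η ⟨x, hx⟩
  have f2 : Factors C₂ (univ.filter (fun i => W χ i = 1)).card := by
    refine factors_of_support hP hW hPW (ι := fun y => (((0, y), 1) : (E₁ × E₂) × ℝ))
      (fun y hy => join_right n1 hy) _ ho ?_
    intro η hη
    refine ⟨_, cone_ext (J := joinSet C₁ C₂) (θ := fun p => p.2)
      (π := (LinearMap.snd ℝ E₁ E₂).comp (LinearMap.fst ℝ (E₁ × E₂) ℝ)) ?_ ?_ ?_ ?_ hη, ?_⟩
    · intro p hp
      exact join_snd hp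
    · intro p q t
      simp only [Prod.snd_add, Prod.smul_snd, smul_eq_mul]
    · rintro _ ⟨x, hx, y, hy, b, hb0, hb1, rfl⟩ h
      change b⁻¹ • (b • y) ∈ C₂
      rw [smul_smul, inv_mul_cancel₀ h, one_smul]
      exact hy
    · rintro _ ⟨x, hx, y, hy, b, hb0, hb1, rfl⟩ h
      change b • y = 0
      have h : b = 0 := h
      rw [h, zero_smul]
    · intro y hy
      change (1 : ℝ) * ext0 η ((1 : ℝ)⁻¹ • y) = η ⟨y, hy⟩
      rw [inv_one, one_smul, one_mul]
      exact ext0_eq η ⟨y, hy⟩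
  have g1 := (factors_iff h1).1 f1
  have g2 := (factors_iff h2).1 f2
  have hdisj : Disjoint (univ.filter (fun i => W χ i = 0)) (univ.filter (fun i => W χ i = 1)) := by
    rw [Finset.disjoint_filter]
    intro i _ h h'
    rw [h] at h'
    norm_num at h'
  have g3 := Finset.card_le_univ (univ.filter (fun i => W χ i = 0) ∪
    univ.filter (fun i => W χ i = 1))
  rw [Finset.card_union_of_disjoint hdisj, Fintype.card_fin] at g3
  omega

/-- The least dimension of a join. -/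
theorem join_factorRank (h1 : IsPolytope C₁) (h2 : IsPolytope C₂) :
    factorRank (joinSet C₁ C₂) = factorRank C₁ + factorRank C₂ :=
  le_antisymm ((factors_iff (join_polytope h1 h2)).1 (join_le h1 h2)) (join_ge h1 h2)

end Pool.Agent.KS6_80.LD
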