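import Pool.Agent.KS6_80.LD.Fac

/-!
# The lower bounds, and the finiteness of the number of the extreme forms

Helper file for MP_ff4a33_gt.
-/

set_option autoImplicit false

open Finset

namespace Pool.Agent.KS6_80.LD

open Pool.Agent.X156.SR

variable {E : Type*} [NormedAddCommGroup E] [NormedSpace ℝ E]

/-! ### Extreme forms -/

theorem exists_eps {a b : ℝ} (h0 : 0 ≤ a) (h1 : a ≤ 1) (e0 : a = 0 → b = 0) (e1 : a = 1 → b = 1) :
    ∀ᶠ ε in nhdsWithin (0 : ℝ) (Set.Ioi 0), 0 ≤ (1 + ε) * a - ε * b ∧ (1 + ε) * a - ε * b ≤ 1 := by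
  by_cases ha0 : a = 0
  · refine Filter.Eventually.of_forall fun ε => ?_
    rw [ha0, e0 ha0]; simp
  · by_cases ha1 : a = 1
    · refine Filter.Eventually.of_forall fun ε => ?_
      rw [ha1, e1 ha1]
      constructor <;> linarith
    · have hpos : 0 < a := lt_of_le_of_ne h0 (Ne.symm ha0)
      have hlt : a < 1 := lt_of_le_of_ne h1 ha1
      have hc : Continuous fun ε : ℝ => (1 + ε) * a - ε * b := by fun_prop
      have h2 : Filter.Tendsto (fun ε : ℝ => (1 + ε) * a - ε * b) (nhds 0) (nhds a) := by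
        have := hc.tendsto 0
        simpa using this
      have h3 := h2.eventually (Ioo_mem_nhds hpos hlt)
      have h4 : ∀ᶠ ε in nhdsWithin (0 : ℝ) (Set.Ioi 0),
          (1 + ε) * a - ε * b ∈ Set.Ioo (0 : ℝ) 1 := nhdsWithin_le_nhds h3
      exact h4.mono fun ε hε => ⟨hε.1.le, hε.2.le⟩

/-- The number of the extreme forms is finite. -/
theorem finite_extreme_forms {C : Set E} (hC : IsPolytope C) :
    ((Omega C).extremePoints ℝ).Finite := by
  obtain ⟨m, c, hc, hm⟩ : ∃ (m : ℕ) (c : Fin m → E), Set.range c = C.extremePoints ℝ ∧ 0 < m := by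
    obtain ⟨c, _, hc, hm⟩ := exists_enum hC
    exact ⟨_, c, hc, hm⟩
  have hcX : ∀ j, c j ∈ C.extremePoints ℝ := fun j => by rw [← hc]; exact ⟨j, rfl⟩
  have hcC : ∀ j, c j ∈ C := fun j => (hcX j).1
  let Θ : (C → ℝ) → Set (Fin m) × Set (Fin m) := fun η =>
    ({j | η ⟨c j, hcC j⟩ = 0}, {j | η ⟨c j, hcC j⟩ = 1})
  apply Set.Finite.of_injOn (f := Θ) (t := Set.univ) (fun _ _ => Set.mem_univ _) ?_
    Set.finite_univ
  intro η hη η' hη' hΘ
  have hz : ∀ j, η ⟨c j, hcC j⟩ = 0 → η' ⟨c j, hcC j⟩ = 0 := by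
    intro j hj
    have h1 : j ∈ (Θ η).1 := hj
    rw [hΘ] at h1
    exact h1
  have ho : ∀ j, η ⟨c j, hcC j⟩ = 1 → η' ⟨c j, hcC j⟩ = 1 := by
    intro j hj
    have h1 : j ∈ (Θ η).2 := hj
    rw [hΘ] at h1
    exact h1
  have hev : ∀ᶠ ε in nhdsWithin (0 : ℝ) (Set.Ioi 0), ∀ j : Fin m,
      0 ≤ (1 + ε) * η ⟨c j, hcC j⟩ - ε * η' ⟨c j, hcC j⟩ ∧
      (1 + ε) * η ⟨c j, hcC j⟩ - ε * η' ⟨c j, hcC j⟩ ≤ 1 :=
    Filter.eventually_all.2 fun j =>
      exists_eps (hη.1.1 _).1 (hη.1.1 _).2 (hz j) (ho j)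
  obtain ⟨ε, hε, hε0⟩ := (hev.and self_mem_nhdsWithin).exists
  have hε0 : 0 < ε := hε0
  let ζ : C → ℝ := fun x => (1 + ε) * η x - ε * η' x
  have hconv := hC.2.2.1
  have hζ : ζ ∈ Omega C := by
    refine ⟨fun x => ?_, ?_⟩
    · have hx : (x : E) ∈ convexHull ℝ (Set.range c) := by
        rw [hc, ← eq_convexHull hC]; exact x.2
      obtain ⟨w, hw0, hw1, hw⟩ := mem_convexHull_range hx
      have h1 := form_sum hconv hη.1 hcC ⟨hw0, hw1⟩ x hw.symm
      have h2 := form_sum hconv hη'.1 hcC ⟨hw0, hw1⟩ x hw.symm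
      have h3 : ζ x = ∑ j, w j * ((1 + ε) * η ⟨c j, hcC j⟩ - ε * η' ⟨c j, hcC j⟩) := by
        change (1 + ε) * η x - ε * η' x = _
        rw [h1, h2, Finset.mul_sum, Finset.mul_sum, ← Finset.sum_sub_distrib]
        exact Finset.sum_congr rfl fun j _ => by ring
      rw [h3]
      constructor
      · exact Finset.sum_nonneg fun j _ => mul_nonneg (hw0 j) (hε j).1
      · calc ∑ j, w j * ((1 + ε) * η ⟨c j, hcC j⟩ - ε * η' ⟨c j, hcC j⟩) ≤ ∑ j, w j :=
              Finset.sum_le_sum fun j _ => mul_le_of_le_one_right (hw0 j) (hε j).2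
          _ = 1 := hw1
    · intro x y z t h0 h1 h
      change (1 + ε) * η z - ε * η' z = t * ((1 + ε) * η x - ε * η' x) +
        (1 - t) * ((1 + ε) * η y - ε * η' y)
      rw [hη.1.2 x y z t h0 h1 h, hη'.1.2 x y z t h0 h1 h]
      ring
  have hseg : η ∈ openSegment ℝ ζ η' := by
    refine ⟨1 / (1 + ε), ε / (1 + ε), by positivity, by positivity, by field_simp, ?_⟩
    funext x
    simp only [Pi.add_apply, Pi.smul_apply, smul_eq_mul, ζ]
    field_simp
    ring
  have hseg' : η ∈ openSegment ℝ η' ζ := by rw [openSegment_symm]; exact hseg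
  exact (hη.2 hη'.1 hζ hseg').symm

/-! ### Distinguishable points -/

/-- The points `a` and `b` are distinguishable: some form vanishes at `a` and is `1` at `b`. -/
def Dist (C : Set E) (a b : E) : Prop :=
  ∃ η ∈ Omega C, (∀ x : C, (x : E) = a → η x = 0) ∧ ∀ x : C, (x : E) = b → η x = 1

theorem card_le_of_dist {C : Set E} {N : ℕ} {P : E → Fin N → ℝ} {W : (C → ℝ) → Fin N → ℝ}
    (hP : ∀ x ∈ C, (∀ i, 0 ≤ P x i) ∧ ∑ i, P x i = 1)
    (hW : ∀ η ∈ Omega C, ∀ i, 0 ≤ W η i ∧ W η i ≤ 1)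
    (hPW : ∀ x : C, ∀ η ∈ Omega C, η x = ∑ i, P x i * W η i)
    {A : Finset E} (hA : (A : Set E) ⊆ C)
    (hd : ∀ a ∈ A, ∀ b ∈ A, a ≠ b → Dist C a b) : A.card ≤ N := by
  classical
  have hex : ∀ a : E, ∃ i : Option (Fin N), a ∈ A → ∃ j, i = some j ∧ P a j ≠ 0 := by
    intro a
    by_cases ha : a ∈ A
    · have h1 := (hP a (hA ha)).2
      have h2 : ∃ j, P a j ≠ 0 := by
        by_contra h
        push Not at h
        rw [Finset.sum_eq_zero fun i _ => h i] at h1
        norm_num at h1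
      obtain ⟨j, hj⟩ := h2
      exact ⟨some j, fun _ => ⟨j, rfl, hj⟩⟩
    · exact ⟨none, fun h => absurd h ha⟩
  choose s hs using hex
  have hinj : Set.InjOn s A := by
    intro a ha b hb hab
    by_contra hne
    obtain ⟨j, hj, hja⟩ := hs a ha
    obtain ⟨j', hj', hjb⟩ := hs b hb
    rw [hab, hj', Option.some.injEq] at hj
    subst hj
    obtain ⟨η, hη, h0, h1⟩ := hd a ha b hb hne
    have h0' := h0 ⟨a, hA ha⟩ rfl
    have h1' := h1 ⟨b, hA hb⟩ rfl
    rw [hPW _ η hη] at h0' h1'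
    have t0 := (Finset.sum_eq_zero_iff_of_nonneg fun i _ =>
      mul_nonneg ((hP a (hA ha)).1 i) (hW η hη i).1).1 h0' j' (Finset.mem_univ _)
    have w0 : W η j' = 0 := by
      rcases mul_eq_zero.1 t0 with h | h
      · exact absurd h hja
      · exact h
    have h2 : ∑ i, P b i * (1 - W η i) = 0 := by
      have e : ∀ i ∈ (Finset.univ : Finset (Fin N)), P b i * (1 - W η i) =
          P b i - P b i * W η i := fun i _ => by ring
      rw [Finset.sum_congr rfl e, Finset.sum_sub_distrib, (hP b (hA hb)).2]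
      have h1'' : ∑ i, P b i * W η i = 1 := h1'
      rw [h1'', sub_self]
    have t1 := (Finset.sum_eq_zero_iff_of_nonneg fun i _ =>
      mul_nonneg ((hP b (hA hb)).1 i) (by linarith [(hW η hη i).2])).1 h2 j' (Finset.mem_univ _)
    rw [w0, sub_zero, mul_one] at t1
    exact hjb t1
  have hsub : A.image s ⊆ (Finset.univ : Finset (Fin N)).map Function.Embedding.some := by
    intro x hx
    rw [Finset.mem_image] at hx
    obtain ⟨a, ha, rfl⟩ := hx
    obtain ⟨j, hj, _⟩ := hs a ha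
    rw [hj]
    simp
  have := Finset.card_le_card hsub
  rw [Finset.card_image_of_injOn hinj, Finset.card_map, Finset.card_univ, Fintype.card_fin] at this
  exact this

/-! ### Small refinements -/

theorem lift_functional {C : Set E} (hcomp : IsCompact C) (hne : C.Nonempty) {N : ℕ}
    {P : E → Fin N → ℝ} {W : (C → ℝ) → Fin N → ℝ}
    (hP : ∀ x ∈ C, (∀ i, 0 ≤ P x i) ∧ ∑ i, P x i = 1)
    (hW : ∀ η ∈ Omega C, ∀ i, 0 ≤ W η i ∧ W η i ≤ 1)
    (hPW : ∀ x : C, ∀ η ∈ Omega C, η x = ∑ i, P x i * W η i) (φ : E →L[ℝ] ℝ) :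
    ∃ w : Fin N → ℝ, (∀ i, ∃ l ∈ C, φ l ≤ w i) ∧ ∀ x ∈ C, φ x = ∑ i, P x i * w i := by
  obtain ⟨x0, hx0⟩ := hne
  obtain ⟨u, hu, hmax⟩ := hcomp.exists_isMaxOn ⟨x0, hx0⟩ φ.continuous.continuousOn
  obtain ⟨l, hl, hmin⟩ := hcomp.exists_isMinOn ⟨x0, hx0⟩ φ.continuous.continuousOn
  have h1 : ∀ c ∈ C, φ c ≤ φ u := fun c hc => hmax hc
  have h2 : ∀ c ∈ C, φ l ≤ φ c := fun c hc => hmin hc
  by_cases hd : φ u - φ l = 0
  · refine ⟨fun _ => φ l, fun i => ⟨l, hl, le_refl _⟩, fun x hx => ?_⟩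
    rw [← Finset.sum_mul, (hP x hx).2, one_mul]
    have := h1 x hx
    have := h2 x hx
    linarith
  · have hd' : 0 < φ u - φ l := lt_of_le_of_ne (by linarith [h1 l hl]) (Ne.symm hd)
    have hη : (fun c : C => (φ c - φ l) / (φ u - φ l)) ∈ Omega C := by
      refine ⟨fun a => ⟨?_, ?_⟩, ?_⟩
      · exact div_nonneg (by linarith [h2 a a.2]) hd'.le
      · rw [div_le_one hd']; linarith [h1 a a.2]
      · intro a b c t _ _ hc
        dsimp only
        rw [hc, map_add, map_smul, map_smul, smul_eq_mul, smul_eq_mul]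
        field_simp
        ring
    obtain ⟨η0, hη0⟩ : ∃ η0 : C → ℝ, η0 = fun c : C => (φ c - φ l) / (φ u - φ l) := ⟨_, rfl⟩
    rw [← hη0] at hη
    refine ⟨fun i => φ l + (φ u - φ l) * W η0 i, fun i => ⟨l, hl, ?_⟩, fun x hx => ?_⟩
    · have := mul_nonneg hd'.le (hW _ hη i).1
      linarith
    · have h3 := hPW ⟨x, hx⟩ _ hη
      have h3' : η0 ⟨x, hx⟩ = (φ x - φ l) / (φ u - φ l) := by rw [hη0]
      rw [h3', div_eq_iff hd] at h3
      have h4 : φ x = φ l * ∑ i, P x i + (φ u - φ l) * ∑ i, P x i * W η0 i := by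
        rw [(hP x hx).2]
        linarith
      rw [h4, Finset.mul_sum, Finset.mul_sum, ← Finset.sum_add_distrib]
      exact Finset.sum_congr rfl fun i _ => by ring

theorem eq_of_functionals {x y : E} (h : ∀ φ : E →L[ℝ] ℝ, φ x = φ y) : x = y := by
  by_contra hne
  obtain ⟨φ, hφ⟩ := SeparatingDual.exists_separating_of_ne (R := ℝ) hne
  exact hφ (h φ)

/-- A polytope with a small factorization is a simplex. -/
theorem simplex_of_small [FiniteDimensional ℝ E] {C : Set E} (hC : IsPolytope C) {N : ℕ}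
    {P : E → Fin N → ℝ} {W : (C → ℝ) → Fin N → ℝ}
    (hP : ∀ x ∈ C, (∀ i, 0 ≤ P x i) ∧ ∑ i, P x i = 1)
    (hW : ∀ η ∈ Omega C, ∀ i, 0 ≤ W η i ∧ W η i ≤ 1)
    (hPW : ∀ x : C, ∀ η ∈ Omega C, η x = ∑ i, P x i * W η i)
    (hN : N ≤ Module.finrank ℝ (vectorSpan ℝ C) + 1) : IsSimplex C := by
  classical
  have hcomp := hC.2.1
  have hconv := hC.2.2.1
  have hlift := lift_functional hcomp hC.1 hP hW hPW
  obtain ⟨t, htC, hspan, hind⟩ := exists_affineIndependent ℝ E C
  have hfin : t.Finite := finite_set_of_fin_dim_affineIndependent ℝ hind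
  have : Fintype t := hfin.fintype
  have htne : t.Nonempty := by
    rw [← affineSpan_nonempty (k := ℝ), hspan, affineSpan_nonempty]
    exact hC.1
  have : Nonempty t := htne.to_subtype
  have hcard : Module.finrank ℝ (vectorSpan ℝ C) + 1 = Fintype.card t := by
    rw [← hind.finrank_vectorSpan_add_one, Subtype.range_coe, ← direction_affineSpan,
      ← direction_affineSpan, hspan]
  have hli : LinearIndependent ℝ (fun x : t => P x) := by
    rw [Fintype.linearIndependent_iff]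
    intro g hg
    have hsum : ∑ x, g x = 0 := by
      have h1 : ∑ i, (∑ x : t, g x • P x) i = 0 := by rw [hg]; simp
      simp only [Finset.sum_apply, Pi.smul_apply, smul_eq_mul] at h1
      rw [Finset.sum_comm] at h1
      rw [← h1]
      refine Finset.sum_congr rfl fun x _ => ?_
      rw [← Finset.mul_sum, (hP x (htC x.2)).2, mul_one]
    have hvec : ∑ x : t, g x • (x : E) = 0 := by
      apply eq_of_functionals
      intro φ
      obtain ⟨w, _, hw⟩ := hlift φ
      rw [map_sum, map_zero]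
      have h1 : ∑ i, (∑ x : t, g x • P x) i * w i = 0 := by rw [hg]; simp
      rw [← h1]
      simp only [Finset.sum_apply, Pi.smul_apply, smul_eq_mul, Finset.sum_mul, map_smul]
      rw [Finset.sum_comm]
      refine Finset.sum_congr rfl fun x _ => ?_
      rw [hw x (htC x.2), Finset.mul_sum]
      exact Finset.sum_congr rfl fun i _ => by ring
    intro x
    exact affineIndependent_iff.1 hind Finset.univ g hsum hvec x (Finset.mem_univ x)
  have hle := hli.fintype_card_le_finrank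
  rw [Module.finrank_fin_fun] at hle
  have hNeq : N = Module.finrank ℝ (vectorSpan ℝ C) + 1 := by omega
  have htop := hli.span_eq_top_of_card_eq_finrank (by rw [Module.finrank_fin_fun]; omega)
  have hex : ∀ i : Fin N, ∃ c : t → ℝ, ∑ x, c x • P x = Pi.single i (1 : ℝ) := by
    intro i
    rw [← Submodule.mem_span_range_iff_exists_fun, htop]
    exact Submodule.mem_top
  choose c hc using hex
  have hcs : ∀ i, ∑ x, c i x = 1 := by
    intro i
    have h1 : ∑ k, (∑ x : t, c i x • P x) k = 1 := by rw [hc i]; simp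
    simp only [Finset.sum_apply, Pi.smul_apply, smul_eq_mul] at h1
    rw [Finset.sum_comm] at h1
    rw [← h1]
    refine Finset.sum_congr rfl fun x _ => ?_
    rw [← Finset.mul_sum, (hP x (htC x.2)).2, mul_one]
  let p : Fin N → E := fun i => ∑ x : t, c i x • (x : E)
  have hφp : ∀ (φ : E →L[ℝ] ℝ) (w : Fin N → ℝ), (∀ x ∈ C, φ x = ∑ i, P x i * w i) →
      ∀ i, φ (p i) = w i := by
    intro φ w hw i
    have h1 : ∑ k, (∑ x : t, c i x • P x) k * w k = w i := by
      rw [hc i]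
      simp [Pi.single_apply]
    rw [← h1]
    simp only [p, map_sum, Finset.sum_apply, Pi.smul_apply, smul_eq_mul, Finset.sum_mul, map_smul]
    rw [Finset.sum_comm]
    refine Finset.sum_congr rfl fun x _ => ?_
    rw [hw x (htC x.2), Finset.mul_sum]
    exact Finset.sum_congr rfl fun k _ => by ring
  have hpC : ∀ i, p i ∈ C := by
    intro i
    by_contra hnot
    obtain ⟨φ, u, h1, h2⟩ := geometric_hahn_banach_point_closed hconv hcomp.isClosed hnot
    obtain ⟨w, hwl, hw⟩ := hlift φ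
    obtain ⟨l, hl, hlw⟩ := hwl i
    have h3 := hφp φ w hw i
    have h4 := h2 l hl
    linarith
  have hxp : ∀ x ∈ C, ∑ i, P x i • p i = x := by
    intro x hx
    apply eq_of_functionals
    intro φ
    obtain ⟨w, _, hw⟩ := hlift φ
    rw [map_sum, hw x hx]
    refine Finset.sum_congr rfl fun i _ => ?_
    rw [map_smul, smul_eq_mul, hφp φ w hw i]
  have hCeq : C = convexHull ℝ (Set.range p) := by
    apply Set.Subset.antisymm
    · intro x hx
      rw [← hxp x hx]
      exact (convex_convexHull ℝ _).sum_mem (fun i _ => (hP x hx).1 i) (hP x hx).2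
        fun i _ => subset_convexHull ℝ _ ⟨i, rfl⟩
    · apply convexHull_min _ hconv
      rintro _ ⟨i, rfl⟩
      exact hpC i
  have hvs : vectorSpan ℝ C = vectorSpan ℝ (Set.range p) := by
    have h1 : affineSpan ℝ C = affineSpan ℝ (Set.range p) := by
      conv_lhs => rw [hCeq]
      exact affineSpan_convexHull _
    rw [← direction_affineSpan, h1, direction_affineSpan]
  clear_value p
  obtain ⟨d, hd⟩ : ∃ d, Module.finrank ℝ (vectorSpan ℝ C) = d := ⟨_, rfl⟩
  rw [hd] at hNeq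
  subst hNeq
  refine ⟨d, p, ?_, hCeq⟩
  rw [affineIndependent_iff_finrank_vectorSpan_eq ℝ p (Fintype.card_fin _), ← hvs, hd]

end Pool.Agent.KS6_80.LD
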