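import Pool.Agent.KS6_80.LD.Low

/-!
# The least dimension

Helper file for MP_ff4a33_gt.
-/

set_option autoImplicit false

open Finset

namespace Pool.Agent.KS6_80.LD

open Pool.Agent.X156.SR

/-- The dimensions of the simplices `T` over all simplicial refinements `(T, Ω T, f, g)` of the
statistical model `(C, Ω C)`. -/
def refinementDims {E : Type*} [AddCommGroup E] [Module ℝ E] (C : Set E) : Set ℕ :=
  {n | ∃ (F : Type) (_ : AddCommGroup F) (_ : Module ℝ F) (T : Set F) (f : F →. E)
    (g : (T → ℝ) →. (C → ℝ)), IsRefinement C T f g ∧ Module.finrank ℝ (vectorSpan ℝ T) = n}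

/-- The least `N` for which the matrix of the values of the extreme forms at the extreme points
factors as in `Factors`. -/
noncomputable def factorRank {E : Type*} [AddCommGroup E] [Module ℝ E] (C : Set E) : ℕ :=
  sInf {N | Factors C N}

theorem Factors.succ {E : Type*} [AddCommGroup E] [Module ℝ E] {C : Set E} {N : ℕ}
    (h : Factors C N) : Factors C (N + 1) := by
  obtain ⟨P, W, h1, h2, h3⟩ := h
  refine ⟨fun x => Fin.snoc (P x) 0, fun η => Fin.snoc (W η) 0, fun x hx => ⟨fun i => ?_, ?_⟩,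
    fun η hη i => ?_, fun x hx η hη => ?_⟩
  · refine Fin.lastCases ?_ (fun j => ?_) i
    · simp
    · simpa using (h1 x hx).1 j
  · rw [Fin.sum_univ_castSucc]
    simpa using (h1 x hx).2
  · refine Fin.lastCases ?_ (fun j => ?_) i
    · simp
    · simpa using h2 η hη j
  · rw [Fin.sum_univ_castSucc]
    simpa using h3 x hx η hη

variable {E : Type*} [NormedAddCommGroup E] [NormedSpace ℝ E]

theorem mem_dims {C : Set E} (hC : IsPolytope C) {n : ℕ} :
    n ∈ refinementDims C ↔ Factors C (n + 1) := by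
  constructor
  · rintro ⟨F, _, _, T, f, g, h, rfl⟩
    exact factors_of_refinement h
  · intro h
    obtain ⟨_, f, g, hfg⟩ := refinement_of_factors hC h
    refine ⟨Fin (n + 1) → ℝ, inferInstance, inferInstance, _, f, g, hfg, ?_⟩
    have h2 := finrank_stdSimplex (Fin (n + 1))
    rw [Fintype.card_fin] at h2
    omega

theorem factors_ncard {C : Set E} (hC : IsPolytope C) :
    Factors C (C.extremePoints ℝ).ncard := by
  obtain ⟨c, _, hc, hm⟩ := exists_enum hC
  have h1 := factors_of_refinement (proj_refinement hC hc hm)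
  have : Nonempty (Fin (C.extremePoints ℝ).ncard) := ⟨⟨0, hm⟩⟩
  have h2 := finrank_stdSimplex (Fin (C.extremePoints ℝ).ncard)
  rw [Fintype.card_fin] at h2
  rwa [h2] at h1

theorem factorRank_spec {C : Set E} (hC : IsPolytope C) : Factors C (factorRank C) :=
  Nat.sInf_mem (s := {N | Factors C N}) ⟨_, factors_ncard hC⟩

theorem factorRank_le {C : Set E} (hC : IsPolytope C) :
    factorRank C ≤ (C.extremePoints ℝ).ncard :=
  Nat.sInf_le (s := {N | Factors C N}) (factors_ncard hC)

theorem factorRank_pos {C : Set E} (hC : IsPolytope C) : 0 < factorRank C :=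
  (refinement_of_factors hC (factorRank_spec hC)).1

theorem factors_iff {C : Set E} (hC : IsPolytope C) {N : ℕ} :
    Factors C N ↔ factorRank C ≤ N := by
  constructor
  · exact fun h => Nat.sInf_le (s := {N | Factors C N}) h
  · intro h
    induction N, h using Nat.le_induction with
    | base => exact factorRank_spec hC
    | succ N _ ih => exact ih.succ

theorem dims_eq {C : Set E} (hC : IsPolytope C) :
    refinementDims C = Set.Ici (factorRank C - 1) := by
  ext n
  rw [mem_dims hC, factors_iff hC, Set.mem_Ici]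
  omega

theorem full_factor {C : Set E} (hC : IsPolytope C) :
    ∃ (P : E → Fin (factorRank C) → ℝ) (W : (C → ℝ) → Fin (factorRank C) → ℝ),
      (∀ x ∈ C, (∀ i, 0 ≤ P x i) ∧ ∑ i, P x i = 1) ∧
      (∀ η ∈ Omega C, ∀ i, 0 ≤ W η i ∧ W η i ≤ 1) ∧
      ∀ x : C, ∀ η ∈ Omega C, η x = ∑ i, P x i * W η i := by
  obtain ⟨r, hr⟩ : ∃ r, factorRank C = r + 1 := ⟨factorRank C - 1, by
    have := factorRank_pos hC; omega⟩
  have h1 : r ∈ refinementDims C := by
    rw [mem_dims hC, ← hr]; exact factorRank_spec hC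
  rw [hr]
  obtain ⟨F, _, _, T, f, g, h, hT⟩ := h1
  obtain ⟨n, v, hv, hTv⟩ := h.simplex
  have e : Module.finrank ℝ (vectorSpan ℝ T) = n := by rw [hTv]; exact finrank_of_isSimplex hv
  have e2 : n = r := e.symm.trans hT
  subst e2
  exact factor_of_refinement hTv h

theorem card_le_factorRank {C : Set E} (hC : IsPolytope C) {A : Finset E} (hA : (A : Set E) ⊆ C)
    (hd : ∀ a ∈ A, ∀ b ∈ A, a ≠ b → Dist C a b) : A.card ≤ factorRank C := by
  obtain ⟨P, W, hP, hW, hPW⟩ := full_factor hC
  exact card_le_of_dist hP hW hPW hA hd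

theorem dim_lt_factorRank [FiniteDimensional ℝ E] {C : Set E} (hC : IsPolytope C)
    (hs : ¬ IsSimplex C) : Module.finrank ℝ (vectorSpan ℝ C) + 2 ≤ factorRank C := by
  by_contra h
  obtain ⟨P, W, hP, hW, hPW⟩ := full_factor hC
  exact hs (simplex_of_small hC hP hW hPW (by omega))

theorem factorRank_eq_of_dist {C : Set E} (hC : IsPolytope C)
    (hd : ∀ a ∈ C.extremePoints ℝ, ∀ b ∈ C.extremePoints ℝ, a ≠ b → Dist C a b) :
    factorRank C = (C.extremePoints ℝ).ncard := by
  refine le_antisymm (factorRank_le hC) ?_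
  have hfin := hC.2.2.2
  rw [Set.ncard_eq_toFinset_card _ hfin]
  refine card_le_factorRank hC (A := hfin.toFinset) ?_ ?_
  · intro x hx
    rw [Set.Finite.coe_toFinset] at hx
    exact hx.1
  · intro a ha b hb hab
    rw [Set.Finite.mem_toFinset] at ha hb
    exact hd a ha b hb hab

/-! ### Polytopes whose vertices have coordinates `0` and `1` -/

variable {d : ℕ} {S : Finset (Fin d → ℝ)}

theorem hull_subset (h01 : ∀ x ∈ S, ∀ i, x i = 0 ∨ x i = 1) :
    convexHull ℝ (S : Set (Fin d → ℝ)) ⊆ Set.Icc 0 1 := by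
  apply convexHull_min _ (convex_Icc 0 1)
  intro x hx
  rw [Set.mem_Icc, Pi.le_def, Pi.le_def]
  constructor <;> intro i <;> rcases h01 x hx i with h | h <;> rw [h] <;> simp

theorem cube_extreme (d : ℕ) : (Set.Icc (0 : Fin d → ℝ) 1).extremePoints ℝ =
    Set.univ.pi fun _ : Fin d => ({0, 1} : Set ℝ) := by
  rw [← Set.pi_univ_Icc, extremePoints_pi]
  congr 1
  funext i
  simp [Set.extremePoints_Icc]

theorem hull_extreme (h01 : ∀ x ∈ S, ∀ i, x i = 0 ∨ x i = 1) :
    (convexHull ℝ (S : Set (Fin d → ℝ))).extremePoints ℝ = S := by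
  apply Set.Subset.antisymm extremePoints_convexHull_subset
  intro x hx
  apply inter_extremePoints_subset_extremePoints_of_subset (hull_subset h01)
  refine ⟨subset_convexHull ℝ _ hx, ?_⟩
  rw [cube_extreme]
  intro i _
  exact h01 x hx i

theorem hull_polytope (hS : S.Nonempty) (h01 : ∀ x ∈ S, ∀ i, x i = 0 ∨ x i = 1) :
    IsPolytope (convexHull ℝ (S : Set (Fin d → ℝ))) := by
  obtain ⟨x, hx⟩ := hS
  refine ⟨⟨x, subset_convexHull ℝ _ hx⟩, S.finite_toSet.isCompact_convexHull (𝕜 := ℝ),
    convex_convexHull ℝ _, ?_⟩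
  rw [hull_extreme h01]
  exact S.finite_toSet

theorem hull_factorRank (hS : S.Nonempty) (h01 : ∀ x ∈ S, ∀ i, x i = 0 ∨ x i = 1) :
    factorRank (convexHull ℝ (S : Set (Fin d → ℝ))) = S.card := by
  rw [factorRank_eq_of_dist (hull_polytope hS h01), hull_extreme h01, Set.ncard_coe_finset]
  intro a ha b hb hab
  rw [hull_extreme h01] at ha hb
  have hex : ∃ i, a i ≠ b i := by
    by_contra h
    push Not at h
    exact hab (funext h)
  obtain ⟨i, hi⟩ := hex
  have hmem : ∀ x : convexHull ℝ (S : Set (Fin d → ℝ)),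
      0 ≤ (x : Fin d → ℝ) i ∧ (x : Fin d → ℝ) i ≤ 1 :=
    fun x => ⟨(hull_subset h01 x.2).1 i, (hull_subset h01 x.2).2 i⟩
  rcases h01 a ha i with hai | hai
  · have hbi' : b i = 1 := by
      rcases h01 b hb i with h | h
      · exact absurd (hai.trans h.symm) hi
      · exact h
    refine ⟨fun x => (x : Fin d → ℝ) i, ⟨hmem, ?_⟩, ?_, ?_⟩
    · intro x y z t _ _ hz
      have := congrFun hz i
      simpa using this
    · rintro x rfl; exact hai
    · rintro x rfl; exact hbi'
  · have hbi' : b i = 0 := by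
      rcases h01 b hb i with h | h
      · exact h
      · exact absurd (hai.trans h.symm) hi
    refine ⟨fun x => 1 - (x : Fin d → ℝ) i, ⟨fun x => ⟨?_, ?_⟩, ?_⟩, ?_, ?_⟩
    · linarith [(hmem x).2]
    · linarith [(hmem x).1]
    · intro x y z t _ _ hz
      have h3 := congrFun hz i
      simp only [Pi.add_apply, Pi.smul_apply, smul_eq_mul] at h3
      change 1 - (z : Fin d → ℝ) i = t * (1 - (x : Fin d → ℝ) i) + (1 - t) * (1 - (y : Fin d → ℝ) i)
      rw [h3]
      ring
    · rintro x rfl; dsimp only; rw [hai, sub_self]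
    · rintro x rfl; dsimp only; rw [hbi', sub_zero]

end Pool.Agent.KS6_80.LD
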