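import Pool.Agent.KS6_80.LD.Four
import Pool.Graph.R_pool_sql_team_seeded_64922ed1.Results.MP_ff4a33_gt.LeastDimension

/-!
# The least dimension is not a function of the dimension and the number of the extreme points

Helper file for MP_ff4a33_gt.
-/

set_option autoImplicit false

open Finset

namespace Pool.Agent.KS6_80.LD

open Pool.Agent.X156.SR

theorem ncard_le_of_isSimplex {E : Type*} [AddCommGroup E] [Module ℝ E] {C : Set E}
    (h : IsSimplex C) : (C.extremePoints ℝ).ncard ≤ Module.finrank ℝ (vectorSpan ℝ C) + 1 := by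
  obtain ⟨n, v, hv, hC⟩ := h
  have e : Module.finrank ℝ (vectorSpan ℝ C) = n := by rw [hC]; exact finrank_of_isSimplex hv
  rw [e, hC]
  calc ((convexHull ℝ (Set.range v)).extremePoints ℝ).ncard ≤ (Set.range v).ncard :=
        Set.ncard_le_ncard extremePoints_convexHull_subset (Set.finite_range v)
    _ ≤ n + 1 := by
        rw [← Set.image_univ]
        refine (Set.ncard_image_le Set.finite_univ).trans ?_
        rw [Set.ncard_univ, Nat.card_eq_fintype_card, Fintype.card_fin]

theorem exists_hull (d m : ℕ) (h1 : d + 1 ≤ m) (h2 : m ≤ 2 ^ d) :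
    ∃ S : Finset (Fin d → ℝ), S.Nonempty ∧ (∀ x ∈ S, ∀ i, x i = 0 ∨ x i = 1) ∧ S.card = m ∧
      Module.finrank ℝ (vectorSpan ℝ (convexHull ℝ (S : Set (Fin d → ℝ)))) = d := by
  classical
  let ind : Finset (Fin d) → (Fin d → ℝ) := fun A i => if i ∈ A then 1 else 0
  have hind : Function.Injective ind := by
    intro A B h
    ext i
    have h3 := congrFun h i
    simp only [ind] at h3
    by_cases hA : i ∈ A <;> by_cases hB : i ∈ B <;> simp_all
  let U : Finset (Fin d → ℝ) := Finset.univ.image ind
  let T : Finset (Fin d → ℝ) := insert 0 (Finset.univ.image fun i : Fin d => Pi.single i (1 : ℝ))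
  have hU : U.card = 2 ^ d := by
    rw [Finset.card_image_of_injective _ hind, Finset.card_univ, Fintype.card_finset,
      Fintype.card_fin]
  have hT : T.card ≤ d + 1 := by
    refine (Finset.card_insert_le _ _).trans ?_
    have := Finset.card_image_le (s := (Finset.univ : Finset (Fin d)))
      (f := fun i : Fin d => (Pi.single i (1 : ℝ) : Fin d → ℝ))
    rw [Finset.card_univ, Fintype.card_fin] at this
    omega
  have hTU : T ⊆ U := by
    intro x hx
    rw [Finset.mem_insert, Finset.mem_image] at hx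
    rw [Finset.mem_image]
    rcases hx with rfl | ⟨i, _, rfl⟩
    · exact ⟨∅, Finset.mem_univ _, by funext i; simp [ind]⟩
    · refine ⟨{i}, Finset.mem_univ _, ?_⟩
      funext j
      simp only [ind, Finset.mem_singleton, Pi.single_apply]
  obtain ⟨S, hTS, hSU, hS⟩ := Finset.exists_subsuperset_card_eq hTU (hT.trans h1)
    (h2.trans hU.ge)
  refine ⟨S, ⟨0, hTS (Finset.mem_insert_self _ _)⟩, ?_, hS, ?_⟩
  · intro x hx i
    obtain ⟨A, _, rfl⟩ := Finset.mem_image.1 (hSU hx)
    simp only [ind]
    by_cases h : i ∈ A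
    · right; rw [if_pos h]
    · left; rw [if_neg h]
  · have htop : vectorSpan ℝ (convexHull ℝ (S : Set (Fin d → ℝ))) = ⊤ := by
      rw [eq_top_iff, ← (Pi.basisFun ℝ (Fin d)).span_eq, Submodule.span_le]
      rintro _ ⟨i, rfl⟩
      rw [Pi.basisFun_apply]
      have h3 : (Pi.single i (1 : ℝ) : Fin d → ℝ) ∈ convexHull ℝ (S : Set (Fin d → ℝ)) :=
        subset_convexHull ℝ _ (hTS (Finset.mem_insert_of_mem
          (Finset.mem_image.2 ⟨i, Finset.mem_univ _, rfl⟩)))
      have h4 : (0 : Fin d → ℝ) ∈ convexHull ℝ (S : Set (Fin d → ℝ)) :=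
        subset_convexHull ℝ _ (hTS (Finset.mem_insert_self _ _))
      have h5 := vsub_mem_vectorSpan ℝ h3 h4
      rwa [vsub_eq_sub, sub_zero] at h5
    rw [htop, finrank_top, Module.finrank_fin_fun]

theorem factorRank_le_leastDim {E : Type} [NormedAddCommGroup E] [NormedSpace ℝ E] {C : Set E}
    (hC : IsPolytope C) : factorRank C ≤ leastDim C + 1 := by
  obtain ⟨⟨κ, _, T, f, g, h, hT⟩, _⟩ := leastDim_spec hC
  rw [← hT]
  exact (factors_iff hC).1 (factors_of_refinement h)

theorem mul_succ_le_two_pow (d : ℕ) (hd : 5 ≤ d) : d * (d + 1) ≤ 2 ^ d := by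
  induction d, hd using Nat.le_induction with
  | base => norm_num
  | succ d hd ih =>
    rw [pow_succ]
    nlinarith

/-- Two models with the same dimension and the same number of extreme points, and different least
dimensions. -/
theorem exists_pair (d : ℕ) (hd : 5 ≤ d) :
    ∃ (C : Set (Fin d → ℝ)) (C' : Set (Fin (d + 1) → ℝ)),
      (IsPolytope C ∧ ¬ IsSimplex C ∧ Module.finrank ℝ (vectorSpan ℝ C) = d ∧
        (C.extremePoints ℝ).ncard = d * (d + 1) ∧
        refinementDims C = Set.Ici (d * (d + 1) - 1)) ∧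
      (IsPolytope C' ∧ ¬ IsSimplex C' ∧ Module.finrank ℝ (vectorSpan ℝ C') = d ∧
        (C'.extremePoints ℝ).ncard = d * (d + 1) ∧ 2 * d + 1 ∈ refinementDims C') := by
  have h0 : d + 1 < d * (d + 1) := by nlinarith
  obtain ⟨S, hS, h01, hcard, hspan⟩ := exists_hull d (d * (d + 1)) h0.le (mul_succ_le_two_pow d hd)
  obtain ⟨C', h1, h2, h3, h4, h5⟩ :=
    Pool.Agent.Results.MP_ff4a33_gt.LeastDimension.family (d + 1) d (by omega) (by omega)
  have hch : 2 * (d + 1).choose (d - 1) = d * (d + 1) := by
    have e1 : (d + 1).choose (d - 1) = (d + 1).choose 2 := by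
      rw [← Nat.choose_symm (by omega)]
      congr 1
      omega
    have h10 := Nat.add_one_mul_choose_eq d 1
    rw [Nat.choose_one_right] at h10
    change (d + 1) * d = (d + 1).choose 2 * 2 at h10
    rw [e1]
    linarith
  refine ⟨_, C', ⟨hull_polytope hS h01, fun hs => ?_, hspan, ?_, ?_⟩, h1, h2, h3, ?_, ?_⟩
  · have := ncard_le_of_isSimplex hs
    rw [hull_extreme h01, Set.ncard_coe_finset, hcard, hspan] at this
    omega
  · rw [hull_extreme h01, Set.ncard_coe_finset, hcard]
  · rw [dims_eq (hull_polytope hS h01), hull_factorRank hS h01, hcard]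
  · rw [h4, hch]
  · have h6 := factorRank_le_leastDim h1
    rw [dims_eq h1, Set.mem_Ici]
    omega

end Pool.Agent.KS6_80.LD
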