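import Pool.Agent.KS6_80.LD.Dual

/-!
# Refinements of small codimension

Helper file for MP_ff4a33_gt.  If a polytope `C` of dimension `d` with `m` extreme points has a
simplicial refinement by a simplex with `N ≤ d + 2` vertices, then `m ≤ N`.
-/

set_option autoImplicit false

open Finset

namespace Pool.Agent.KS6_80.LD

open Pool.Agent.X156.SR

variable {E : Type*} [NormedAddCommGroup E] [NormedSpace ℝ E]

/-- Two-sided lift of a functional. -/
theorem lift_two {C : Set E} (hcomp : IsCompact C) (hne : C.Nonempty) {N : ℕ}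
    {P : E → Fin N → ℝ} {W : (C → ℝ) → Fin N → ℝ}
    (hP : ∀ x ∈ C, (∀ i, 0 ≤ P x i) ∧ ∑ i, P x i = 1)
    (hW : ∀ η ∈ Omega C, ∀ i, 0 ≤ W η i ∧ W η i ≤ 1)
    (hPW : ∀ x : C, ∀ η ∈ Omega C, η x = ∑ i, P x i * W η i) (φ : E →L[ℝ] ℝ) :
    ∃ (w : Fin N → ℝ) (u l : E), u ∈ C ∧ l ∈ C ∧ (∀ i, φ l ≤ w i ∧ w i ≤ φ u) ∧
      ∀ x ∈ C, φ x = ∑ i, P x i * w i := by
  obtain ⟨x0, hx0⟩ := hne
  obtain ⟨u, hu, hmax⟩ := hcomp.exists_isMaxOn ⟨x0, hx0⟩ φ.continuous.continuousOn
  obtain ⟨l, hl, hmin⟩ := hcomp.exists_isMinOn ⟨x0, hx0⟩ φ.continuous.continuousOn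
  have h1 : ∀ c ∈ C, φ c ≤ φ u := fun c hc => hmax hc
  have h2 : ∀ c ∈ C, φ l ≤ φ c := fun c hc => hmin hc
  by_cases hd : φ u - φ l = 0
  · refine ⟨fun _ => φ l, u, l, hu, hl, fun i => ⟨le_refl _, h2 u hu⟩, fun x hx => ?_⟩
    rw [← Finset.sum_mul, (hP x hx).2, one_mul]
    have := h1 x hx
    have := h2 x hx
    linarith
  · have hd' : 0 < φ u - φ l := lt_of_le_of_ne (by linarith [h1 l hl]) (Ne.symm hd)
    have hη : (fun c : C => (φ c - φ l) / (φ u - φ l)) ∈ Omega C := by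
      refine ⟨fun a => ⟨?_, ?_⟩, ?_⟩
      · exact div_nonneg (by linarith [h2 a a.2]) hd'.le
      · rw [div_le_one hd']; linarith [h1 a a.2]
      · intro a b c t _ _ hc
        dsimp only
        rw [hc, map_add, map_smul, map_smul, smul_eq_mul, smul_eq_mul]
        field_simp
        ring
    obtain ⟨η0, hη0⟩ : ∃ η0 : C → ℝ, η0 = fun c : C => (φ c - φ l) / (φ u - φ l) := ⟨_, rfl⟩
    rw [← hη0] at hη
    refine ⟨fun i => φ l + (φ u - φ l) * W η0 i, u, l, hu, hl, fun i => ⟨?_, ?_⟩, fun x hx => ?_⟩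
    · have := mul_nonneg hd'.le (hW _ hη i).1
      linarith
    · have := mul_le_mul_of_nonneg_left (hW _ hη i).2 hd'.le
      linarith
    · have h3 := hPW ⟨x, hx⟩ _ hη
      have h3' : η0 ⟨x, hx⟩ = (φ x - φ l) / (φ u - φ l) := by rw [hη0]
      rw [h3', div_eq_iff hd] at h3
      have h4 : φ x = φ l * ∑ i, P x i + (φ u - φ l) * ∑ i, P x i * W η0 i := by
        rw [(hP x hx).2]
        linarith
      rw [h4, Finset.mul_sum, Finset.mul_sum, ← Finset.sum_add_distrib]
      exact Finset.sum_congr rfl fun i _ => by ring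

section

variable {C : Set E} {N : ℕ} {P : E → Fin N → ℝ} {W : (C → ℝ) → Fin N → ℝ} {m : ℕ} {c : Fin m → E}

theorem push_functional (hcC : ∀ j, c j ∈ C) {φ : E →L[ℝ] ℝ} {w : Fin N → ℝ}
    (hw : ∀ x ∈ C, φ x = ∑ i, P x i * w i) (τ : Fin m → ℝ) :
    φ (∑ j, τ j • c j) = ∑ i, (∑ j, τ j * P (c j) i) * w i := by
  rw [map_sum]
  simp only [map_smul, smul_eq_mul, Finset.sum_mul]
  rw [Finset.sum_comm]
  refine Finset.sum_congr rfl fun j _ => ?_
  rw [hw _ (hcC j), Finset.mul_sum]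
  exact Finset.sum_congr rfl fun i _ => by ring

theorem decomp (hC : IsPolytope C)
    (hP : ∀ x ∈ C, (∀ i, 0 ≤ P x i) ∧ ∑ i, P x i = 1)
    (hW : ∀ η ∈ Omega C, ∀ i, 0 ≤ W η i ∧ W η i ≤ 1)
    (hPW : ∀ x : C, ∀ η ∈ Omega C, η x = ∑ i, P x i * W η i)
    (hcC : ∀ j, c j ∈ C) (τ : Fin m → ℝ) :
    ∃ a ∈ C, ∃ b ∈ C, ∑ j, τ j • c j =
      (∑ i, max (∑ j, τ j * P (c j) i) 0) • a - (∑ i, max (-∑ j, τ j * P (c j) i) 0) • b := by
  obtain ⟨cp, hcp⟩ : ∃ r, r = ∑ i, max (∑ j, τ j * P (c j) i) 0 := ⟨_, rfl⟩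
  obtain ⟨cm, hcm⟩ : ∃ r, r = ∑ i, max (-∑ j, τ j * P (c j) i) 0 := ⟨_, rfl⟩
  rw [← hcp, ← hcm]
  by_contra hnot
  have hcomp := hC.2.1
  have hconv := hC.2.2.1
  let G : E × E → E := fun ab => cp • ab.1 - cm • ab.2
  have hG : Continuous G := by fun_prop
  have hQ : IsCompact (G '' (C ×ˢ C)) := (hcomp.prod hcomp).image hG
  have hQc : Convex ℝ (G '' (C ×ˢ C)) := by
    rintro _ ⟨⟨a, b⟩, ⟨ha, hb⟩, rfl⟩ _ ⟨⟨a', b'⟩, ⟨ha', hb'⟩, rfl⟩ r s hr hs hrs
    refine ⟨(r • a + s • a', r • b + s • b'), ⟨hconv ha ha' hr hs hrs, hconv hb hb' hr hs hrs⟩, ?_⟩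
    simp only [G]
    module
  have hz : ∑ j, τ j • c j ∉ G '' (C ×ˢ C) := by
    rintro ⟨⟨a, b⟩, ⟨ha, hb⟩, h⟩
    exact hnot ⟨a, ha, b, hb, h.symm⟩
  obtain ⟨φ, u0, h1, h2⟩ := geometric_hahn_banach_closed_point hQc hQ.isClosed hz
  obtain ⟨w, u, l, hu, hl, hwl, hw⟩ := lift_two hcomp hC.1 hP hW hPW φ
  have h3 := h1 (G (u, l)) ⟨(u, l), ⟨hu, hl⟩, rfl⟩
  have h4 : φ (G (u, l)) = cp * φ u - cm * φ l := by simp [G]
  have h5 := push_functional hcC hw τ
  have h6 : ∑ i, (∑ j, τ j * P (c j) i) * w i ≤ cp * φ u - cm * φ l := by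
    rw [hcp, hcm, Finset.sum_mul, Finset.sum_mul, ← Finset.sum_sub_distrib]
    refine Finset.sum_le_sum fun i _ => ?_
    obtain ⟨h7, h8⟩ := hwl i
    obtain ⟨s, hs⟩ : ∃ s, s = ∑ j, τ j * P (c j) i := ⟨_, rfl⟩
    rw [← hs]
    rcases le_total 0 s with h | h
    · rw [max_eq_left h, max_eq_right (by linarith : -s ≤ 0)]
      nlinarith [mul_le_mul_of_nonneg_left h8 h]
    · rw [max_eq_right h, max_eq_left (by linarith : 0 ≤ -s)]
      nlinarith [mul_le_mul_of_nonneg_left h7 (by linarith : 0 ≤ -s)]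
  linarith

theorem rel_down (hC : IsPolytope C)
    (hP : ∀ x ∈ C, (∀ i, 0 ≤ P x i) ∧ ∑ i, P x i = 1)
    (hW : ∀ η ∈ Omega C, ∀ i, 0 ≤ W η i ∧ W η i ≤ 1)
    (hPW : ∀ x : C, ∀ η ∈ Omega C, η x = ∑ i, P x i * W η i)
    (hcC : ∀ j, c j ∈ C) {g : Fin m → ℝ} (hg : ∀ i, ∑ j, g j * P (c j) i = 0) :
    ∑ j, g j = 0 ∧ ∑ j, g j • c j = 0 := by
  constructor
  · have h1 : ∑ i, ∑ j, g j * P (c j) i = 0 := Finset.sum_eq_zero fun i _ => hg i
    rw [Finset.sum_comm] at h1
    rw [← h1]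
    refine Finset.sum_congr rfl fun j _ => ?_
    rw [← Finset.mul_sum, (hP _ (hcC j)).2, mul_one]
  · apply eq_of_functionals
    intro φ
    obtain ⟨w, u, l, hu, hl, hwl, hw⟩ := lift_two hC.2.1 hC.1 hP hW hPW φ
    rw [push_functional hcC hw g, map_zero]
    exact Finset.sum_eq_zero fun i _ => by rw [hg i, zero_mul]

theorem pos_part (hC : IsPolytope C)
    (hP : ∀ x ∈ C, (∀ i, 0 ≤ P x i) ∧ ∑ i, P x i = 1)
    (hW : ∀ η ∈ Omega C, ∀ i, 0 ≤ W η i ∧ W η i ≤ 1)
    (hPW : ∀ x : C, ∀ η ∈ Omega C, η x = ∑ i, P x i * W η i)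
    (hc : Set.range c = C.extremePoints ℝ)
    (hinj : ∀ g : Fin m → ℝ, ∑ j, g j = 0 → ∑ j, g j • c j = 0 → ∀ i, ∑ j, g j * P (c j) i = 0)
    (τ : Fin m → ℝ) :
    ∃ α ∈ stdSimplex ℝ (Fin m), ∀ i, max (∑ j, τ j * P (c j) i) 0 =
      (∑ k, max (∑ j, τ j * P (c j) k) 0) * ∑ j, α j * P (c j) i := by
  have hcC : ∀ j, c j ∈ C := fun j => by
    have : c j ∈ C.extremePoints ℝ := by rw [← hc]; exact ⟨j, rfl⟩
    exact this.1
  obtain ⟨a, ha, b, hb, hab⟩ := decomp hC hP hW hPW hcC τ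
  rw [eq_convexHull hC, ← hc] at ha hb
  obtain ⟨α, hα0, hα1, hα⟩ := mem_convexHull_range ha
  obtain ⟨β, hβ0, hβ1, hβ⟩ := mem_convexHull_range hb
  refine ⟨α, ⟨hα0, hα1⟩, ?_⟩
  obtain ⟨cp, hcp⟩ : ∃ r, r = ∑ i, max (∑ j, τ j * P (c j) i) 0 := ⟨_, rfl⟩
  obtain ⟨cm, hcm⟩ : ∃ r, r = ∑ i, max (-∑ j, τ j * P (c j) i) 0 := ⟨_, rfl⟩
  rw [← hcp, ← hcm] at hab
  rw [← hcp]
  have hcm0 : 0 ≤ cm := by rw [hcm]; exact Finset.sum_nonneg fun i _ => le_max_right _ _
  have hcp0 : 0 ≤ cp := by rw [hcp]; exact Finset.sum_nonneg fun i _ => le_max_right _ _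
  have hdiff : cp - cm = ∑ j, τ j := by
    rw [hcp, hcm, ← Finset.sum_sub_distrib]
    have e : ∀ i ∈ (Finset.univ : Finset (Fin N)), max (∑ j, τ j * P (c j) i) 0 -
        max (-∑ j, τ j * P (c j) i) 0 = ∑ j, τ j * P (c j) i := by
      intro i _
      obtain ⟨s, hs⟩ : ∃ s, s = ∑ j, τ j * P (c j) i := ⟨_, rfl⟩
      rw [← hs]
      rcases le_total 0 s with h | h
      · rw [max_eq_left h, max_eq_right (by linarith : -s ≤ 0)]; ring
      · rw [max_eq_right h, max_eq_left (by linarith : 0 ≤ -s)]; ring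
    rw [Finset.sum_congr rfl e, Finset.sum_comm]
    refine Finset.sum_congr rfl fun j _ => ?_
    rw [← Finset.mul_sum, (hP _ (hcC j)).2, mul_one]
  have hrel : ∀ i, ∑ j, τ j * P (c j) i =
      cp * ∑ j, α j * P (c j) i - cm * ∑ j, β j * P (c j) i := by
    intro i
    have h1 := hinj (fun j => τ j - cp * α j + cm * β j) ?_ ?_ i
    · have h2 : ∑ j, (τ j - cp * α j + cm * β j) * P (c j) i = ∑ j, τ j * P (c j) i -
          cp * ∑ j, α j * P (c j) i + cm * ∑ j, β j * P (c j) i := by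
        rw [Finset.mul_sum, Finset.mul_sum, ← Finset.sum_sub_distrib, ← Finset.sum_add_distrib]
        exact Finset.sum_congr rfl fun j _ => by ring
      rw [h2] at h1
      linarith
    · rw [Finset.sum_add_distrib, Finset.sum_sub_distrib, ← Finset.mul_sum, ← Finset.mul_sum,
        hα1, hβ1]
      linarith
    · have h2 : ∑ j, (τ j - cp * α j + cm * β j) • c j = ∑ j, τ j • c j -
          cp • ∑ j, α j • c j + cm • ∑ j, β j • c j := by
        rw [Finset.smul_sum, Finset.smul_sum, ← Finset.sum_sub_distrib, ← Finset.sum_add_distrib]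
        exact Finset.sum_congr rfl fun j _ => by module
      rw [h2, hα, hβ, hab]
      abel
  have hnn : ∀ (γ : Fin m → ℝ), (∀ j, 0 ≤ γ j) → ∀ i, 0 ≤ ∑ j, γ j * P (c j) i := fun γ hγ i =>
    Finset.sum_nonneg fun j _ => mul_nonneg (hγ j) ((hP _ (hcC j)).1 i)
  have hle : ∀ i ∈ (Finset.univ : Finset (Fin N)), max (∑ j, τ j * P (c j) i) 0 ≤
      cp * ∑ j, α j * P (c j) i := by
    intro i _
    refine max_le ?_ (mul_nonneg hcp0 (hnn α hα0 i))
    have := mul_nonneg hcm0 (hnn β hβ0 i)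
    rw [hrel i]
    linarith
  have hsum : ∑ i, max (∑ j, τ j * P (c j) i) 0 = ∑ i, cp * ∑ j, α j * P (c j) i := by
    rw [← hcp, ← Finset.mul_sum, Finset.sum_comm]
    have e : ∀ j ∈ (Finset.univ : Finset (Fin m)), ∑ i, α j * P (c j) i = α j := by
      intro j _
      rw [← Finset.mul_sum, (hP _ (hcC j)).2, mul_one]
    rw [Finset.sum_congr rfl e, hα1, mul_one]
  intro i
  exact (Finset.sum_eq_sum_iff_of_le hle).1 hsum i (Finset.mem_univ i)

theorem half (hC : IsPolytope C)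
    (hP : ∀ x ∈ C, (∀ i, 0 ≤ P x i) ∧ ∑ i, P x i = 1)
    (hW : ∀ η ∈ Omega C, ∀ i, 0 ≤ W η i ∧ W η i ≤ 1)
    (hPW : ∀ x : C, ∀ η ∈ Omega C, η x = ∑ i, P x i * W η i)
    (hc : Set.range c = C.extremePoints ℝ)
    (hinj : ∀ g : Fin m → ℝ, ∑ j, g j = 0 → ∑ j, g j • c j = 0 → ∀ i, ∑ j, g j * P (c j) i = 0)
    (j k : Fin m) {s : ℝ} (hs : s = ∑ i, max (P (c j) i - P (c k) i) 0) (h0 : 0 < s)
    (h1 : s < 1) : ∀ i, max (P (c j) i - P (c k) i) 0 = s * P (c j) i := by
  classical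
  have hcX : ∀ j, c j ∈ C.extremePoints ℝ := fun j => by rw [← hc]; exact ⟨j, rfl⟩
  have hcC : ∀ j, c j ∈ C := fun j => (hcX j).1
  obtain ⟨α, hα, h2⟩ := pos_part hC hP hW hPW hc hinj
    (fun l => (if l = j then 1 else 0) - if l = k then 1 else 0)
  have e1 : ∀ i, ∑ l, ((if l = j then (1 : ℝ) else 0) - if l = k then 1 else 0) * P (c l) i =
      P (c j) i - P (c k) i := by
    intro i
    simp only [sub_mul, ite_mul, one_mul, zero_mul, Finset.sum_sub_distrib, Finset.sum_ite_eq',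
      Finset.mem_univ, if_true]
  simp only [e1] at h2
  rw [← hs] at h2
  obtain ⟨α', hα', h3⟩ := pos_part hC hP hW hPW hc hinj
    (fun l => (if l = j then 1 else 0) - s * α l)
  have e2 : ∀ i, ∑ l, ((if l = j then (1 : ℝ) else 0) - s * α l) * P (c l) i =
      P (c j) i - max (P (c j) i - P (c k) i) 0 := by
    intro i
    rw [h2 i]
    simp only [sub_mul, ite_mul, one_mul, zero_mul, Finset.sum_sub_distrib, Finset.sum_ite_eq',
      Finset.mem_univ, if_true]
    rw [Finset.mul_sum]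
    congr 1
    exact Finset.sum_congr rfl fun l _ => by ring
  have e3 : ∀ i, 0 ≤ P (c j) i - max (P (c j) i - P (c k) i) 0 := by
    intro i
    have h4 := (hP _ (hcC j)).1 i
    have h5 := (hP _ (hcC k)).1 i
    have : max (P (c j) i - P (c k) i) 0 ≤ P (c j) i := max_le (by linarith) h4
    linarith
  simp only [e2] at h3
  have e4 : ∑ i, max (P (c j) i - max (P (c j) i - P (c k) i) 0) 0 = 1 - s := by
    have e5 : ∀ i ∈ (Finset.univ : Finset (Fin N)),
        max (P (c j) i - max (P (c j) i - P (c k) i) 0) 0 =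
        P (c j) i - max (P (c j) i - P (c k) i) 0 := fun i _ => max_eq_left (e3 i)
    rw [Finset.sum_congr rfl e5, Finset.sum_sub_distrib, (hP _ (hcC j)).2, hs]
  have h3' : ∀ i, P (c j) i = s * ∑ l, α l * P (c l) i + (1 - s) * ∑ l, α' l * P (c l) i := by
    intro i
    have h4 := h3 i
    rw [max_eq_left (e3 i), e4] at h4
    rw [← h2 i, ← h4]
    ring
  have hmemC : ∀ γ ∈ stdSimplex ℝ (Fin m), ∑ l, γ l • c l ∈ C := fun γ hγ =>
    hC.2.2.1.sum_mem (fun l _ => hγ.1 l) hγ.2 fun l _ => hcC l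
  have hdown := (rel_down hC hP hW hPW hcC
    (g := fun l => (if l = j then 1 else 0) - s * α l - (1 - s) * α' l) (fun i => by
      have h4 := h3' i
      have e6 : ∑ l, ((if l = j then (1 : ℝ) else 0) - s * α l - (1 - s) * α' l) * P (c l) i =
          P (c j) i - s * ∑ l, α l * P (c l) i - (1 - s) * ∑ l, α' l * P (c l) i := by
        have e8 : ∀ l ∈ (Finset.univ : Finset (Fin m)),
            ((if l = j then (1 : ℝ) else 0) - s * α l - (1 - s) * α' l) * P (c l) i =
            (if l = j then P (c l) i else 0) - s * (α l * P (c l) i) -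
              (1 - s) * (α' l * P (c l) i) := by
          intro l _
          split_ifs <;> ring
        rw [Finset.sum_congr rfl e8, Finset.sum_sub_distrib, Finset.sum_sub_distrib,
          ← Finset.mul_sum, ← Finset.mul_sum, Finset.sum_ite_eq', if_pos (Finset.mem_univ _)]
      rw [e6]
      linarith)).2
  have e7 : ∑ l, ((if l = j then (1 : ℝ) else 0) - s * α l - (1 - s) * α' l) • c l =
      c j - s • ∑ l, α l • c l - (1 - s) • ∑ l, α' l • c l := by
    have e8 : ∀ l ∈ (Finset.univ : Finset (Fin m)),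
        ((if l = j then (1 : ℝ) else 0) - s * α l - (1 - s) * α' l) • c l =
        (if l = j then c l else 0) - s • (α l • c l) - (1 - s) • (α' l • c l) := by
      intro l _
      split_ifs <;> module
    rw [Finset.sum_congr rfl e8, Finset.sum_sub_distrib, Finset.sum_sub_distrib,
      ← Finset.smul_sum, ← Finset.smul_sum, Finset.sum_ite_eq', if_pos (Finset.mem_univ _)]
  rw [e7] at hdown
  have hseg : c j ∈ openSegment ℝ (∑ l, α l • c l) (∑ l, α' l • c l) := by
    refine ⟨s, 1 - s, h0, by linarith, by ring, ?_⟩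
    have := sub_eq_zero.1 hdown
    rw [← this]
    abel
  have hext := (hcX j).2 (hmemC α hα) (hmemC α' hα') hseg
  have hup := hinj (fun l => α l - if l = j then 1 else 0) ?_ ?_
  · intro i
    rw [h2 i]
    have h4 := hup i
    simp only [sub_mul, ite_mul, one_mul, zero_mul, Finset.sum_sub_distrib,
      Finset.sum_ite_eq', Finset.mem_univ, if_true] at h4
    rw [sub_eq_zero.1 h4]
  · rw [Finset.sum_sub_distrib, hα.2]
    simp
  · simp only [sub_smul, ite_smul, one_smul, zero_smul, Finset.sum_sub_distrib,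
      Finset.sum_ite_eq', Finset.mem_univ, if_true]
    rw [hext, sub_self]

/-- The supports of the probability vectors of different extreme points are disjoint. -/
theorem supports (hC : IsPolytope C)
    (hP : ∀ x ∈ C, (∀ i, 0 ≤ P x i) ∧ ∑ i, P x i = 1)
    (hW : ∀ η ∈ Omega C, ∀ i, 0 ≤ W η i ∧ W η i ≤ 1)
    (hPW : ∀ x : C, ∀ η ∈ Omega C, η x = ∑ i, P x i * W η i)
    (hcinj : Function.Injective c) (hc : Set.range c = C.extremePoints ℝ)
    (hinj : ∀ g : Fin m → ℝ, ∑ j, g j = 0 → ∑ j, g j • c j = 0 → ∀ i, ∑ j, g j * P (c j) i = 0)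
    {j k : Fin m} (hjk : j ≠ k) (i : Fin N) : P (c j) i = 0 ∨ P (c k) i = 0 := by
  classical
  have hcX : ∀ j, c j ∈ C.extremePoints ℝ := fun j => by rw [← hc]; exact ⟨j, rfl⟩
  have hcC : ∀ j, c j ∈ C := fun j => (hcX j).1
  obtain ⟨s, hs⟩ : ∃ s, s = ∑ i, max (P (c j) i - P (c k) i) 0 := ⟨_, rfl⟩
  have hs' : s = ∑ i, max (P (c k) i - P (c j) i) 0 := by
    have h1 : ∑ i, max (P (c j) i - P (c k) i) 0 - ∑ i, max (P (c k) i - P (c j) i) 0 = 0 := by
      rw [← Finset.sum_sub_distrib]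
      have e : ∀ i ∈ (Finset.univ : Finset (Fin N)), max (P (c j) i - P (c k) i) 0 -
          max (P (c k) i - P (c j) i) 0 = P (c j) i - P (c k) i := by
        intro i _
        rcases le_total (P (c j) i) (P (c k) i) with h | h
        · rw [max_eq_right (by linarith), max_eq_left (by linarith)]; ring
        · rw [max_eq_left (by linarith), max_eq_right (by linarith)]; ring
      rw [Finset.sum_congr rfl e, Finset.sum_sub_distrib, (hP _ (hcC j)).2, (hP _ (hcC k)).2,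
        sub_self]
    rw [hs]
    linarith
  have hj0 := (hP _ (hcC j)).1
  have hk0 := (hP _ (hcC k)).1
  have h0 : 0 ≤ s := by rw [hs]; exact Finset.sum_nonneg fun i _ => le_max_right _ _
  have hmin : ∀ i, 0 ≤ P (c j) i - max (P (c j) i - P (c k) i) 0 := by
    intro i
    have : max (P (c j) i - P (c k) i) 0 ≤ P (c j) i :=
      max_le (by linarith [hk0 i]) (hj0 i)
    linarith
  have hsum : ∑ i, (P (c j) i - max (P (c j) i - P (c k) i) 0) = 1 - s := by
    rw [Finset.sum_sub_distrib, (hP _ (hcC j)).2, hs]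
  have h1 : s ≤ 1 := by
    have := Finset.sum_nonneg fun i (_ : i ∈ (Finset.univ : Finset (Fin N))) => hmin i
    linarith
  rcases h0.eq_or_lt with h | h
  · exfalso
    have z1 := (Finset.sum_eq_zero_iff_of_nonneg fun i _ => le_max_right _ _).1 (hs.symm.trans h.symm)
    have z2 := (Finset.sum_eq_zero_iff_of_nonneg fun i _ => le_max_right _ _).1 (hs'.symm.trans h.symm)
    have heq : ∀ i, P (c j) i = P (c k) i := by
      intro i
      have y1 := z1 i (Finset.mem_univ i)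
      have y2 := z2 i (Finset.mem_univ i)
      have y3 := le_max_left (P (c j) i - P (c k) i) 0
      have y4 := le_max_left (P (c k) i - P (c j) i) 0
      linarith
    have hd := (rel_down hC hP hW hPW hcC
      (g := fun l => (if l = j then 1 else 0) - if l = k then 1 else 0) (fun i => by
        simp only [sub_mul, ite_mul, one_mul, zero_mul, Finset.sum_sub_distrib,
          Finset.sum_ite_eq', Finset.mem_univ, if_true]
        rw [heq i, sub_self])).2
    simp only [sub_smul, ite_smul, one_smul, zero_smul, Finset.sum_sub_distrib,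
      Finset.sum_ite_eq', Finset.mem_univ, if_true] at hd
    exact hjk (hcinj (sub_eq_zero.1 hd))
  · rcases h1.eq_or_lt with h' | h'
    · rw [h', sub_self] at hsum
      have z1 := (Finset.sum_eq_zero_iff_of_nonneg fun i _ => hmin i).1 hsum i (Finset.mem_univ i)
      rcases le_total (P (c j) i) (P (c k) i) with h2 | h2
      · rw [max_eq_right (by linarith)] at z1
        left; linarith
      · rw [max_eq_left (by linarith)] at z1
        right; linarith
    · exfalso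
      have g1 := half hC hP hW hPW hc hinj j k hs h h'
      have g2 := half hC hP hW hPW hc hinj k j hs' h h'
      have hz : ∀ i, P (c j) i = 0 := by
        intro i
        by_contra hne
        have hpos : 0 < P (c j) i := lt_of_le_of_ne (hj0 i) (Ne.symm hne)
        have y1 := g1 i
        have y2 := g2 i
        have y3 := mul_pos h hpos
        rcases le_total (P (c j) i) (P (c k) i) with h2 | h2
        · rw [max_eq_right (by linarith)] at y1
          linarith
        · rw [max_eq_right (by linarith)] at y2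
          rw [max_eq_left (by linarith)] at y1
          have y4 : P (c k) i = 0 := by
            rcases mul_eq_zero.1 y2.symm with h5 | h5
            · linarith
            · exact h5
          rw [y4, sub_zero] at y1
          nlinarith
      have := (hP _ (hcC j)).2
      rw [Finset.sum_eq_zero fun i _ => hz i] at this
      norm_num at this

theorem card_le_of_inj (hC : IsPolytope C)
    (hP : ∀ x ∈ C, (∀ i, 0 ≤ P x i) ∧ ∑ i, P x i = 1)
    (hW : ∀ η ∈ Omega C, ∀ i, 0 ≤ W η i ∧ W η i ≤ 1)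
    (hPW : ∀ x : C, ∀ η ∈ Omega C, η x = ∑ i, P x i * W η i)
    (hcinj : Function.Injective c) (hc : Set.range c = C.extremePoints ℝ)
    (hinj : ∀ g : Fin m → ℝ, ∑ j, g j = 0 → ∑ j, g j • c j = 0 → ∀ i, ∑ j, g j * P (c j) i = 0) :
    m ≤ N := by
  have hcC : ∀ j, c j ∈ C := fun j => by
    have : c j ∈ C.extremePoints ℝ := by rw [← hc]; exact ⟨j, rfl⟩
    exact this.1
  have hex : ∀ j, ∃ i, P (c j) i ≠ 0 := by
    intro j
    by_contra h
    push Not at h
    have := (hP _ (hcC j)).2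
    rw [Finset.sum_eq_zero fun i _ => h i] at this
    norm_num at this
  choose s hs using hex
  have hsi : Function.Injective s := by
    intro j k hjk
    by_contra hne
    rcases supports hC hP hW hPW hcinj hc hinj hne (s j) with h | h
    · exact hs j h
    · rw [hjk] at h
      exact hs k h
  simpa using Fintype.card_le_of_injective s hsi

end

end Pool.Agent.KS6_80.LD
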